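import Pool.Agent.Lib.MP_a37012_nt.Mg.G002

set_option autoImplicit false

open MeasureTheory MvPolynomial

namespace Pool.Agent.Lib.MP_a37012_nt

/-- First order Taylor expansion, uniformly on a compact convex set. -/
theorem cnt_second {d : ℕ} (V : Set (Fin d → ℝ)) (hV : IsOpen V)
    (K : Set (Fin d → ℝ)) (hK : IsCompact K) (hKc : Convex ℝ K) (hKV : K ⊆ V)
    (h : (Fin d → ℝ) → ℝ) (hh : ContDiffOn ℝ (2 : ℕ) h V) :
    ∃ M : ℝ, 1 ≤ M ∧ (∀ x ∈ K, |h x| ≤ M) ∧ ∀ x ∈ K, ∀ y ∈ K,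
      |h y - h x - ∑ a, pd a h x * (y a - x a)| ≤ M * ‖y - x‖ ^ 2 := by
  obtain ⟨M, hM1, hM⟩ := tay_bdd hV hK hKV hh
  refine ⟨max M (d * (d * M)), hM1.trans (le_max_left _ _), fun x hx =>
    (hM [] (by simp) x hx).trans (le_max_left _ _), ?_⟩
  intro x hx
  have hdh : DifferentiableOn ℝ h V := hh.differentiableOn (by simp)
  -- first derivatives
  have h1 : ∀ i, ∀ y ∈ K, |pd i h y - pd i h x| ≤ d * M * ‖y - x‖ ^ 1 := by
    intro i
    have hdi : DifferentiableOn ℝ (pd i h) V :=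
      (tay_pd (n := 1) hV hh i).differentiableOn (by simp)
    have := tay_mvt hV hKc hKV (fun y => pd i h y - pd i h x) (hdi.sub_const _) x hx
      (by simp) M (by linarith) 0 ?_
    · simpa using this
    · intro b y hy
      have h2 : pd b (fun y => pd i h y - pd i h x) y = pds [b, i] h y := by
        change fderiv ℝ (fun y => pd i h y - pd i h x) y (Pi.single b 1) = pd b (pd i h) y
        rw [fderiv_sub_const]
        rfl
      rw [h2]
      simpa using hM [b, i] (by simp) y hy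
  intro y hy
  have hlin : ∀ z, HasFDerivAt (fun y : Fin d → ℝ => ∑ a, pd a h x * (y a - x a))
      (∑ a, pd a h x • (ContinuousLinearMap.proj a : (Fin d → ℝ) →L[ℝ] ℝ)) z := by
    intro z
    refine HasFDerivAt.fun_sum fun a _ => ?_
    exact ((hasFDerivAt_apply a z).sub_const (x a)).const_mul _
  have h3 := tay_mvt hV hKc hKV (fun y => h y - h x - ∑ a, pd a h x * (y a - x a))
    ((hdh.sub_const _).sub fun z _ => (hlin z).differentiableAt.differentiableWithinAt) x hx
    (by simp) (d * M) (by positivity) 1 (by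
      intro i z hz
      have h4 : pd i (fun y => h y - h x - ∑ a, pd a h x * (y a - x a)) z =
          pd i h z - pd i h x := by
        have hd1 : HasFDerivAt h (fderiv ℝ h z) z :=
          (hdh.differentiableAt (hV.mem_nhds (hKV hz))).hasFDerivAt
        have := ((hd1.sub_const (h x)).sub (hlin z)).fderiv
        unfold pd
        have e : (fun y => h y - h x - ∑ a, (fderiv ℝ h x) (Pi.single a 1) * (y a - x a)) =
            fun y => h y - h x - ∑ a, pd a h x * (y a - x a) := rfl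
        rw [e]
        erw [this]
        simp [pd, Pi.single_apply]
      rw [h4]
      exact h1 i z hz) y hy
  refine h3.trans ?_
  gcongr
  · exact le_max_right _ _

/-- Covering by balls of equal radius. -/
theorem cnt_cover {d : ℕ} {σ : Type} (S : Finset σ) (f : σ → Fin d → ℝ) (r v : ℝ) (hr : 0 ≤ r)
    (hv : 0 ≤ v) (Cb Bad : Set (Fin d → ℝ)) (hCb : volume Cb = ENNReal.ofReal v)
    (hBad : volume {x | x ∈ Cb ∧ x ∈ Bad} ≤ ENNReal.ofReal (1 / 2) * volume Cb)
    (hcov : ∀ x ∈ Cb, x ∉ Bad → ∃ s ∈ S, x ∈ Metric.closedBall (f s) r) :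
    v / 2 ≤ S.card * (2 * r) ^ d := by
  have h1 : Cb ⊆ {x | x ∈ Cb ∧ x ∈ Bad} ∪ ⋃ s ∈ S, Metric.closedBall (f s) r := by
    intro x hx
    by_cases hb : x ∈ Bad
    · exact Or.inl ⟨hx, hb⟩
    · obtain ⟨s, hs, hxs⟩ := hcov x hx hb
      exact Or.inr (Set.mem_biUnion hs hxs)
  have h2 : volume Cb ≤ ENNReal.ofReal (1 / 2) * volume Cb +
      ENNReal.ofReal (S.card * (2 * r) ^ d) := by
    calc volume Cb ≤ volume ({x | x ∈ Cb ∧ x ∈ Bad} ∪ ⋃ s ∈ S, Metric.closedBall (f s) r) :=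
          measure_mono h1
      _ ≤ volume {x | x ∈ Cb ∧ x ∈ Bad} + volume (⋃ s ∈ S, Metric.closedBall (f s) r) :=
          measure_union_le _ _
      _ ≤ ENNReal.ofReal (1 / 2) * volume Cb + ∑ s ∈ S, volume (Metric.closedBall (f s) r) := by
          gcongr
          exact measure_biUnion_finset_le _ _
      _ = _ := by
          congr 1
          rw [Finset.sum_congr rfl fun s _ => Real.volume_pi_closedBall (f s) hr]
          rw [Finset.sum_const, Fintype.card_fin, nsmul_eq_mul,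
            ENNReal.ofReal_mul (Nat.cast_nonneg _), ENNReal.ofReal_natCast]
  rw [hCb, ← ENNReal.ofReal_mul (by norm_num), ← ENNReal.ofReal_add (by positivity)
    (by positivity), ENNReal.ofReal_le_ofReal_iff (by positivity)] at h2
  linarith

/-- The set of rational points near the graph over a bounded set is finite. -/
theorem cnt_finite {d m : ℕ} (K₁ : Set (Fin d → ℝ)) (F : Fin m → (Fin d → ℝ) → ℝ) (B Q ψ : ℝ)
    (hB : ∀ y ∈ K₁, ‖y‖ ≤ B) (hF : ∀ y ∈ K₁, ∀ j, |F j y| ≤ B) (hB0 : 0 ≤ B) (hψ : ψ ≤ 1) :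
    Set.Finite {s : (Fin d → ℤ) × (Fin m → ℤ) × ℕ | 1 ≤ s.2.2 ∧ (s.2.2 : ℝ) ≤ Q ∧
      (fun a => (s.1 a : ℝ) / s.2.2) ∈ K₁ ∧
      ∀ i, |F i (fun a => (s.1 a : ℝ) / s.2.2) - (s.2.1 i : ℝ) / s.2.2| ≤ ψ / s.2.2} := by
  obtain ⟨N, hN⟩ := exists_nat_ge ((B + 1) * Q)
  obtain ⟨N', hN'⟩ := exists_nat_ge Q
  refine Set.Finite.subset ((Set.finite_Icc (fun _ : Fin d => -(N : ℤ)) (fun _ => (N : ℤ))).prod
    ((Set.finite_Icc (fun _ : Fin m => -(N : ℤ)) (fun _ => (N : ℤ))).prod
      (Set.finite_Icc 0 N'))) ?_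
  rintro ⟨a, p, q⟩ ⟨hq1, hqQ, hK, hFp⟩
  simp only at hq1 hqQ hK hFp
  have hq0 : (0 : ℝ) < q := by exact_mod_cast hq1
  have hq1' : (1 : ℝ) ≤ q := by exact_mod_cast hq1
  have ha : ∀ i, |(a i : ℝ)| ≤ N := by
    intro i
    have h1 := (norm_le_pi_norm (fun a_1 => (a a_1 : ℝ) / q) i).trans (hB _ hK)
    rw [Real.norm_eq_abs, abs_div, abs_of_pos hq0, div_le_iff₀ hq0] at h1
    have h2 : B * q ≤ (B + 1) * Q := by nlinarith
    linarith
  have hp : ∀ i, |(p i : ℝ)| ≤ N := by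
    intro i
    have h1 := hFp i
    have h2 := hF _ hK i
    have h3 : |(p i : ℝ) / q| ≤ B + ψ / q := by
      have := abs_sub_abs_le_abs_sub ((p i : ℝ) / q) (F i fun a_1 => (a a_1 : ℝ) / q)
      rw [abs_sub_comm] at this
      linarith
    rw [abs_div, abs_of_pos hq0, div_le_iff₀ hq0] at h3
    have h4 : (B + ψ / q) * q = B * q + ψ := by field_simp
    have h5 : B * q + ψ ≤ (B + 1) * Q := by nlinarith
    linarith
  have haux : ∀ z : ℤ, |(z : ℝ)| ≤ N → -(N : ℤ) ≤ z ∧ z ≤ (N : ℤ) := by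
    intro z hz
    have := abs_le.mp hz
    constructor
    · have h := this.1
      exact_mod_cast h
    · have h := this.2
      exact_mod_cast h
  refine ⟨⟨fun i => (haux _ (ha i)).1, fun i => (haux _ (ha i)).2⟩,
    ⟨fun i => (haux _ (hp i)).1, fun i => (haux _ (hp i)).2⟩, ?_, ?_⟩
  · exact Nat.zero_le _
  · have : (q : ℝ) ≤ N' := hqQ.trans hN'
    exact_mod_cast this

/-- The lower bound for the number of rational points near a graph. -/
theorem mongeCount (d m L : ℕ) (hd : 1 ≤ d) (hm : 1 ≤ m) (hL : (m + 1) ^ 2 + 2 * d + 1 ≤ L)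
    (V : Set (Fin d → ℝ)) (hV : IsOpen V) (F : Fin m → (Fin d → ℝ) → ℝ)
    (hF : ∀ i, ContDiffOn ℝ L (F i) V) (j₀ : ℕ) (k₀ : Fin d → ℤ)
    (hcube : closure (cube j₀ k₀) ⊆ V) (c₀ : ℝ) (hc₀ : 0 < c₀)
    (hnd : ∀ x ∈ cube j₀ k₀, ∀ z : Fin m → ℝ, ∃ I : List (Fin d), 2 ≤ I.length ∧
      I.length ≤ m + 1 ∧ c₀ * ‖z‖ ≤ |∑ i, z i * pds I (F i) x|) :
    ∃ C₁ C₂ Q₀ : ℝ, 0 < C₁ ∧ 0 < C₂ ∧ ∀ Q ψ : ℝ, Q₀ ≤ Q → 0 < ψ → ψ < 1 → C₂ ^ m < ψ ^ m * Q →
      ∃ S : Finset ((Fin d → ℤ) × (Fin m → ℤ) × ℕ),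
        (∀ s ∈ S, 1 ≤ s.2.2 ∧ (s.2.2 : ℝ) ≤ Q ∧ (fun a => (s.1 a : ℝ) / s.2.2) ∈ V ∧
          ∀ i, |F i (fun a => (s.1 a : ℝ) / s.2.2) - (s.2.1 i : ℝ) / s.2.2| ≤ ψ / s.2.2) ∧
        C₁ * ψ ^ m * Q ^ (d + 1) ≤ S.card := by
  classical
  obtain ⟨ε, A, Q₁, hε, hA1, hgood⟩ :=
    dualGood d m L hm hL V hV F hF j₀ k₀ hcube c₀ hc₀ hnd
  have hA0 : 0 < A := by linarith
  -- the thickened cube
  obtain ⟨δ, hδ, hδV⟩ := (cube_compact j₀ k₀).exists_cthickening_subset_open hV hcube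
  set K₁ := Metric.cthickening δ (closure (cube j₀ k₀)) with hK₁
  have hK₁c : IsCompact K₁ := (cube_compact j₀ k₀).cthickening
  have hK₁v : Convex ℝ K₁ := (cube_convex j₀ k₀).closure.cthickening δ
  have hL2 : 2 ≤ L := by nlinarith
  have hsec := fun i => cnt_second V hV K₁ hK₁c hK₁v hδV (F i)
    ((hF i).of_le (by exact_mod_cast hL2))
  choose Mi hMi1 hMi2 hMi3 using hsec
  set M : ℝ := ∑ i, Mi i with hMdef
  have hMle : ∀ i, Mi i ≤ M := fun i =>
    Finset.single_le_sum (f := Mi) (fun j _ => by linarith [hMi1 j]) (Finset.mem_univ i)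
  have hM1 : 1 ≤ M := (hMi1 ⟨0, hm⟩).trans (hMle _)
  have hM0 : 0 < M := by linarith
  obtain ⟨B₀, hB₀⟩ := hK₁c.isBounded.exists_norm_le
  -- constants
  set N : ℝ := 1 + d + m with hN
  have hN0 : 0 < N := by positivity
  set lam : ℝ := min 1 ((ε / (2 * (1 + d + m))) ^ (d + m) / (2 * A)) with hlam
  have hlam0 : 0 < lam := by
    refine lt_min one_pos (div_pos (pow_pos (div_pos hε (by positivity)) _) (by positivity))
  have hlam1 : lam ≤ 1 := min_le_left _ _
  set c₂ : ℝ := A * lam ^ (1 + d + m) with hc₂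
  have hc₂0 : 0 < c₂ := by positivity
  set C : ℝ := max 2 (1 / lam) with hC
  have hC2 : 2 ≤ C := le_max_left _ _
  have hC0 : 0 < C := by linarith
  set κ : ℝ := max (max 1 (1 / lam)) (2 * M / c₂) with hκ
  have hκ1 : 1 ≤ κ := (le_max_left _ _).trans (le_max_left _ _)
  have hκ0 : 0 < κ := by linarith
  set v : ℝ := (1 / 2 ^ j₀) ^ d with hv
  have hv0 : 0 < v := by positivity
  refine ⟨v / 2 * (c₂ / 2) ^ d / C ^ m, C * κ ^ d, max (max 1 (Q₁ * lam / c₂)) (1 / (c₂ * δ)),
    by positivity, by positivity, ?_⟩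
  intro Q ψ hQ₀ hψ0 hψ1 hC₂
  have hQ1 : 1 ≤ Q := ((le_max_left _ _).trans (le_max_left _ _)).trans hQ₀
  have hQ0 : 0 < Q := by linarith
  have hQQ₁ : Q₁ * lam / c₂ ≤ Q := ((le_max_right _ _).trans (le_max_left _ _)).trans hQ₀
  have hQδ : 1 / (c₂ * δ) ≤ Q := (le_max_right _ _).trans hQ₀
  set T : ℝ := C / ψ with hT
  have hT0 : 0 < T := by positivity
  set K : ℝ := (Q / T ^ m) ^ (1 / (d : ℝ)) with hK
  have hKd0 : 0 < Q / T ^ m := by positivity
  have hK0 : 0 < K := Real.rpow_pos_of_pos hKd0 _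
  have hKd : K ^ d = Q / T ^ m := by
    rw [hK, ← Real.rpow_natCast, ← Real.rpow_mul hKd0.le]
    rw [one_div, inv_mul_cancel₀ (by positivity), Real.rpow_one]
  have hQKT : Q = K ^ d * T ^ m := by
    rw [hKd]; field_simp
  have hκK : κ ≤ K := by
    have h1 : κ ^ d ≤ K ^ d := by
      have h2 : (κ ^ d) ^ m * C ^ m < ψ ^ m * Q := by
        rw [← mul_pow, mul_comm (κ ^ d)]; exact hC₂
      have h3 : κ ^ d ≤ (κ ^ d) ^ m := le_self_pow₀ (one_le_pow₀ hκ1) (by omega)
      rw [hKd, hT, div_pow, div_div_eq_mul_div, le_div_iff₀ (by positivity)]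
      calc κ ^ d * C ^ m ≤ (κ ^ d) ^ m * C ^ m := by gcongr
        _ ≤ Q * ψ ^ m := by linarith
    exact le_of_pow_le_pow_left₀ (by omega) hK0.le h1
  have hK1 : 1 ≤ K := hκ1.trans hκK
  have hlamK : 1 ≤ lam * K := by
    have h1 : 1 / lam ≤ K := ((le_max_right _ _).trans (le_max_left _ _)).trans hκK
    rw [div_le_iff₀ hlam0] at h1
    linarith
  have hlamT : 1 ≤ lam * T := by
    have h1 : 1 / lam ≤ C := le_max_right _ _
    have h2 : C ≤ T := by
      rw [hT, le_div_iff₀ hψ0]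
      nlinarith
    have h3 := h1.trans h2
    rw [div_le_iff₀ hlam0] at h3
    linarith
  have hψQ : 1 ≤ ψ * Q := by
    have h1 : 1 ≤ (C * κ ^ d) ^ m := by
      refine one_le_pow₀ ?_
      exact one_le_mul_of_one_le_of_one_le (by linarith) (one_le_pow₀ hκ1)
    have h2 : ψ ^ m ≤ ψ := pow_le_of_le_one hψ0.le hψ1.le (by omega)
    calc (1 : ℝ) ≤ (C * κ ^ d) ^ m := h1
      _ ≤ ψ ^ m * Q := hC₂.le
      _ ≤ ψ * Q := by gcongr
  -- the finite set
  have hfin := cnt_finite K₁ F (max B₀ M) Q ψ (fun y hy => (hB₀ y hy).trans (le_max_left _ _))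
    (fun y hy j => ((hMi2 j y hy).trans (hMle j)).trans (le_max_right _ _))
    (hM0.le.trans (le_max_right _ _)) hψ1.le
  refine ⟨hfin.toFinset, ?_, ?_⟩
  · intro s hs
    obtain ⟨h1, h2, h3, h4⟩ := (Set.Finite.mem_toFinset hfin).mp hs
    exact ⟨h1, h2, hδV h3, h4⟩
  -- the good points
  set Bad : Set (Fin d → ℝ) := {x | ∃ c : Idx d m → ℤ, c ≠ 0 ∧
    ∀ a, |(HF F (c₂ * Q / lam) (lam * K) (lam * T) x).mulVec (fun b => (c b : ℝ)) a| < ε}
    with hBad
  have hbad := hgood (c₂ * Q / lam) (lam * K) (lam * T) hlamK hlamT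
    (by
      rw [le_div_iff₀ hlam0]
      rw [div_le_iff₀ hc₂0] at hQQ₁
      linarith)
    (by
      have h1 : lam ^ (1 + d + m) = lam ^ d * lam ^ m * lam := by
        rw [← pow_add, ← pow_succ]; congr 1; omega
      rw [hc₂, h1, mul_pow, mul_pow]
      conv_lhs => rw [hQKT]
      field_simp)
  set r : ℝ := 1 / (c₂ * Q * K) with hr
  have hr0 : 0 < r := by positivity
  have hrδ : r ≤ δ := by
    rw [hr, div_le_iff₀ (by positivity)]
    rw [div_le_iff₀ (by positivity)] at hQδ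
    have : c₂ * Q * δ ≤ c₂ * Q * δ * K := le_mul_of_one_le_right (by positivity) hK1
    nlinarith
  have hcov := cnt_cover hfin.toFinset (fun s a => (s.1 a : ℝ) / s.2.2) r v hr0.le hv0.le
    (cube j₀ k₀) Bad (by rw [km_volume_cube, hv, ENNReal.ofReal_pow (by positivity)]) hbad (by
      intro x hx hxb
      obtain ⟨q, a, p, hq1, hq2, ha, hp⟩ := primal F ε A lam c₂ hε hA1 hlam0 (min_le_right _ _)
        hc₂ Q K T hK0 hT0 hQKT x hxb
      have hq0 : (0 : ℝ) < q := lt_of_lt_of_le (by positivity) hq1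
      have hqpos : 0 < q := by exact_mod_cast hq0
      obtain ⟨q', rfl⟩ : ∃ q' : ℕ, q = q' := ⟨q.toNat, by omega⟩
      have hcast : (((q' : ℤ)) : ℝ) = (q' : ℝ) := by norm_cast
      rw [hcast] at hq1 hq2 hq0
      simp only [hcast] at ha hp
      set y : Fin d → ℝ := fun i => (a i : ℝ) / q' with hy
      have hyx : ∀ i, |y i - x i| ≤ 1 / (K * q') := by
        intro i
        have h1 : y i - x i = ((a i : ℝ) - q' * x i) / q' := by
          rw [hy]; field_simp
        rw [h1, abs_div, abs_of_pos hq0, div_le_iff₀ hq0]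
        refine (ha i).trans_eq ?_
        field_simp
      have hyx' : ‖y - x‖ ≤ 1 / (K * q') := by
        rw [pi_norm_le_iff_of_nonneg (by positivity)]
        intro i
        rw [Pi.sub_apply, Real.norm_eq_abs]
        exact hyx i
      have hyr : ‖y - x‖ ≤ r := by
        refine hyx'.trans ?_
        rw [hr]
        refine one_div_le_one_div_of_le (by positivity) ?_
        nlinarith
      have hyK₁ : y ∈ K₁ := by
        refine Metric.mem_cthickening_of_dist_le y x δ _ (subset_closure hx) ?_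
        rw [dist_eq_norm]
        exact hyr.trans hrδ
      have hxK₁ : x ∈ K₁ := Metric.self_subset_cthickening _ (subset_closure hx)
      refine ⟨(a, p, q'), ?_, ?_⟩
      · rw [Set.Finite.mem_toFinset]
        refine ⟨?_, hq2, hyK₁, ?_⟩
        · have : 0 < q' := by exact_mod_cast hq0
          exact this
        · intro j
          have h1 := hMi3 j x hxK₁ y hyK₁
          have h2 := hp j
          have h3 : F j y - (p j : ℝ) / q' =
              (F j y - F j x - ∑ a, pd a (F j) x * (y a - x a)) -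
              ((p j : ℝ) - q' * F j x - ∑ i, pd i (F j) x * ((a i : ℝ) - q' * x i)) / q' := by
            have h4 : ∑ a, pd a (F j) x * (y a - x a) =
                (∑ i, pd i (F j) x * ((a i : ℝ) - q' * x i)) / q' := by
              rw [Finset.sum_div]
              refine Finset.sum_congr rfl fun i _ => ?_
              rw [hy]; field_simp
            rw [h4]
            field_simp
            ring
          change |F j y - (p j : ℝ) / q'| ≤ ψ / q'
          rw [h3]
          have h5 : |((p j : ℝ) - q' * F j x - ∑ i, pd i (F j) x * ((a i : ℝ) - q' * x i)) / q'| ≤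
              ψ / 2 / q' := by
            rw [abs_div, abs_of_pos hq0]
            have : 1 / T ≤ ψ / 2 := by
              rw [hT, one_div_div]
              gcongr
            gcongr
            exact h2.trans this
          have h6 : |F j y - F j x - ∑ a, pd a (F j) x * (y a - x a)| ≤ ψ / 2 / q' := by
            refine h1.trans ?_
            have h7 : ‖y - x‖ ^ 2 ≤ (1 / (K * q')) ^ 2 :=
              pow_le_pow_left₀ (norm_nonneg _) hyx' 2
            have h8 : Mi j * ‖y - x‖ ^ 2 ≤ M * (1 / (K * q')) ^ 2 :=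
              mul_le_mul (hMle j) h7 (by positivity) hM0.le
            refine h8.trans ?_
            have h9 : 2 * M / c₂ ≤ K := (le_max_right _ _).trans hκK
            rw [div_le_iff₀ hc₂0] at h9
            have h10 : 2 * M ≤ ψ * K ^ 2 * q' := by
              calc 2 * M ≤ K * c₂ := h9
                _ ≤ K * c₂ * (ψ * Q) := le_mul_of_one_le_right (by positivity) hψQ
                _ = ψ * K * (c₂ * Q) := by ring
                _ ≤ ψ * K * q' := by gcongr
                _ ≤ ψ * K * q' * K := le_mul_of_one_le_right (by positivity) hK1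
                _ = ψ * K ^ 2 * q' := by ring
            rw [one_div, inv_pow, ← div_eq_mul_inv, div_div, div_le_div_iff₀ (by positivity)
              (by positivity)]
            nlinarith
          have h11 := abs_sub (F j y - F j x - ∑ a, pd a (F j) x * (y a - x a))
            (((p j : ℝ) - q' * F j x - ∑ i, pd i (F j) x * ((a i : ℝ) - q' * x i)) / q')
          have h12 : ψ / q' = ψ / 2 / q' + ψ / 2 / q' := by ring
          rw [h12]
          linarith
      · rw [Metric.mem_closedBall, dist_comm, dist_eq_norm]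
        exact hyr)
  -- conclusion
  have h1 : (2 * r) ^ d = (c₂ / 2)⁻¹ ^ d * (Q ^ d * K ^ d)⁻¹ := by
    rw [hr, ← mul_pow, ← inv_pow, ← mul_pow]
    congr 1
    field_simp
  rw [h1] at hcov
  have h2 : v / 2 * (c₂ / 2) ^ d / C ^ m * ψ ^ m * Q ^ (d + 1) =
      v / 2 * ((c₂ / 2) ^ d * (Q ^ d * K ^ d)) := by
    have hTm : T ^ m = C ^ m / ψ ^ m := by rw [hT, div_pow]
    rw [hKd, hTm, pow_succ]
    field_simp
  rw [h2]
  calc v / 2 * ((c₂ / 2) ^ d * (Q ^ d * K ^ d))
      ≤ (hfin.toFinset.card * ((c₂ / 2)⁻¹ ^ d * (Q ^ d * K ^ d)⁻¹)) *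
        ((c₂ / 2) ^ d * (Q ^ d * K ^ d)) := by gcongr
    _ = hfin.toFinset.card := by
        have hX : (c₂ / 2) ^ d * (Q ^ d * K ^ d) ≠ 0 := by positivity
        rw [inv_pow, ← mul_inv, mul_assoc, inv_mul_cancel₀ hX, mul_one]

end Pool.Agent.Lib.MP_a37012_nt
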