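import Pool.Agent.Lib.MP_a37012_nt.Good

/-!
# Definitions for the general case (every smoothness)
-/

set_option autoImplicit false

open MeasureTheory MvPolynomial

namespace Pool.Agent.Lib.MP_a37012_nt

/-- The largest absolute value of the minors of maximal size of a matrix with `r` columns
(rows may be repeated). -/
noncomputable def mm {ι : Type} {r : ℕ} (A : Matrix ι (Fin r) ℝ) : ℝ :=
  ⨆ e : Fin r → ι, |(A.submatrix e id).det|

/-- The columns of a matrix preceded by one more column. -/
def mcons {ι : Type} {r : ℕ} (c : ι → ℝ) (A : Matrix ι (Fin r) ℝ) : Matrix ι (Fin (r + 1)) ℝ :=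
  Matrix.of fun a => Fin.cons (c a) (A a)

/-- A lattice basis of the integer points of a rational subspace: number of columns. -/
noncomputable def basR {ι : Type} [Fintype ι] (W : Submodule ℚ (ι → ℚ)) : ℕ :=
  (km_basis W).choose

/-- A lattice basis of the integer points of a rational subspace. -/
noncomputable def basM {ι : Type} [Fintype ι] (W : Submodule ℚ (ι → ℚ)) :
    Matrix ι (Fin (basR W)) ℤ :=
  (km_basis W).choose_spec.choose

/-- The covolume (largest minor) of the lattice of integer points of `W` under `H`. -/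
noncomputable def cov {ι : Type} [Fintype ι] (H : Matrix ι ι ℝ) (W : Submodule ℚ (ι → ℚ)) : ℝ :=
  mm (H * toR (basM W))

/-- For most points of the cube there is no short dual vector, for all large `N` and all `T`
with `T ^ (m + 1) ≤ N ^ 2`. -/
def ParGood {d m : ℕ} (F : Fin m → (Fin d → ℝ) → ℝ) (j₀ : ℕ) (k₀ : Fin d → ℤ) : Prop :=
  ∃ ε N₀ : ℝ, 0 < ε ∧ ∀ N T : ℝ, N₀ ≤ N → 0 < T → T ^ (m + 1) ≤ N ^ 2 →
    volume {x | x ∈ cube j₀ k₀ ∧ ∃ c : Idx d m → ℤ, c ≠ 0 ∧
      ∀ a, |(HF F (N ^ 2 / T) (T / N) T x).mulVec (fun b => (c b : ℝ)) a| < ε} ≤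
      ENNReal.ofReal (1 / 2) * volume (cube j₀ k₀)

/-- The primal matrix for a hypersurface: the row `none` is `N` times the height of the point
over the tangent plane, the rows `inl` give the position and the row `inr` the denominator.
The columns are: `none` the height, `inl` the numerators, `inr` the denominator. -/
noncomputable def PM {d : ℕ} (F : (Fin d → ℝ) → ℝ) (N : ℝ) (x : Fin d → ℝ) :
    Matrix (Idx d 1) (Idx d 1) ℝ
  | none, none => N
  | none, some (Sum.inl a) => -(N * pd a F x)
  | none, some (Sum.inr _) => N * ((∑ a, pd a F x * x a) - F x)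
  | some (Sum.inl _), none => 0
  | some (Sum.inl i), some (Sum.inl a) => if i = a then 1 else 0
  | some (Sum.inl i), some (Sum.inr _) => -x i
  | some (Sum.inr _), none => 0
  | some (Sum.inr _), some (Sum.inl _) => 0
  | some (Sum.inr _), some (Sum.inr _) => 1 / N

/-- Height over the tangent plane at `x` of the point with position `a` and height `p`. -/
noncomputable def tanG {d : ℕ} (F : (Fin d → ℝ) → ℝ) (p : ℝ) (a : Fin d → ℝ) (x : Fin d → ℝ) : ℝ :=
  p - F x - ∑ i, pd i F x * (a i - x i)

/-- Small values of `f` on the cube, relative to the size of `f` on the cube, are rare. -/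
def GoodOn {d : ℕ} (f : (Fin d → ℝ) → ℝ) (ε η : ℝ) (j : ℕ) (k : Fin d → ℤ) : Prop :=
  ∀ S : ℝ, 0 < S → (∃ x ∈ cube j k, S ≤ |f x|) →
    volume {x | x ∈ cube j k ∧ |f x| < ε * S} ≤ ENNReal.ofReal η * volume (cube j k)

/-- The normalised matrix at level `j` for polynomials. -/
noncomputable def HPj {d m : ℕ} (P : Fin m → MvPolynomial (Fin d) ℝ) (θ : ℝ) (j : ℕ)
    (x : Fin d → ℝ) : Matrix (Idx d m) (Idx d m) ℝ :=
  evalM (HM P (θ ^ (2 * m * j)) ((θ ^ ((m - 1) * j))⁻¹) (θ ^ (2 * j))) x

/-- The normalised matrix at level `j` for functions. -/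
noncomputable def HFj {d m : ℕ} (F : Fin m → (Fin d → ℝ) → ℝ) (θ : ℝ) (j : ℕ)
    (x : Fin d → ℝ) : Matrix (Idx d m) (Idx d m) ℝ :=
  HF F (θ ^ (2 * m * j)) ((θ ^ ((m - 1) * j))⁻¹) (θ ^ (2 * j)) x

end Pool.Agent.Lib.MP_a37012_nt
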