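import Pool.Agent.Lib.MP_a37012_nt.Defs

set_option autoImplicit false

open MvPolynomial

namespace Pool.Agent.Lib.MP_a37012_nt

variable {d : ℕ}

theorem totalDegree_pderiv_le (i : Fin d) (p : MvPolynomial (Fin d) ℝ) :
    (pderiv i p).totalDegree ≤ p.totalDegree := by
  refine Finset.sup_le fun m hm => ?_
  rw [mem_support_iff, coeff_pderiv] at hm
  have h1 : coeff (m + Finsupp.single i 1) p ≠ 0 := left_ne_zero_of_mul hm
  have h2 := le_totalDegree (mem_support_iff.mpr h1)
  have h3 : (m + Finsupp.single i 1).sum (fun _ e => e) = (m.sum fun _ e => e) + 1 := by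
    rw [Finsupp.sum_add_index' (fun _ => rfl) (fun _ _ _ => rfl), Finsupp.sum_single_index rfl]
  omega

theorem pderiv_comm' (i j : Fin d) (p : MvPolynomial (Fin d) ℝ) :
    pderiv i (pderiv j p) = pderiv j (pderiv i p) := by
  ext m
  simp only [coeff_pderiv]
  rw [add_right_comm]
  by_cases h : i = j
  · subst h; ring
  · simp [h, Ne.symm h]
    ring

/-- The constant coefficient vector field with coefficient row `c a`. -/
noncomputable def xd (c : Fin d → Fin d → ℝ) (a : Fin d) (p : MvPolynomial (Fin d) ℝ) :
    MvPolynomial (Fin d) ℝ := ∑ b, C (c a b) * pderiv b p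

/-- Iterated constant coefficient vector fields. -/
noncomputable def xds (c : Fin d → Fin d → ℝ) :
    List (Fin d) → MvPolynomial (Fin d) ℝ → MvPolynomial (Fin d) ℝ
  | [], p => p
  | a :: J, p => xd c a (xds c J p)

variable (c : Fin d → Fin d → ℝ)

theorem xd_add (a : Fin d) (p q : MvPolynomial (Fin d) ℝ) :
    xd c a (p + q) = xd c a p + xd c a q := by
  simp only [xd, map_add, mul_add, Finset.sum_add_distrib]

theorem xd_sub (a : Fin d) (p q : MvPolynomial (Fin d) ℝ) :
    xd c a (p - q) = xd c a p - xd c a q := by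
  simp only [xd, map_sub, mul_sub, Finset.sum_sub_distrib]

theorem xd_C_mul (a : Fin d) (r : ℝ) (p : MvPolynomial (Fin d) ℝ) :
    xd c a (C r * p) = C r * xd c a p := by
  simp only [xd, pderiv_C_mul, Finset.mul_sum]
  exact Finset.sum_congr rfl fun b _ => by ring

theorem xd_zero (a : Fin d) : xd c a 0 = 0 := by simp [xd]

theorem xd_sum {κ : Type*} (s : Finset κ) (a : Fin d) (f : κ → MvPolynomial (Fin d) ℝ) :
    xd c a (∑ i ∈ s, f i) = ∑ i ∈ s, xd c a (f i) := by
  classical
  induction s using Finset.induction_on with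
  | empty => simp [xd_zero]
  | insert i s hi ih => rw [Finset.sum_insert hi, Finset.sum_insert hi, xd_add, ih]

theorem xd_mul (a : Fin d) (p q : MvPolynomial (Fin d) ℝ) :
    xd c a (p * q) = xd c a p * q + p * xd c a q := by
  simp only [xd, pderiv_mul, Finset.sum_mul, Finset.mul_sum, ← Finset.sum_add_distrib]
  exact Finset.sum_congr rfl fun b _ => by ring

theorem xd_comm (c' : Fin d → Fin d → ℝ) (a b : Fin d) (p : MvPolynomial (Fin d) ℝ) :
    xd c a (xd c' b p) = xd c' b (xd c a p) := by
  simp only [xd, map_sum, pderiv_C_mul, Finset.mul_sum]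
  rw [Finset.sum_comm]
  refine Finset.sum_congr rfl fun x _ => Finset.sum_congr rfl fun y _ => ?_
  rw [pderiv_comm']
  ring

theorem xds_xd (c' : Fin d → Fin d → ℝ) (J : List (Fin d)) (a : Fin d)
    (p : MvPolynomial (Fin d) ℝ) : xds c J (xd c' a p) = xd c' a (xds c J p) := by
  induction J with
  | nil => rfl
  | cons b J ih => simp only [xds]; rw [ih, xd_comm]

theorem xds_add (J : List (Fin d)) (p q : MvPolynomial (Fin d) ℝ) :
    xds c J (p + q) = xds c J p + xds c J q := by
  induction J with
  | nil => rfl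
  | cons b J ih => simp only [xds]; rw [ih, xd_add]

theorem xds_sub (J : List (Fin d)) (p q : MvPolynomial (Fin d) ℝ) :
    xds c J (p - q) = xds c J p - xds c J q := by
  induction J with
  | nil => rfl
  | cons b J ih => simp only [xds]; rw [ih, xd_sub]

theorem xds_C_mul (J : List (Fin d)) (r : ℝ) (p : MvPolynomial (Fin d) ℝ) :
    xds c J (C r * p) = C r * xds c J p := by
  induction J with
  | nil => rfl
  | cons b J ih => simp only [xds]; rw [ih, xd_C_mul]

theorem xds_sum {κ : Type*} (s : Finset κ) (J : List (Fin d)) (f : κ → MvPolynomial (Fin d) ℝ) :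
    xds c J (∑ i ∈ s, f i) = ∑ i ∈ s, xds c J (f i) := by
  induction J with
  | nil => rfl
  | cons b J ih => simp only [xds]; rw [ih, xd_sum]

theorem xds_perm {J J' : List (Fin d)} (h : J.Perm J') (p : MvPolynomial (Fin d) ℝ) :
    xds c J p = xds c J' p := by
  induction h with
  | nil => rfl
  | cons a _ ih => simp only [xds]; rw [ih]
  | swap a b J => simp only [xds]; rw [xd_comm]
  | trans _ _ ih1 ih2 => rw [ih1, ih2]

theorem xd_one (a : Fin d) (p : MvPolynomial (Fin d) ℝ) :
    xd (fun a b => if a = b then 1 else 0) a p = pderiv a p := by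
  unfold xd
  rw [Finset.sum_eq_single a]
  · simp
  · intro b _ hb
    simp [Ne.symm hb]
  · simp

theorem xds_one (I : List (Fin d)) (p : MvPolynomial (Fin d) ℝ) :
    xds (fun a b => if a = b then 1 else 0) I p = mpds I p := by
  induction I with
  | nil => rfl
  | cons a I ih => simp only [xds, mpds]; rw [ih, xd_one]

theorem totalDegree_xd_le (a : Fin d) (p : MvPolynomial (Fin d) ℝ) :
    (xd c a p).totalDegree ≤ p.totalDegree := by
  unfold xd
  refine (totalDegree_finsetSum _ _).trans (Finset.sup_le fun b _ => ?_)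
  refine (totalDegree_mul _ _).trans ?_
  rw [totalDegree_C, zero_add]
  exact totalDegree_pderiv_le b p

theorem totalDegree_xds_le (J : List (Fin d)) (p : MvPolynomial (Fin d) ℝ) :
    (xds c J p).totalDegree ≤ p.totalDegree := by
  induction J with
  | nil => exact le_rfl
  | cons a J ih => exact (totalDegree_xd_le c a _).trans ih

/-- Comparison of iterated vector fields for two systems of fields. -/
theorem xds_compare (c' t : Fin d → Fin d → ℝ) (ht : ∀ a b, |t a b| ≤ 1)
    (hc : ∀ a b, c' a b = ∑ e, t a e * c e b) (x : Fin d → ℝ) :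
    ∀ (I : List (Fin d)) (q : MvPolynomial (Fin d) ℝ) (δ : ℝ),
      (∀ J : List (Fin d), J.length = I.length → |eval x (xds c J q)| ≤ δ) →
      |eval x (xds c' I q)| ≤ (d : ℝ) ^ I.length * δ := by
  intro I
  induction I with
  | nil =>
    intro q δ h
    simpa [xds] using h [] rfl
  | cons a I ih =>
    intro q δ h
    have hxd : ∀ p, xd c' a p = ∑ e, C (t a e) * xd c e p := by
      intro p
      simp only [xd, hc, map_sum, Finset.sum_mul, Finset.mul_sum]
      rw [Finset.sum_comm]
      exact Finset.sum_congr rfl fun e _ => Finset.sum_congr rfl fun b _ => by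
        rw [map_mul]; ring
    have h1 : xds c' (a :: I) q = ∑ e, C (t a e) * xds c' I (xd c e q) := by
      simp only [xds]
      rw [hxd]
      exact Finset.sum_congr rfl fun e _ => by rw [xds_xd]
    rw [h1, map_sum]
    have h2 : ∀ e ∈ Finset.univ, |eval x (C (t a e) * xds c' I (xd c e q))| ≤
        (d : ℝ) ^ I.length * δ := by
      intro e _
      rw [map_mul, eval_C, abs_mul]
      have h3 := ih (xd c e q) δ (fun J hJ => by
        have := h (e :: J) (by simp [hJ])
        rw [xds_xd]; exact this)
      calc |t a e| * |eval x (xds c' I (xd c e q))| ≤ 1 * |eval x (xds c' I (xd c e q))| := by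
            gcongr; exact ht a e
        _ ≤ _ := by rw [one_mul]; exact h3
    calc |∑ e, eval x (C (t a e) * xds c' I (xd c e q))|
        ≤ ∑ e, |eval x (C (t a e) * xds c' I (xd c e q))| := Finset.abs_sum_le_sum_abs _ _
      _ ≤ ∑ _e : Fin d, (d : ℝ) ^ I.length * δ := Finset.sum_le_sum h2
      _ = (d : ℝ) ^ (a :: I).length * δ := by
          rw [Finset.sum_const, Finset.card_univ, Fintype.card_fin, nsmul_eq_mul,
            List.length_cons, pow_succ]
          ring

end Pool.Agent.Lib.MP_a37012_nt
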