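import Pool.Agent.Lib.MP_a37012_nt.Minor
import Pool.Agent.Lib.MP_a37012_nt.Fields

set_option autoImplicit false

open MvPolynomial

namespace Pool.Agent.Lib.MP_a37012_nt

/-- Index type: one value coordinate, `d` gradient coordinates, `m` coefficient coordinates. -/
abbrev Idx (d m : ℕ) : Type := Option (Fin d ⊕ Fin m)

/-- Class of an index. -/
def cls {d m : ℕ} : Idx d m → ℕ
  | none => 0
  | some (Sum.inl _) => 1
  | some (Sum.inr _) => 2

/-- The diagonal weights. -/
noncomputable def wt {d m : ℕ} (Q K T : ℝ) : Idx d m → ℝ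
  | none => Q
  | some (Sum.inl _) => K⁻¹
  | some (Sum.inr _) => T⁻¹

/-- The unipotent polynomial matrix of values and gradients. -/
noncomputable def UM {d m : ℕ} (P : Fin m → MvPolynomial (Fin d) ℝ) :
    Matrix (Idx d m) (Idx d m) (MvPolynomial (Fin d) ℝ)
  | none, none => 1
  | none, some (Sum.inl a) => X a
  | none, some (Sum.inr j) => P j
  | some (Sum.inl _), none => 0
  | some (Sum.inl i), some (Sum.inl a) => if i = a then 1 else 0
  | some (Sum.inl i), some (Sum.inr j) => pderiv i (P j)
  | some (Sum.inr _), none => 0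
  | some (Sum.inr _), some (Sum.inl _) => 0
  | some (Sum.inr i), some (Sum.inr j) => if i = j then 1 else 0

/-- The weighted polynomial matrix. -/
noncomputable def HM {d m : ℕ} (P : Fin m → MvPolynomial (Fin d) ℝ) (Q K T : ℝ) :
    Matrix (Idx d m) (Idx d m) (MvPolynomial (Fin d) ℝ) :=
  Matrix.of fun a b => C (wt Q K T a) * UM P a b

/-- The polynomial attached to a coefficient vector. -/
noncomputable def gp {d m : ℕ} (P : Fin m → MvPolynomial (Fin d) ℝ) (β : Idx d m → ℝ) :
    MvPolynomial (Fin d) ℝ :=
  C (β none) + (∑ a, C (β (some (Sum.inl a))) * X a) + ∑ j, C (β (some (Sum.inr j))) * P j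

theorem normalize {d m r : ℕ} (B : Matrix (Idx d m) (Fin r) ℤ)
    (h : LinearIndependent ℤ (fun t : Fin r => fun a => B a t)) :
    ∃ (e : Fin r → Idx d m) (B' : Matrix (Idx d m) (Fin r) ℝ) (δ : ℝ), 1 ≤ |δ| ∧
      (∀ (U : Matrix (Idx d m) (Idx d m) ℝ) (e' : Fin r → Idx d m),
        ((U * toR B).submatrix e' id).det = ((U * B').submatrix e' id).det * δ) ∧
      (∀ s t, B' (e s) t = if s = t then 1 else 0) ∧
      (∀ t ρ, cls (e t) < cls ρ → B' ρ t = 0) ∧
      (∀ t ρ, cls (e t) = cls ρ → |B' ρ t| ≤ 1) := by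
  classical
  obtain ⟨e₀, he₀⟩ := exists_minor_ne_zero B h
  set S₀ : Finset (Fin r → Idx d m) := Finset.univ.filter fun e => (B.submatrix e id).det ≠ 0
  have hS₀ : S₀.Nonempty := ⟨e₀, by simp [S₀, he₀]⟩
  obtain ⟨e₁, he₁S, he₁⟩ := Finset.exists_max_image S₀ (fun e => ∑ s, cls (e s)) hS₀
  set S₁ : Finset (Fin r → Idx d m) := S₀.filter fun e => ∑ s, cls (e s) = ∑ s, cls (e₁ s)
  have hS₁ : S₁.Nonempty := ⟨e₁, by simp [S₁, he₁S]⟩
  obtain ⟨e, heS, he⟩ := Finset.exists_max_image S₁ (fun e => (B.submatrix e id).det.natAbs) hS₁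
  have heS₁ := Finset.mem_filter.mp heS
  have heS₀ := Finset.mem_filter.mp heS₁.1
  set A : Matrix (Fin r) (Fin r) ℝ := (toR B).submatrix e id with hA
  have hdetZ : ∀ e' : Fin r → Idx d m, ((toR B).submatrix e' id).det =
      ((B.submatrix e' id).det : ℝ) := by
    intro e'
    have h2 : (toR B).submatrix e' id = (Int.castRingHom ℝ).mapMatrix (B.submatrix e' id) := rfl
    rw [h2, ← RingHom.map_det]; rfl
  have hAdet : A.det = ((B.submatrix e id).det : ℝ) := hdetZ e
  have hA0 : A.det ≠ 0 := by rw [hAdet]; exact_mod_cast heS₀.2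
  set B' : Matrix (Idx d m) (Fin r) ℝ := toR B * A⁻¹ with hB'
  have hB'A : B' * A = toR B := by
    rw [hB', Matrix.mul_assoc, Matrix.nonsing_inv_mul A (isUnit_iff_ne_zero.mpr hA0),
      Matrix.mul_one]
  -- Cramer's rule
  have hcr : ∀ ρ t, B' ρ t * A.det = ((toR B).submatrix (Function.update e t ρ) id).det := by
    intro ρ t
    have h1 : (toR B).submatrix (Function.update e t ρ) id = A.updateRow t (toR B ρ) := by
      ext s s'
      by_cases hs : s = t
      · subst hs; simp [Matrix.submatrix]
      · simp [Matrix.submatrix, hs, hA]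
    have h2 : toR B ρ = ∑ s, B' ρ s • A s := by
      funext t'
      have := congrFun (congrFun hB'A ρ) t'
      rw [← this, Matrix.mul_apply, Finset.sum_apply]
      rfl
    rw [h1, h2, Matrix.det_updateRow_sum, smul_eq_mul]
  have hsum : ∀ t ρ, ∑ s, cls (Function.update e t ρ s) + cls (e t) = ∑ s, cls (e s) + cls ρ := by
    intro t ρ
    have h1 := Finset.add_sum_erase Finset.univ (fun s => cls (Function.update e t ρ s))
      (Finset.mem_univ t)
    have h2 := Finset.add_sum_erase Finset.univ (fun s => cls (e s)) (Finset.mem_univ t)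
    have h3 : ∑ s ∈ Finset.univ.erase t, cls (Function.update e t ρ s) =
        ∑ s ∈ Finset.univ.erase t, cls (e s) := by
      refine Finset.sum_congr rfl fun s hs => ?_
      rw [Function.update_of_ne (Finset.ne_of_mem_erase hs)]
    simp only [Function.update_self] at h1
    omega
  refine ⟨e, B', A.det, ?_, ?_, ?_, ?_, ?_⟩
  · rw [hAdet]
    have := Int.one_le_abs heS₀.2
    exact_mod_cast this
  · intro U e'
    rw [← Matrix.det_mul]
    congr 1
    have : U * toR B = (U * B') * A := by rw [Matrix.mul_assoc, hB'A]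
    rw [this]
    rfl
  · intro s t
    have h1 : B'.submatrix e id * A = A := by
      have h0 : B'.submatrix e id * A = (B' * A).submatrix e id := rfl
      rw [h0, hB'A]
    have h2 : B'.submatrix e id = 1 := by
      have := congrArg (fun X => X * A⁻¹) h1
      simp only [Matrix.mul_assoc, Matrix.mul_nonsing_inv A (isUnit_iff_ne_zero.mpr hA0),
        Matrix.mul_one] at this
      exact this
    have := congrFun (congrFun h2 s) t
    simpa [Matrix.one_apply] using this
  · intro t ρ hlt
    by_contra hne
    have hd : (B.submatrix (Function.update e t ρ) id).det ≠ 0 := by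
      intro h0
      have := hcr ρ t
      rw [hdetZ (Function.update e t ρ), h0, Int.cast_zero] at this
      rcases mul_eq_zero.mp this with h | h
      · exact hne h
      · exact hA0 h
    have h1 := he₁ (Function.update e t ρ) (by simp [S₀, hd])
    have h2 := hsum t ρ
    have h3 := heS₁.2
    omega
  · intro t ρ heq
    by_cases hd : (B.submatrix (Function.update e t ρ) id).det = 0
    · have := hcr ρ t
      rw [hdetZ (Function.update e t ρ), hd, Int.cast_zero] at this
      rcases mul_eq_zero.mp this with h | h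
      · rw [h]; simp
      · exact absurd h hA0
    · have h2 := hsum t ρ
      have h3 := heS₁.2
      have h1 := he (Function.update e t ρ) (by
        simp only [S₁, S₀, Finset.mem_filter, Finset.mem_univ, true_and]
        exact ⟨hd, by omega⟩)
      have h4 := hcr ρ t
      rw [hdetZ (Function.update e t ρ), hAdet] at h4
      have h5 : |((B.submatrix (Function.update e t ρ) id).det : ℝ)| ≤
          |((B.submatrix e id).det : ℝ)| := by
        rw [← Int.cast_abs, ← Int.cast_abs, Int.abs_eq_natAbs, Int.abs_eq_natAbs]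
        exact_mod_cast h1
      rw [← h4, abs_mul] at h5
      have h6 : 0 < |((B.submatrix e id).det : ℝ)| := by
        rw [abs_pos, ← hAdet]; exact hA0
      nlinarith [abs_nonneg (B' ρ t)]

section rows

variable {d m r : ℕ} (P : Fin m → MvPolynomial (Fin d) ℝ) (B' : Matrix (Idx d m) (Fin r) ℝ)
  (x : Fin d → ℝ)

theorem UM_none (t : Fin r) :
    (evalM (UM P) x * B') none t = eval x (gp P fun ρ => B' ρ t) := by
  rw [Matrix.mul_apply, Fintype.sum_option, Fintype.sum_sum_type, gp, map_add, map_add, map_sum,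
    map_sum, eval_C, ← add_assoc]
  congr 1
  · congr 1
    · simp [evalM, UM]
    · refine Finset.sum_congr rfl fun a _ => ?_
      simp [evalM, UM, mul_comm]
  · refine Finset.sum_congr rfl fun a _ => ?_
    simp [evalM, UM, mul_comm]

theorem pderiv_gp (a : Fin d) (β : Idx d m → ℝ) :
    pderiv a (gp P β) = C (β (some (Sum.inl a))) + ∑ j, C (β (some (Sum.inr j))) * pderiv a (P j) := by
  unfold gp
  rw [map_add, map_add, pderiv_C, zero_add, map_sum, map_sum]
  congr 1
  · rw [Finset.sum_eq_single a]
    · rw [pderiv_C_mul, pderiv_X_self, mul_one]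
    · intro b _ hb
      rw [pderiv_C_mul, pderiv_X_of_ne hb, mul_zero]
    · simp
  · exact Finset.sum_congr rfl fun j _ => pderiv_C_mul

theorem UM_inl (a : Fin d) (t : Fin r) :
    (evalM (UM P) x * B') (some (Sum.inl a)) t =
      eval x (pderiv a (gp P fun ρ => B' ρ t)) := by
  rw [Matrix.mul_apply, Fintype.sum_option, Fintype.sum_sum_type, pderiv_gp, map_add, map_sum,
    eval_C]
  have h0 : evalM (UM P) x (some (Sum.inl a)) none = 0 := by simp [evalM, UM]
  rw [h0, zero_mul, zero_add]
  congr 1
  · rw [Finset.sum_eq_single a]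
    · simp [evalM, UM]
    · intro b _ hb
      simp [evalM, UM, Ne.symm hb]
    · simp
  · refine Finset.sum_congr rfl fun j _ => ?_
    simp [evalM, UM, mul_comm]

theorem UM_inr (i : Fin m) (t : Fin r) :
    (evalM (UM P) x * B') (some (Sum.inr i)) t = B' (some (Sum.inr i)) t := by
  rw [Matrix.mul_apply, Fintype.sum_option, Fintype.sum_sum_type]
  have h0 : evalM (UM P) x (some (Sum.inr i)) none = 0 := by simp [evalM, UM]
  have h1 : ∀ a, evalM (UM P) x (some (Sum.inr i)) (some (Sum.inl a)) = 0 := by
    intro a; simp [evalM, UM]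
  rw [h0, zero_mul, zero_add, Finset.sum_eq_zero fun a _ => by rw [h1, zero_mul], zero_add,
    Finset.sum_eq_single i]
  · simp [evalM, UM]
  · intro b _ hb
    simp [evalM, UM, Ne.symm hb]
  · simp

end rows

end Pool.Agent.Lib.MP_a37012_nt
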