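import Pool.Agent.Lib.MP_a37012_nt.Count
import Pool.Agent.Lib.MP_a37012_nt.Mg.G002

/-!
# Counting rational points near a graph from the geometry of numbers of the good points
-/

set_option autoImplicit false

open MeasureTheory MvPolynomial

namespace Pool.Agent.Lib.MP_a37012_nt

/-- Double counting: if many points are covered at least `c` times by balls of equal radius then
there are many balls. -/
theorem c3_double {d : ℕ} {σ : Type} (S : Finset σ) (f : σ → Fin d → ℝ) (r v c : ℝ) (hr : 0 ≤ r)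
    (hv : 0 ≤ v) (hc : 0 ≤ c) (Cb Bad : Set (Fin d → ℝ)) (hCb : volume Cb = ENNReal.ofReal v)
    (hBad : volume {x | x ∈ Cb ∧ x ∈ Bad} ≤ ENNReal.ofReal (1 / 2) * volume Cb)
    (hcov : ∀ x ∈ Cb, x ∉ Bad → ∃ S' : Finset σ, S' ⊆ S ∧ c ≤ S'.card ∧
      ∀ s ∈ S', x ∈ Metric.closedBall (f s) r) :
    c * (v / 2) ≤ S.card * (2 * r) ^ d := by
  classical
  set g : (Fin d → ℝ) → ENNReal := fun x =>
    ∑ s ∈ S, (Metric.closedBall (f s) r).indicator (fun _ => (1 : ENNReal)) x with hg
  have hgm : Measurable g :=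
    Finset.measurable_sum _ fun s _ => measurable_const.indicator Metric.isClosed_closedBall.measurableSet
  have hint : ∫⁻ x, g x = ENNReal.ofReal (S.card * (2 * r) ^ d) := by
    rw [hg, lintegral_finsetSum _ fun s _ =>
      measurable_const.indicator Metric.isClosed_closedBall.measurableSet]
    have h1 : ∀ s ∈ S, ∫⁻ x, (Metric.closedBall (f s) r).indicator (fun _ => (1 : ENNReal)) x =
        ENNReal.ofReal ((2 * r) ^ d) := by
      intro s _
      rw [lintegral_indicator Metric.isClosed_closedBall.measurableSet, setLIntegral_const, one_mul,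
        Real.volume_pi_closedBall (f s) hr, Fintype.card_fin]
    rw [Finset.sum_congr rfl h1, Finset.sum_const, nsmul_eq_mul,
      ENNReal.ofReal_mul (Nat.cast_nonneg _), ENNReal.ofReal_natCast]
  have hmarkov := mul_meas_ge_le_lintegral₀ (μ := volume) hgm.aemeasurable (ENNReal.ofReal c)
  rw [hint] at hmarkov
  have hsub : Cb ⊆ {x | x ∈ Cb ∧ x ∈ Bad} ∪ {x | ENNReal.ofReal c ≤ g x} := by
    intro x hx
    by_cases hb : x ∈ Bad
    · exact Or.inl ⟨hx, hb⟩
    · right
      obtain ⟨S', hS', hcard, hmem⟩ := hcov x hx hb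
      show ENNReal.ofReal c ≤ g x
      calc ENNReal.ofReal c ≤ ENNReal.ofReal (S'.card : ℝ) := ENNReal.ofReal_le_ofReal hcard
        _ = ∑ s ∈ S', (1 : ENNReal) := by
            rw [Finset.sum_const, nsmul_eq_mul, mul_one, ENNReal.ofReal_natCast]
        _ = ∑ s ∈ S', (Metric.closedBall (f s) r).indicator (fun _ => (1 : ENNReal)) x :=
            Finset.sum_congr rfl fun s hs => by rw [Set.indicator_of_mem (hmem s hs)]
        _ ≤ g x := Finset.sum_le_sum_of_subset hS'
  have h2 : volume Cb ≤ ENNReal.ofReal (1 / 2) * volume Cb + volume {x | ENNReal.ofReal c ≤ g x} :=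
    (measure_mono hsub).trans ((measure_union_le _ _).trans (by gcongr))
  have h3 : ENNReal.ofReal (v / 2) ≤ volume {x | ENNReal.ofReal c ≤ g x} := by
    rw [hCb, ← ENNReal.ofReal_mul (by norm_num)] at h2
    have e : ENNReal.ofReal v = ENNReal.ofReal (1 / 2 * v) + ENNReal.ofReal (v / 2) := by
      rw [← ENNReal.ofReal_add (by positivity) (by positivity)]
      congr 1
      ring
    rw [e] at h2
    exact (ENNReal.add_le_add_iff_left ENNReal.ofReal_ne_top).mp h2
  have h4 : ENNReal.ofReal (c * (v / 2)) ≤ ENNReal.ofReal (S.card * (2 * r) ^ d) := by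
    rw [ENNReal.ofReal_mul hc]
    exact le_trans (by gcongr) hmarkov
  rwa [ENNReal.ofReal_le_ofReal_iff (by positivity)] at h4

/-- Coordinates of an integer point in terms of its image under the dual matrix. -/
theorem c3_coords {d m : ℕ} (F : Fin m → (Fin d → ℝ) → ℝ) (Q K T : ℝ) (hQ : 0 < Q) (hK : 0 < K)
    (hT : 0 < T) (x : Fin d → ℝ) (X : Idx d m → ℝ)
    (hhalf : 1 / 2 ≤ (((HF F Q K T x)⁻¹).transpose).mulVec X none)
    (hle : ∀ i, |(((HF F Q K T x)⁻¹).transpose).mulVec X i| ≤ 1) :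
    Q / 2 ≤ X none ∧ X none ≤ Q ∧ (∀ i, |X (some (Sum.inl i)) - X none * x i| ≤ K⁻¹) ∧
      ∀ j, |X (some (Sum.inr j)) - X none * F j x -
        ∑ i, pd i (F j) x * (X (some (Sum.inl i)) - X none * x i)| ≤ T⁻¹ := by
  classical
  have hdet : (HF F Q K T x).det = Q * (K⁻¹) ^ d * (T⁻¹) ^ m := det_HF F Q K T x
  set H := HF F Q K T x with hH
  have hdet0 : H.det ≠ 0 := by rw [hdet]; positivity
  have hunit : IsUnit H.det := isUnit_iff_ne_zero.mpr hdet0
  set G : Matrix (Idx d m) (Idx d m) ℝ := (H⁻¹).transpose with hG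
  set Y : Idx d m → ℝ := G.mulVec X with hY
  have hXY : ∀ j, X j = ∑ i, Y i * H i j := by
    intro j
    have h1 : H.transpose.mulVec Y = X := by
      rw [hY, Matrix.mulVec_mulVec, hG, ← Matrix.transpose_mul, Matrix.nonsing_inv_mul H hunit,
        Matrix.transpose_one, Matrix.one_mulVec]
    have h2 := congrFun h1 j
    simp only [Matrix.mulVec, dotProduct, Matrix.transpose_apply] at h2
    rw [← h2]
    exact Finset.sum_congr rfl fun i _ => mul_comm _ _
  have hY0 : X none = Y none * Q := by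
    rw [hXY none, Fintype.sum_option, Fintype.sum_sum_type]
    simp [hH, HF, UF, wt]
  have hYa : ∀ a, X (some (Sum.inl a)) = X none * x a + Y (some (Sum.inl a)) * K⁻¹ := by
    intro a
    rw [hXY (some (Sum.inl a)), Fintype.sum_option, Fintype.sum_sum_type, hY0]
    have h1 : ∑ i, Y (some (Sum.inl i)) * H (some (Sum.inl i)) (some (Sum.inl a)) =
        Y (some (Sum.inl a)) * K⁻¹ := by
      rw [Finset.sum_eq_single a]
      · simp [hH, HF, UF, wt]
      · intro i _ hi
        simp [hH, HF, UF, hi]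
      · simp
    rw [h1]
    simp [hH, HF, UF, wt]
    ring
  have hYj : ∀ j, X (some (Sum.inr j)) = X none * F j x +
      (∑ i, Y (some (Sum.inl i)) * (K⁻¹ * pd i (F j) x)) + Y (some (Sum.inr j)) * T⁻¹ := by
    intro j
    rw [hXY (some (Sum.inr j)), Fintype.sum_option, Fintype.sum_sum_type, hY0]
    have h1 : ∑ i, Y (some (Sum.inr i)) * H (some (Sum.inr i)) (some (Sum.inr j)) =
        Y (some (Sum.inr j)) * T⁻¹ := by
      rw [Finset.sum_eq_single j]
      · simp [hH, HF, UF, wt]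
      · intro i _ hi
        simp [hH, HF, UF, hi]
      · simp
    rw [h1]
    have h2 : ∑ i, Y (some (Sum.inl i)) * H (some (Sum.inl i)) (some (Sum.inr j)) =
        ∑ i, Y (some (Sum.inl i)) * (K⁻¹ * pd i (F j) x) := by
      refine Finset.sum_congr rfl fun i _ => ?_
      simp [hH, HF, UF, wt]
    rw [h2]
    simp [hH, HF, UF, wt]
    ring
  refine ⟨?_, ?_, ?_, ?_⟩
  · rw [hY0]
    nlinarith
  · rw [hY0]
    have := (abs_le.mp (hle none)).2
    nlinarith
  · intro i
    have h1 := hle (some (Sum.inl i))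
    rw [hYa i]
    have h2 : X none * x i + Y (some (Sum.inl i)) * K⁻¹ - X none * x i =
        Y (some (Sum.inl i)) * K⁻¹ := by ring
    rw [h2, abs_mul, abs_of_pos (inv_pos.mpr hK)]
    calc |Y (some (Sum.inl i))| * K⁻¹ ≤ 1 * K⁻¹ := by gcongr
      _ = K⁻¹ := one_mul _
  · intro j
    have h1 := hle (some (Sum.inr j))
    have h2 : X (some (Sum.inr j)) - X none * F j x -
        ∑ i, pd i (F j) x * (X (some (Sum.inl i)) - X none * x i) =
        Y (some (Sum.inr j)) * T⁻¹ := by
      rw [hYj j]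
      have h3 : ∑ i, pd i (F j) x * (X (some (Sum.inl i)) - X none * x i) =
          ∑ i, Y (some (Sum.inl i)) * (K⁻¹ * pd i (F j) x) := by
        refine Finset.sum_congr rfl fun i _ => ?_
        rw [hYa i]; ring
      rw [h3]; ring
    rw [h2, abs_mul, abs_of_pos (inv_pos.mpr hT)]
    calc |Y (some (Sum.inr j))| * T⁻¹ ≤ 1 * T⁻¹ := by gcongr
      _ = T⁻¹ := one_mul _

/-- Many integer points in the box attached to a good point. -/
theorem c3_points {d m : ℕ} (F : Fin m → (Fin d → ℝ) → ℝ) (C : ℝ) (hC : 0 < C)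
    (hcovering : ∀ A : Matrix (Idx d m) (Idx d m) ℝ, A.det ≠ 0 →
      (∀ c : Idx d m → ℤ, c ≠ 0 → ∃ i, C ≤ |A.mulVec (fun b => (c b : ℝ)) i|) →
      ∀ y : Idx d m → ℝ, ∃ v : Idx d m → ℤ, ∀ i,
        |((A⁻¹).transpose).mulVec (fun b => y b - v b) i| ≤ 1 / 8)
    (ε : ℝ) (hε : 0 < ε) (Q R ψ N T : ℝ) (hQ : 0 < Q) (hR : 0 < R) (hψ : 0 < ψ) (hN : 0 < N)
    (hT : 0 < T) (h1 : C / ε * (N ^ 2 / T) ≤ Q) (h2 : C / ε * (N / T) ≤ R)
    (h3 : C / ε * (1 / T) ≤ ψ / 2) (x : Fin d → ℝ)
    (hgood : ¬ ∃ c : Idx d m → ℤ, c ≠ 0 ∧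
      ∀ a, |(HF F (N ^ 2 / T) (T / N) T x).mulVec (fun b => (c b : ℝ)) a| < ε) :
    ∃ S : Finset (Idx d m → ℤ), (∀ v ∈ S, Q / 2 ≤ (v none : ℝ) ∧ (v none : ℝ) ≤ Q ∧
      (∀ i, |(v (some (Sum.inl i)) : ℝ) - v none * x i| ≤ R) ∧
      ∀ j, |(v (some (Sum.inr j)) : ℝ) - v none * F j x -
        ∑ i, pd i (F j) x * ((v (some (Sum.inl i)) : ℝ) - v none * x i)| ≤ ψ / 2) ∧
      Q * R ^ d * (ψ / 2) ^ m / 4 ≤ S.card := by
  classical
  set D := HF F Q R⁻¹ (ψ / 2)⁻¹ x with hD
  have hdet : D.det = Q * R ^ d * (ψ / 2) ^ m := by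
    rw [hD, det_HF, inv_inv, inv_inv]
  have hdet0 : 0 < D.det := by rw [hdet]; positivity
  have hnovec : ∀ c : Idx d m → ℤ, c ≠ 0 → ∃ i, C ≤ |D.mulVec (fun b => (c b : ℝ)) i| := by
    intro c hc
    by_contra hcon
    push Not at hcon
    refine hgood ⟨c, hc, fun a => ?_⟩
    -- weights
    have hw : ∃ w : ℝ, 0 < w ∧ w ≤ ε / C ∧ wt (N ^ 2 / T) (T / N) T a =
        w * wt Q R⁻¹ (ψ / 2)⁻¹ a := by
      rcases a with _ | (i | i)
      · refine ⟨N ^ 2 / T / Q, by positivity, ?_, ?_⟩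
        · rw [div_le_iff₀ hQ]
          have : ε / C * (C / ε * (N ^ 2 / T)) ≤ ε / C * Q := by gcongr
          refine le_trans (le_of_eq ?_) this
          field_simp
        · simp only [wt]; field_simp
      · refine ⟨N / T / R, by positivity, ?_, ?_⟩
        · rw [div_le_iff₀ hR]
          have : ε / C * (C / ε * (N / T)) ≤ ε / C * R := by gcongr
          refine le_trans (le_of_eq ?_) this
          field_simp
        · simp only [wt]; field_simp
      · refine ⟨1 / T / (ψ / 2), by positivity, ?_, ?_⟩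
        · rw [div_le_iff₀ (by positivity)]
          have : ε / C * (C / ε * (1 / T)) ≤ ε / C * (ψ / 2) := by gcongr
          refine le_trans (le_of_eq ?_) this
          field_simp
        · simp only [wt]; field_simp
    obtain ⟨w, hw0, hw1, hw2⟩ := hw
    rw [HF_mulVec_scale F Q R⁻¹ (ψ / 2)⁻¹ _ _ _ x _ a w hw2, abs_mul, abs_of_pos hw0]
    have h4 := hcon a
    calc w * |D.mulVec (fun b => (c b : ℝ)) a| < w * C := by
          apply mul_lt_mul_of_pos_left h4 hw0
      _ ≤ ε / C * C := by gcongr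
      _ = ε := by field_simp
  have hcov := hcovering D hdet0.ne' hnovec
  have hGdet : ((D⁻¹).transpose).det = (D.det)⁻¹ := by
    rw [Matrix.det_transpose, Matrix.det_nonsing_inv, Ring.inverse_eq_inv']
  obtain ⟨S, hS, hcard⟩ := count_box (Idx d m) none ((D⁻¹).transpose)
    (by rw [hGdet]; exact inv_ne_zero hdet0.ne') hcov
  refine ⟨S, fun v hv => ?_, ?_⟩
  · obtain ⟨h5, h6⟩ := hS v hv
    have := c3_coords F Q R⁻¹ (ψ / 2)⁻¹ hQ (inv_pos.mpr hR) (by positivity) x
      (fun b => (v b : ℝ)) h5 h6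
    simpa only [inv_inv] using this
  · refine le_trans (le_of_eq ?_) hcard
    rw [hGdet, abs_inv, abs_of_pos hdet0, hdet]
    field_simp

theorem count_of_good (d m : ℕ) (hd : 1 ≤ d) (hm : 1 ≤ m) (V : Set (Fin d → ℝ)) (hV : IsOpen V)
    (F : Fin m → (Fin d → ℝ) → ℝ) (hF : ∀ i, ContDiffOn ℝ (2 : ℕ) (F i) V) (j₀ : ℕ)
    (k₀ : Fin d → ℤ) (hcube : closure (cube j₀ k₀) ⊆ V) (hgood : ParGood F j₀ k₀) :
    ∃ C₁ C₂ Q₀ : ℝ, 0 < C₁ ∧ 0 < C₂ ∧ ∀ Q ψ : ℝ, Q₀ ≤ Q → 0 < ψ → ψ < 1 → C₂ ^ m < ψ ^ m * Q →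
      ∃ S : Finset ((Fin d → ℤ) × (Fin m → ℤ) × ℕ),
        (∀ s ∈ S, 1 ≤ s.2.2 ∧ (s.2.2 : ℝ) ≤ Q ∧ (fun a => (s.1 a : ℝ) / s.2.2) ∈ V ∧
          ∀ i, |F i (fun a => (s.1 a : ℝ) / s.2.2) - (s.2.1 i : ℝ) / s.2.2| ≤ ψ / s.2.2) ∧
        C₁ * ψ ^ m * Q ^ (d + 1) ≤ S.card := by
  classical
  obtain ⟨ε, N₀, hε, hgood⟩ := hgood
  obtain ⟨C, hC, hcovering⟩ := covering (Idx d m) (1 / 8) (by norm_num)
  -- the thickened cube
  obtain ⟨δ, hδ, hδV⟩ := (cube_compact j₀ k₀).exists_cthickening_subset_open hV hcube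
  set K₁ := Metric.cthickening δ (closure (cube j₀ k₀)) with hK₁
  have hK₁c : IsCompact K₁ := (cube_compact j₀ k₀).cthickening
  have hK₁v : Convex ℝ K₁ := (cube_convex j₀ k₀).closure.cthickening δ
  have hsec := fun i => cnt_second V hV K₁ hK₁c hK₁v hδV (F i) (hF i)
  choose Mi hMi1 hMi2 hMi3 using hsec
  set M : ℝ := ∑ i, Mi i with hMdef
  have hMle : ∀ i, Mi i ≤ M := fun i =>
    Finset.single_le_sum (f := Mi) (fun j _ => by linarith [hMi1 j]) (Finset.mem_univ i)
  have hM1 : 1 ≤ M := (hMi1 ⟨0, hm⟩).trans (hMle _)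
  have hM0 : 0 < M := by linarith
  obtain ⟨B₀, hB₀⟩ := hK₁c.isBounded.exists_norm_le
  -- constants
  set κ : ℝ := 1 / (2 * M) with hκ
  have hκ0 : 0 < κ := by positivity
  set v : ℝ := (1 / 2 ^ j₀) ^ d with hv
  have hv0 : 0 < v := by positivity
  set C₂ : ℝ := 2 * C / ε * max 1 (C / (ε * κ)) with hC₂
  have hmax : 1 ≤ max 1 (C / (ε * κ)) := le_max_left _ _
  have hC₂0 : 0 < C₂ := by
    have : 0 < max 1 (C / (ε * κ)) := by linarith
    positivity
  refine ⟨v / (8 * 2 ^ m * 4 ^ d), C₂, max 1 (max (N₀ ^ 2 / (2 * κ)) (2 * κ / δ ^ 2)),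
    by positivity, hC₂0, ?_⟩
  intro Q ψ hQ₀ hψ0 hψ1 hC₂'
  have hQ1 : 1 ≤ Q := (le_max_left _ _).trans hQ₀
  have hQ0 : 0 < Q := by linarith
  have hQN : N₀ ^ 2 / (2 * κ) ≤ Q := ((le_max_left _ _).trans (le_max_right _ _)).trans hQ₀
  have hQδ : 2 * κ / δ ^ 2 ≤ Q := ((le_max_right _ _).trans (le_max_right _ _)).trans hQ₀
  rw [div_le_iff₀ (by positivity)] at hQN hQδ
  set T : ℝ := 2 * C / (ε * ψ) with hT
  have hT0 : 0 < T := by positivity
  set N : ℝ := Real.sqrt (2 * κ * Q / ψ) with hN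
  have hN2 : N ^ 2 = 2 * κ * Q / ψ := Real.sq_sqrt (by positivity)
  have hN0 : 0 < N := Real.sqrt_pos.mpr (by positivity)
  have hNN : N₀ ≤ N := by
    apply Real.le_sqrt_of_sq_le
    rw [le_div_iff₀ hψ0]
    have : N₀ ^ 2 * ψ ≤ N₀ ^ 2 * 1 := by gcongr
    linarith
  set R : ℝ := C / ε * (N / T) with hR
  have hR0 : 0 < R := by positivity
  have hR2 : R ^ 2 = κ * Q * ψ / 2 := by
    have : R ^ 2 = (C / ε / T) ^ 2 * N ^ 2 := by rw [hR]; ring
    rw [this, hN2, hT]
    field_simp
  have h1 : C / ε * (N ^ 2 / T) ≤ Q := by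
    rw [hN2, hT]
    have e : C / ε * (2 * κ * Q / ψ / (2 * C / (ε * ψ))) = κ * Q := by
      field_simp
    rw [e]
    have : κ ≤ 1 := by
      rw [hκ, div_le_one (by positivity)]
      linarith
    nlinarith
  have h3 : C / ε * (1 / T) ≤ ψ / 2 := by
    apply le_of_eq
    rw [hT]
    field_simp
  have hTN : T ^ (m + 1) ≤ N ^ 2 := by
    have h4 : T ^ m ≤ ε * κ / C * Q := by
      have h5 : (2 * C / ε) ^ m * (C / (ε * κ)) ≤ ψ ^ m * Q := by
        calc (2 * C / ε) ^ m * (C / (ε * κ)) ≤ (2 * C / ε) ^ m * (max 1 (C / (ε * κ))) ^ m := by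
              gcongr
              calc C / (ε * κ) ≤ max 1 (C / (ε * κ)) := le_max_right _ _
                _ ≤ (max 1 (C / (ε * κ))) ^ m := le_self_pow₀ hmax (by omega)
          _ = C₂ ^ m := by rw [hC₂, mul_pow]
          _ ≤ ψ ^ m * Q := hC₂'.le
      have h6 : T ^ m = (2 * C / ε) ^ m / ψ ^ m := by
        rw [hT, ← div_pow]
        congr 1
        field_simp
      rw [h6, div_le_iff₀ (by positivity)]
      calc (2 * C / ε) ^ m = (2 * C / ε) ^ m * (C / (ε * κ)) * (ε * κ / C) := by field_simp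
        _ ≤ ψ ^ m * Q * (ε * κ / C) := by gcongr
        _ = _ := by ring
    rw [pow_succ, hN2]
    calc T ^ m * T ≤ ε * κ / C * Q * T := by gcongr
      _ = 2 * κ * Q / ψ := by rw [hT]; field_simp
  have hbad := hgood N T hNN hT0 hTN
  -- the finite set
  have hfin := cnt_finite K₁ F (max B₀ M) Q ψ (fun y hy => (hB₀ y hy).trans (le_max_left _ _))
    (fun y hy j => ((hMi2 j y hy).trans (hMle j)).trans (le_max_right _ _))
    (hM0.le.trans (le_max_right _ _)) hψ1.le
  refine ⟨hfin.toFinset, ?_, ?_⟩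
  · intro s hs
    obtain ⟨h1, h2, h3, h4⟩ := (Set.Finite.mem_toFinset hfin).mp hs
    exact ⟨h1, h2, hδV h3, h4⟩
  set Bad : Set (Fin d → ℝ) := {x | ∃ c : Idx d m → ℤ, c ≠ 0 ∧
    ∀ a, |(HF F (N ^ 2 / T) (T / N) T x).mulVec (fun b => (c b : ℝ)) a| < ε} with hBad
  have hrδ : 2 * R / Q ≤ δ := by
    apply le_of_pow_le_pow_left₀ two_ne_zero hδ.le
    have : (2 * R / Q) ^ 2 = 4 * R ^ 2 / Q ^ 2 := by ring
    rw [this, hR2, div_le_iff₀ (by positivity)]
    have h5 : 4 * (κ * Q * ψ / 2) ≤ 2 * κ * Q := by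
      have : κ * Q * ψ ≤ κ * Q * 1 := by gcongr
      linarith
    refine h5.trans ?_
    calc 2 * κ * Q ≤ Q * δ ^ 2 * Q := by gcongr
      _ = _ := by ring
  have hcount := c3_double hfin.toFinset (fun s a => (s.1 a : ℝ) / s.2.2) (2 * R / Q) v
    (Q * R ^ d * (ψ / 2) ^ m / 4) (by positivity) hv0.le (by positivity) (cube j₀ k₀) Bad
    (by rw [km_volume_cube, hv, ENNReal.ofReal_pow (by positivity)]) hbad (by
      intro x hx hxb
      obtain ⟨S, hS, hcard⟩ := c3_points F C hC hcovering ε hε Q R ψ N T hQ0 hR0 hψ0 hN0 hT0 h1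
        le_rfl h3 x hxb
      have hxK₁ : x ∈ K₁ := Metric.self_subset_cthickening _ (subset_closure hx)
      -- the map from the integer points to the triples
      set φ : (Idx d m → ℤ) → (Fin d → ℤ) × (Fin m → ℤ) × ℕ := fun v =>
        (fun i => v (some (Sum.inl i)), fun j => v (some (Sum.inr j)), (v none).toNat) with hφ
      have hpos : ∀ v ∈ S, (0 : ℝ) < (v none : ℝ) := by
        intro v hv
        have := (hS v hv).1
        linarith
      have hinj : Set.InjOn φ (S : Set (Idx d m → ℤ)) := by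
        intro u hu w hw huw
        simp only [hφ, Prod.mk.injEq] at huw
        obtain ⟨e1, e2, e3⟩ := huw
        have p1 : 0 < u none := by exact_mod_cast hpos u hu
        have p2 : 0 < w none := by exact_mod_cast hpos w hw
        funext b
        rcases b with _ | (i | j)
        · omega
        · exact congrFun e1 i
        · exact congrFun e2 j
      have hkey : ∀ v ∈ S, φ v ∈ hfin.toFinset ∧
          x ∈ Metric.closedBall (fun a => ((φ v).1 a : ℝ) / (φ v).2.2) (2 * R / Q) := by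
        intro u hu
        obtain ⟨hq1, hq2, ha, hp⟩ := hS u hu
        have hq0 := hpos u hu
        have hqpos : 0 < u none := by exact_mod_cast hq0
        obtain ⟨q', hq'⟩ : ∃ q' : ℕ, u none = q' := ⟨(u none).toNat, by omega⟩
        have hcast : ((u none : ℤ) : ℝ) = (q' : ℝ) := by rw [hq']; norm_cast
        have htoNat : (u none).toNat = q' := by omega
        rw [hcast] at hq1 hq2 hq0
        simp only [hcast] at ha hp
        set a : Fin d → ℤ := fun i => u (some (Sum.inl i)) with hadef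
        set p : Fin m → ℤ := fun j => u (some (Sum.inr j)) with hpdef
        have hφu : φ u = (a, p, q') := by
          simp only [hφ, htoNat, hadef, hpdef]
        rw [hφu]
        set y : Fin d → ℝ := fun i => (a i : ℝ) / q' with hy
        have hyx' : ‖y - x‖ ≤ R / q' := by
          rw [pi_norm_le_iff_of_nonneg (by positivity)]
          intro i
          rw [Pi.sub_apply, Real.norm_eq_abs]
          have h1 : y i - x i = ((a i : ℝ) - q' * x i) / q' := by
            rw [hy]; field_simp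
          rw [h1, abs_div, abs_of_pos hq0]
          have := ha i
          gcongr
        have hyr : ‖y - x‖ ≤ 2 * R / Q := by
          refine hyx'.trans ?_
          rw [div_le_div_iff₀ hq0 hQ0]
          nlinarith
        have hyK₁ : y ∈ K₁ := by
          refine Metric.mem_cthickening_of_dist_le y x δ _ (subset_closure hx) ?_
          rw [dist_eq_norm]
          exact hyr.trans hrδ
        refine ⟨?_, ?_⟩
        · rw [Set.Finite.mem_toFinset]
          refine ⟨?_, hq2, hyK₁, ?_⟩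
          · have : 0 < q' := by exact_mod_cast hq0
            exact this
          · intro j
            have h1 := hMi3 j x hxK₁ y hyK₁
            have h2 := hp j
            have h3 : F j y - (p j : ℝ) / q' =
                (F j y - F j x - ∑ a, pd a (F j) x * (y a - x a)) -
                ((p j : ℝ) - q' * F j x - ∑ i, pd i (F j) x * ((a i : ℝ) - q' * x i)) / q' := by
              have h4 : ∑ a, pd a (F j) x * (y a - x a) =
                  (∑ i, pd i (F j) x * ((a i : ℝ) - q' * x i)) / q' := by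
                rw [Finset.sum_div]
                refine Finset.sum_congr rfl fun i _ => ?_
                rw [hy]; field_simp
              rw [h4]
              field_simp
              ring
            change |F j y - (p j : ℝ) / q'| ≤ ψ / q'
            rw [h3]
            have h5 : |((p j : ℝ) - q' * F j x - ∑ i, pd i (F j) x * ((a i : ℝ) - q' * x i)) / q'| ≤
                ψ / 2 / q' := by
              rw [abs_div, abs_of_pos hq0]
              gcongr
            have h6 : |F j y - F j x - ∑ a, pd a (F j) x * (y a - x a)| ≤ ψ / 2 / q' := by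
              refine h1.trans ?_
              have h7 : ‖y - x‖ ^ 2 ≤ (R / q') ^ 2 :=
                pow_le_pow_left₀ (norm_nonneg _) hyx' 2
              have h8 : Mi j * ‖y - x‖ ^ 2 ≤ M * (R / q') ^ 2 :=
                mul_le_mul (hMle j) h7 (by positivity) hM0.le
              refine h8.trans ?_
              rw [div_pow, hR2, hκ]
              have e : M * (1 / (2 * M) * Q * ψ / 2 / (q' : ℝ) ^ 2) = Q / 2 * (ψ / 2) / (q' : ℝ) ^ 2 := by
                field_simp
                try ring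
              rw [e, div_le_div_iff₀ (by positivity) hq0]
              have : Q / 2 * (ψ / 2) ≤ q' * (ψ / 2) := by gcongr
              calc Q / 2 * (ψ / 2) * q' ≤ q' * (ψ / 2) * q' := by gcongr
                _ = ψ / 2 * (q' : ℝ) ^ 2 := by ring
            have h11 := abs_sub (F j y - F j x - ∑ a, pd a (F j) x * (y a - x a))
              (((p j : ℝ) - q' * F j x - ∑ i, pd i (F j) x * ((a i : ℝ) - q' * x i)) / q')
            have h12 : ψ / q' = ψ / 2 / q' + ψ / 2 / q' := by ring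
            rw [h12]
            linarith
        · rw [Metric.mem_closedBall, dist_comm, dist_eq_norm]
          exact hyr
      refine ⟨S.image φ, ?_, ?_, ?_⟩
      · intro s hs
        obtain ⟨u, hu, rfl⟩ := Finset.mem_image.mp hs
        exact (hkey u hu).1
      · rw [Finset.card_image_of_injOn hinj]
        exact hcard
      · intro s hs
        obtain ⟨u, hu, rfl⟩ := Finset.mem_image.mp hs
        exact (hkey u hu).2)
  -- conclusion
  have hX : (0 : ℝ) < (2 * (2 * R / Q)) ^ d := by positivity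
  have e1 : v / (8 * 2 ^ m * 4 ^ d) * ψ ^ m * Q ^ (d + 1) * (2 * (2 * R / Q)) ^ d =
      Q * R ^ d * (ψ / 2) ^ m / 4 * (v / 2) := by
    rw [div_pow ψ 2 m, pow_succ]
    have : (2 * (2 * R / Q)) ^ d = 4 ^ d * R ^ d / Q ^ d := by
      rw [← mul_pow, ← div_pow]
      congr 1
      ring
    rw [this]
    field_simp
    ring
  have h9 : v / (8 * 2 ^ m * 4 ^ d) * ψ ^ m * Q ^ (d + 1) * (2 * (2 * R / Q)) ^ d ≤
      hfin.toFinset.card * (2 * (2 * R / Q)) ^ d := by
    rw [e1]; exact hcount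
  exact le_of_mul_le_mul_right h9 hX

end Pool.Agent.Lib.MP_a37012_nt
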