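import Mathlib

set_option autoImplicit false

open MeasureTheory MvPolynomial

namespace Pool.Agent.Lib.MP_a37012_nt

/-- The half-open dyadic cube of side `2^(-j)` with index `k`. -/
def cube {d : ℕ} (j : ℕ) (k : Fin d → ℤ) : Set (Fin d → ℝ) :=
  {x | ∀ i, (k i : ℝ) / 2 ^ j ≤ x i ∧ x i < ((k i : ℝ) + 1) / 2 ^ j}

/-- Evaluation of a matrix of polynomials at a point. -/
noncomputable def evalM {d : ℕ} {ι κ : Type} (H : Matrix ι κ (MvPolynomial (Fin d) ℝ))
    (x : Fin d → ℝ) : Matrix ι κ ℝ :=
  H.map (fun p => eval x p)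

/-- The real matrix of an integer matrix. -/
def toR {ι κ : Type} (B : Matrix ι κ ℤ) : Matrix ι κ ℝ := B.map (fun n => (n : ℝ))

/-- Partial derivative of a function in the coordinate direction `i`. -/
noncomputable def pd {d : ℕ} (i : Fin d) (h : (Fin d → ℝ) → ℝ) : (Fin d → ℝ) → ℝ :=
  fun x => fderiv ℝ h x (Pi.single i 1)

/-- Iterated partial derivatives of a function along a list of coordinate directions
(the head of the list is applied last). -/
noncomputable def pds {d : ℕ} : List (Fin d) → ((Fin d → ℝ) → ℝ) → ((Fin d → ℝ) → ℝ)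
  | [], h => h
  | i :: I, h => pd i (pds I h)

/-- Iterated formal partial derivatives of a polynomial along a list of coordinates. -/
noncomputable def mpds {d : ℕ} : List (Fin d) → MvPolynomial (Fin d) ℝ → MvPolynomial (Fin d) ℝ
  | [], p => p
  | i :: I, p => pderiv i (mpds I p)

end Pool.Agent.Lib.MP_a37012_nt
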