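import Pool.Agent.Lib.MP_a37012_nt.Mg.G001

set_option autoImplicit false

open MeasureTheory Module

namespace Pool.Agent.Lib.MP_a37012_nt

/-- Extension of an injection of coordinates to a splitting of all coordinates. -/
theorem fin_split {d m n : ℕ} (hn : n = d + m) (e : Fin d → Fin n) (he : Function.Injective e) :
    ∃ E : Fin d ⊕ Fin m ≃ Fin n, ∀ s, E (Sum.inl s) = e s := by
  classical
  have hcard : Fintype.card ((Set.range e)ᶜ : Set (Fin n)) = m := by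
    rw [Fintype.card_compl_set, Fintype.card_fin, Set.card_range_of_injective he, Fintype.card_fin]
    omega
  refine ⟨((Equiv.ofInjective e he).sumCongr (Fintype.equivFinOfCardEq hcard).symm).trans
    (Equiv.Set.sumCompl (Set.range e)), fun s => ?_⟩
  simp

/-- The non-affinity hypothesis of `generic_order` from nondegeneracy almost everywhere. -/
theorem fin_nonaffine {d m n l : ℕ} (hl : 2 ≤ l) (E : Fin d ⊕ Fin m ≃ Fin n)
    {U : Set (EuclideanSpace ℝ (Fin d))} {f : EuclideanSpace ℝ (Fin d) → EuclideanSpace ℝ (Fin n)}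
    (hU : IsOpen U) (hf : ContDiffOn ℝ (l : ℕ) f U)
    (hspan : ∀ᵐ x ∂(MeasureTheory.volume.restrict U),
      Submodule.span ℝ {y : EuclideanSpace ℝ (Fin n) | ∃ k : ℕ, 1 ≤ k ∧ k ≤ l ∧
        ∃ w : Fin k → EuclideanSpace ℝ (Fin d), y = iteratedFDeriv ℝ k f x w} = ⊤)
    {x₀ : EuclideanSpace ℝ (Fin d)} {r : ℝ} (hball : Metric.ball x₀ r ⊆ U)
    {V : Set (Fin d → ℝ)} {g : (Fin d → ℝ) → EuclideanSpace ℝ (Fin d)}
    (hF : ∀ j : Fin m, ContDiffOn ℝ (l : ℕ) (fun y => f (g y) (E (Sum.inr j))) V)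
    (hO : ∀ V' ⊆ V, IsOpen V' → V'.Nonempty → ∃ O : Set (EuclideanSpace ℝ (Fin d)),
        O ⊆ Metric.ball x₀ r ∧ IsOpen O ∧ O.Nonempty ∧
        ∀ x ∈ O, (fun s => f x (E (Sum.inl s))) ∈ V' ∧ g (fun s => f x (E (Sum.inl s))) = x) :
    ∀ V' ⊆ V, IsOpen V' → V'.Nonempty → ∀ z : Fin m → ℝ, z ≠ 0 →
      ∃ x ∈ V', ∃ a b : Fin d,
        pds [a, b] (fun y => ∑ j, z j * f (g y) (E (Sum.inr j))) x ≠ 0 := by
  intro V' hV' hV'o hV'n z hz
  by_contra hcon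
  push Not at hcon
  have hh : ContDiffOn ℝ (2 : ℕ) (fun y => ∑ j, z j * f (g y) (E (Sum.inr j))) V' := by
    apply ContDiffOn.sum
    intro j _
    apply ContDiffOn.mul contDiffOn_const
    exact ((hF j).mono hV').of_le (by exact_mod_cast hl)
  obtain ⟨B, hB, hBo, hBn, α, c, hα⟩ := fin_affine hV'o hV'n hh (fun x hx a b => hcon x hx a b)
  obtain ⟨O, hOball, hOo, hOn, hOx⟩ := hO B (hB.trans hV') hBo hBn
  set ℓ : EuclideanSpace ℝ (Fin n) →L[ℝ] ℝ :=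
    ∑ j, z j • (EuclideanSpace.proj (E (Sum.inr j)) : EuclideanSpace ℝ (Fin n) →L[ℝ] ℝ) -
    ∑ b, α b • (EuclideanSpace.proj (E (Sum.inl b)) : EuclideanSpace ℝ (Fin n) →L[ℝ] ℝ) with hℓ
  have hℓa : ∀ v, ℓ v = ∑ j, z j * v (E (Sum.inr j)) - ∑ b, α b * v (E (Sum.inl b)) := by
    intro v
    rw [hℓ, _root_.sub_apply]
    simp
  have hconst : ∀ x ∈ O, ℓ (f x) = c := by
    intro x hx
    obtain ⟨h1, h2⟩ := hOx x hx
    have h3 := hα _ h1
    rw [h2] at h3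
    rw [hℓa, h3]
    ring
  have hfa : ∀ x ∈ O, ContDiffAt ℝ (l : ℕ) f x := fun x hx =>
    hf.contDiffAt (hU.mem_nhds (hball (hOball hx)))
  have hℓ0 : ∃ v, ℓ v ≠ 0 := by
    obtain ⟨j, hj⟩ := Function.ne_iff.mp hz
    refine ⟨EuclideanSpace.single (E (Sum.inr j)) 1, ?_⟩
    rw [hℓa]
    simpa [Pi.single_apply] using hj
  -- the span is never everything on `O`
  have hnot : ∀ x ∈ O, ¬ Submodule.span ℝ {y : EuclideanSpace ℝ (Fin n) | ∃ k : ℕ, 1 ≤ k ∧ k ≤ l ∧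
        ∃ w : Fin k → EuclideanSpace ℝ (Fin d), y = iteratedFDeriv ℝ k f x w} = ⊤ := by
    intro x hx htop
    obtain ⟨v, hv⟩ := hℓ0
    apply hv
    have h1 : Submodule.span ℝ {y : EuclideanSpace ℝ (Fin n) | ∃ k : ℕ, 1 ≤ k ∧ k ≤ l ∧
        ∃ w : Fin k → EuclideanSpace ℝ (Fin d), y = iteratedFDeriv ℝ k f x w} ≤
        LinearMap.ker (ℓ : EuclideanSpace ℝ (Fin n) →ₗ[ℝ] ℝ) := by
      rw [Submodule.span_le]
      rintro y ⟨k, hk1, hk2, w, rfl⟩
      exact fin_iter_zero hOo hfa ℓ c hconst hx hk1 hk2 w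
    rw [htop] at h1
    exact h1 (Submodule.mem_top (x := v))
  rw [MeasureTheory.ae_restrict_iff' hU.measurableSet] at hspan
  have hzero : MeasureTheory.volume O = 0 := by
    apply MeasureTheory.measure_mono_null _ hspan
    intro x hx hcon
    exact hnot x hx (hcon (hball (hOball hx)))
  exact (hOo.measure_pos MeasureTheory.volume hOn).ne' hzero

/-- The set of rational points that is counted is finite. -/
theorem fin_finite {d n : ℕ} {U : Set (EuclideanSpace ℝ (Fin d))}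
    {f : EuclideanSpace ℝ (Fin d) → EuclideanSpace ℝ (Fin n)} (hf : ContinuousOn f U)
    {x₀ : EuclideanSpace ℝ (Fin d)} {r : ℝ} (hr : 0 < r) (hball : Metric.closedBall x₀ r ⊆ U)
    {Q ψ : ℝ} (hQ : 1 ≤ Q) (hψ : ψ < 1) :
    {pq : (Fin n → ℤ) × ℕ | 1 ≤ pq.2 ∧ (pq.2 : ℝ) ≤ Q ∧
          Metric.infDist ((EuclideanSpace.equiv (Fin n) ℝ).symm (fun i => (pq.1 i : ℝ) / (pq.2 : ℝ)))
            (f '' Metric.ball x₀ r) ≤ ψ / (pq.2 : ℝ)}.Finite := by
  have hcomp : IsCompact (f '' Metric.closedBall x₀ r) :=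
    (isCompact_closedBall x₀ r).image_of_continuousOn (hf.mono hball)
  obtain ⟨R, hR⟩ := hcomp.isBounded.exists_norm_le
  have hne : (f '' Metric.ball x₀ r).Nonempty := ⟨f x₀, x₀, Metric.mem_ball_self hr, rfl⟩
  obtain ⟨N, hN⟩ := exists_nat_ge ((|R| + 2) * Q)
  apply Set.Finite.subset ((Set.Finite.pi' (fun _ : Fin n => Set.finite_Icc (-(N : ℤ)) N)).prod
    (Set.finite_Icc 0 N))
  rintro ⟨P, q⟩ ⟨h1, h2, h3⟩
  simp only at h1 h2 h3
  have hq1 : (1 : ℝ) ≤ q := by exact_mod_cast h1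
  have hq0 : (0 : ℝ) < q := by linarith
  have h4 : Metric.infDist ((EuclideanSpace.equiv (Fin n) ℝ).symm
      (fun i => (P i : ℝ) / (q : ℝ))) (f '' Metric.ball x₀ r) < 2 := by
    refine lt_of_le_of_lt h3 ?_
    rw [div_lt_iff₀ hq0]
    linarith
  obtain ⟨y, ⟨x, hx, rfl⟩, h5⟩ := (Metric.infDist_lt_iff hne).mp h4
  have h6 : ‖f x‖ ≤ R := hR _ ⟨x, Metric.ball_subset_closedBall hx, rfl⟩
  have h7 : ‖(EuclideanSpace.equiv (Fin n) ℝ).symm (fun i => (P i : ℝ) / (q : ℝ))‖ ≤ |R| + 2 := by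
    rw [dist_eq_norm] at h5
    have h8 := norm_le_norm_add_norm_sub' ((EuclideanSpace.equiv (Fin n) ℝ).symm
      (fun i => (P i : ℝ) / (q : ℝ))) (f x)
    have h9 := le_abs_self R
    linarith
  have hQ0 : 0 ≤ Q := by linarith
  have h10 : ∀ i, |(P i : ℝ)| ≤ N := by
    intro i
    have h11 := PiLp.norm_apply_le ((EuclideanSpace.equiv (Fin n) ℝ).symm
      (fun i => (P i : ℝ) / (q : ℝ))) i
    have h12 : ‖((EuclideanSpace.equiv (Fin n) ℝ).symm (fun i => (P i : ℝ) / (q : ℝ))) i‖ =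
        |(P i : ℝ)| / q := by
      show ‖(P i : ℝ) / (q : ℝ)‖ = _
      rw [Real.norm_eq_abs, abs_div, abs_of_pos hq0]
    rw [h12] at h11
    have h13 : |(P i : ℝ)| ≤ (|R| + 2) * q := by
      rw [← div_le_iff₀ hq0]
      exact h11.trans h7
    have h14 : (|R| + 2) * (q : ℝ) ≤ (|R| + 2) * Q :=
      mul_le_mul_of_nonneg_left h2 (by positivity)
    linarith
  refine ⟨fun i => ?_, ?_⟩
  · have h11 := abs_le.mp (h10 i)
    constructor
    · have : (-(N : ℝ)) ≤ P i := h11.1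
      exact_mod_cast this
    · have : (P i : ℝ) ≤ N := h11.2
      exact_mod_cast this
  · refine ⟨Nat.zero_le _, ?_⟩
    have h11 : (q : ℝ) ≤ N := by
      have h12 : Q ≤ (|R| + 2) * Q := by
        have := abs_nonneg R
        nlinarith
      linarith
    exact_mod_cast h11

/-- The reduction of the main theorem to the counting statement for graphs. -/
theorem final_of_monge
    (H : ∀ (d m L : ℕ), 1 ≤ d → 1 ≤ m → (m + 1) ^ 2 + 2 * d + 1 ≤ L →
      ∀ (V : Set (Fin d → ℝ)), IsOpen V → ∀ (F : Fin m → (Fin d → ℝ) → ℝ),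
      (∀ i, ContDiffOn ℝ L (F i) V) → ∀ (j₀ : ℕ) (k₀ : Fin d → ℤ), closure (cube j₀ k₀) ⊆ V →
      ∀ c₀ : ℝ, 0 < c₀ →
      (∀ x ∈ cube j₀ k₀, ∀ z : Fin m → ℝ, ∃ I : List (Fin d), 2 ≤ I.length ∧
        I.length ≤ m + 1 ∧ c₀ * ‖z‖ ≤ |∑ i, z i * pds I (F i) x|) →
      ∃ C₁ C₂ Q₀ : ℝ, 0 < C₁ ∧ 0 < C₂ ∧ ∀ Q ψ : ℝ, Q₀ ≤ Q → 0 < ψ → ψ < 1 → C₂ ^ m < ψ ^ m * Q →
        ∃ S : Finset ((Fin d → ℤ) × (Fin m → ℤ) × ℕ),
          (∀ s ∈ S, 1 ≤ s.2.2 ∧ (s.2.2 : ℝ) ≤ Q ∧ (fun a => (s.1 a : ℝ) / s.2.2) ∈ V ∧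
            ∀ i, |F i (fun a => (s.1 a : ℝ) / s.2.2) - (s.2.1 i : ℝ) / s.2.2| ≤ ψ / s.2.2) ∧
          C₁ * ψ ^ m * Q ^ (d + 1) ≤ S.card) :
  ∀ (d n l : ℕ), 1 < d → d < n → (n - d + 1) ^ 2 + 2 * d + 1 ≤ l →
  ∀ (U : Set (EuclideanSpace ℝ (Fin d))) (f : EuclideanSpace ℝ (Fin d) → EuclideanSpace ℝ (Fin n)),
    IsOpen U → ContDiffOn ℝ (l : ℕ) f U →
    (∀ x ∈ U, Function.Injective (fderiv ℝ f x)) →
    (∀ᵐ x ∂(MeasureTheory.volume.restrict U),
      Submodule.span ℝ {y : EuclideanSpace ℝ (Fin n) | ∃ k : ℕ, 1 ≤ k ∧ k ≤ l ∧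
        ∃ w : Fin k → EuclideanSpace ℝ (Fin d), y = iteratedFDeriv ℝ k f x w} = ⊤) →
    ∀ (x₀ : EuclideanSpace ℝ (Fin d)) (r : ℝ), 0 < r → Metric.closedBall x₀ r ⊆ U →
    ∃ C₁ C₂ : ℝ, 0 < C₁ ∧ 0 < C₂ ∧ ∃ Q₀ : ℝ, ∀ Q ψ : ℝ, Q₀ ≤ Q →
      C₂ * Q ^ (-(1:ℝ) / ((n:ℝ) - (d:ℝ))) < ψ → ψ < 1 →
      C₁ * ψ ^ (n - d) * Q ^ (d + 1) ≤
        (({pq : (Fin n → ℤ) × ℕ | 1 ≤ pq.2 ∧ (pq.2 : ℝ) ≤ Q ∧
          Metric.infDist ((EuclideanSpace.equiv (Fin n) ℝ).symm (fun i => (pq.1 i : ℝ) / (pq.2 : ℝ)))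
            (f '' Metric.ball x₀ r) ≤ ψ / (pq.2 : ℝ)}.ncard : ℕ) : ℝ) := by
  classical
  intro d n l hd hdn hl U f hU hf hinj hspan x₀ r hr hcball
  obtain ⟨m, rfl⟩ := Nat.exists_eq_add_of_lt hdn
  have hm1 : d + m + 1 - d = m + 1 := by omega
  rw [hm1] at hl ⊢
  set M := m + 1 with hM
  have hM1 : 1 ≤ M := by omega
  have hball : Metric.ball x₀ r ⊆ U := Metric.ball_subset_closedBall.trans hcball
  have hx₀ : x₀ ∈ U := hball (Metric.mem_ball_self hr)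
  have hlM : M + 1 ≤ l := by nlinarith
  obtain ⟨e, he, V, g, hVo, hVn, hg, hgball, hge, hgO⟩ :=
    fin_chart (by omega) hU hf hx₀ (hinj x₀ hx₀) hr
  obtain ⟨E, hE⟩ := fin_split (m := M) (by omega) e he
  simp only [← hE] at hge hgO
  set F : Fin M → (Fin d → ℝ) → ℝ := fun j y => f (g y) (E (Sum.inr j)) with hF
  have hFC : ∀ j, ContDiffOn ℝ (l : ℕ) (F j) V := by
    intro j
    have h1 : ContDiffOn ℝ (l : ℕ) (fun y => f (g y)) V :=
      hf.comp hg fun y hy => hball (hgball y hy)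
    exact (EuclideanSpace.proj (E (Sum.inr j)) : EuclideanSpace ℝ (Fin (d + m + 1)) →L[ℝ] ℝ).contDiff.comp_contDiffOn h1
  have hna := fin_nonaffine (by omega) E hU hf hspan hball hFC hgO
  obtain ⟨y₁, hy₁, I, hI, hdet⟩ := generic_order M V hVo hVn F
    (fun j => (hFC j).of_le (by exact_mod_cast hlM)) hna
  -- a cube on which the matrix stays invertible
  have hNc : ∀ s j, ContinuousOn (fun x => (Matrix.of fun s j => pds (I s) (F j) x :
      Matrix (Fin M) (Fin M) ℝ) s j) V := by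
    intro s j
    have h1 : ContDiffOn ℝ ((0 : ℕ) : WithTop ℕ∞) (pds (I s) (F j)) V := by
      apply gen_pds_contDiffOn hVo
      apply (hFC j).of_le
      have := (hI s).2
      exact_mod_cast (by omega : 0 + (I s).length ≤ l)
    exact h1.continuousOn
  have hdc : ContinuousOn (fun x => (Matrix.of fun s j => pds (I s) (F j) x :
      Matrix (Fin M) (Fin M) ℝ).det) V := by
    simp only [Matrix.det_apply]
    apply continuousOn_finsetSum
    intro σ _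
    apply ContinuousOn.const_smul
    apply continuousOn_finsetProd
    intro i _
    exact hNc (σ i) i
  set V₁ : Set (Fin d → ℝ) := V ∩ (fun x => (Matrix.of fun s j => pds (I s) (F j) x :
      Matrix (Fin M) (Fin M) ℝ).det) ⁻¹' {0}ᶜ with hV₁
  have hV₁o : IsOpen V₁ := hdc.isOpen_inter_preimage hVo isOpen_compl_singleton
  obtain ⟨j₀, k₀, hcube, hcomp⟩ := fin_cube hV₁o (y := y₁) ⟨hy₁, hdet⟩
  obtain ⟨c₀, hc₀, hlow⟩ := fin_lower hM1 hcomp
    (N := fun x => Matrix.of fun s j => pds (I s) (F j) x)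
    (fun s j => (hNc s j).mono (hcube.trans Set.inter_subset_left))
    (fun x hx => (hcube hx).2)
  obtain ⟨C₁, C₂, Q₀, hC₁, hC₂, hcount⟩ := H d M l (by omega) hM1 hl V hVo F hFC j₀ k₀
    (hcube.trans Set.inter_subset_left) c₀ hc₀ (by
      intro x hx z
      obtain ⟨s, hs⟩ := hlow x (subset_closure hx) z
      exact ⟨I s, (hI s).1, (hI s).2, hs⟩)
  have hM0 : (0 : ℝ) < M := by exact_mod_cast hM1
  refine ⟨C₁ / M ^ M, M * C₂, by positivity, by positivity, max Q₀ 1, ?_⟩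
  intro Q ψ hQ hψ1 hψ2
  have hQ1 : 1 ≤ Q := (le_max_right _ _).trans hQ
  have hQp : 0 < Q := by linarith
  have hcast : ((d + m + 1 : ℕ) : ℝ) - (d : ℝ) = M := by
    rw [hM]
    push_cast
    ring
  rw [hcast] at hψ1
  have hrp : 0 < Q ^ (-(1 : ℝ) / M) := Real.rpow_pos_of_pos hQp _
  have hψ0 : 0 < ψ := lt_trans (by positivity) hψ1
  have hψ' : C₂ * Q ^ (-(1 : ℝ) / M) < ψ / M := by
    rw [lt_div_iff₀ hM0]
    linarith
  have hcond : C₂ ^ M < (ψ / M) ^ M * Q := by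
    have h1 : (C₂ * Q ^ (-(1 : ℝ) / M)) ^ M < (ψ / M) ^ M :=
      pow_lt_pow_left₀ hψ' (by positivity) (by omega)
    have h2 : (Q ^ (-(1 : ℝ) / M)) ^ M = Q⁻¹ := by
      rw [← Real.rpow_natCast, ← Real.rpow_mul hQp.le, div_mul_cancel₀ _ hM0.ne',
        Real.rpow_neg_one]
    rw [mul_pow, h2] at h1
    have h3 := mul_lt_mul_of_pos_right h1 hQp
    rwa [mul_assoc, inv_mul_cancel₀ hQp.ne', mul_one] at h3
  obtain ⟨S, hS, hScard⟩ := hcount Q (ψ / M) ((le_max_left _ _).trans hQ) (by positivity)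
    (by
      rw [div_lt_one hM0]
      have : (1 : ℝ) ≤ M := by exact_mod_cast hM1
      linarith) hcond
  -- the rational points
  set Ψ : (Fin d → ℤ) × (Fin M → ℤ) × ℕ → (Fin (d + m + 1) → ℤ) × ℕ :=
    fun s => (fun i => Sum.elim s.1 s.2.1 (E.symm i), s.2.2) with hΨ
  have hΨinj : Function.Injective Ψ := by
    rintro ⟨a, p, q⟩ ⟨a', p', q'⟩ h
    rw [hΨ] at h
    simp only [Prod.mk.injEq] at h
    obtain ⟨h1, h2⟩ := h
    have ha : a = a' := by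
      funext s
      have := congrFun h1 (E (Sum.inl s))
      simpa using this
    have hp : p = p' := by
      funext s
      have := congrFun h1 (E (Sum.inr s))
      simpa using this
    rw [ha, hp, h2]
  have hfin := fin_finite (n := d + m + 1) hf.continuousOn hr hcball hQ1 hψ2
  have hsub : ((S.image Ψ : Finset _) : Set ((Fin (d + m + 1) → ℤ) × ℕ)) ⊆
      {pq : (Fin (d + m + 1) → ℤ) × ℕ | 1 ≤ pq.2 ∧ (pq.2 : ℝ) ≤ Q ∧
          Metric.infDist ((EuclideanSpace.equiv (Fin (d + m + 1)) ℝ).symm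
            (fun i => (pq.1 i : ℝ) / (pq.2 : ℝ)))
            (f '' Metric.ball x₀ r) ≤ ψ / (pq.2 : ℝ)} := by
    intro pq hpq
    rw [Finset.mem_coe, Finset.mem_image] at hpq
    obtain ⟨⟨a, p, q⟩, hs, rfl⟩ := hpq
    obtain ⟨h1, h2, h3, h4⟩ := hS _ hs
    simp only at h1 h2 h3 h4
    refine ⟨h1, h2, ?_⟩
    have hq0 : (0 : ℝ) < q := by
      have : (1 : ℝ) ≤ q := by exact_mod_cast h1
      linarith
    set y : Fin d → ℝ := fun a_1 => (a a_1 : ℝ) / q with hy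
    have hmem : f (g y) ∈ f '' Metric.ball x₀ r := ⟨g y, hgball y h3, rfl⟩
    refine (Metric.infDist_le_dist_of_mem hmem).trans ?_
    rw [dist_eq_norm]
    refine fin_norm_le (by positivity) hM1 ?_
    rw [← E.sum_comp, Fintype.sum_sum_type]
    have h5 : ∀ s : Fin d, (((EuclideanSpace.equiv (Fin (d + m + 1)) ℝ).symm
        (fun i => (((Ψ (a, p, q)).1 i : ℤ) : ℝ) / (((Ψ (a, p, q)).2 : ℕ) : ℝ)) - f (g y))
        (E (Sum.inl s))) = 0 := by
      intro s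
      have h6 := hge y h3 s
      show ((Sum.elim a p (E.symm (E (Sum.inl s))) : ℤ) : ℝ) / (q : ℝ) -
        f (g y) (E (Sum.inl s)) = 0
      rw [h6, Equiv.symm_apply_apply, Sum.elim_inl, hy]
      ring
    have h7 : ∀ j : Fin M, (((EuclideanSpace.equiv (Fin (d + m + 1)) ℝ).symm
        (fun i => (((Ψ (a, p, q)).1 i : ℤ) : ℝ) / (((Ψ (a, p, q)).2 : ℕ) : ℝ)) - f (g y))
        (E (Sum.inr j))) ^ 2 ≤ (ψ / q / M) ^ 2 := by
      intro j
      have h8 := h4 j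
      show (((Sum.elim a p (E.symm (E (Sum.inr j))) : ℤ) : ℝ) / (q : ℝ) -
        f (g y) (E (Sum.inr j))) ^ 2 ≤ _
      rw [Equiv.symm_apply_apply, Sum.elim_inr]
      apply sq_le_sq'
      · have := (abs_le.mp h8).2
        have h9 : ψ / M / (q : ℝ) = ψ / q / M := by ring
        rw [h9] at this
        have h10 : F j y = f (g y) (E (Sum.inr j)) := rfl
        linarith
      · have := (abs_le.mp h8).1
        have h9 : ψ / M / (q : ℝ) = ψ / q / M := by ring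
        rw [h9] at this
        have h10 : F j y = f (g y) (E (Sum.inr j)) := rfl
        linarith
    have h11 : ∑ s : Fin d, ((((EuclideanSpace.equiv (Fin (d + m + 1)) ℝ).symm
        (fun i => (((Ψ (a, p, q)).1 i : ℤ) : ℝ) / (((Ψ (a, p, q)).2 : ℕ) : ℝ)) - f (g y))
        (E (Sum.inl s)))) ^ 2 = 0 := by
      apply Finset.sum_eq_zero
      intro s _
      rw [h5 s]
      norm_num
    have h12 := Finset.sum_le_card_nsmul Finset.univ _ _ (fun j _ => h7 j)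
    rw [Finset.card_univ, Fintype.card_fin, nsmul_eq_mul] at h12
    rw [h11, zero_add]
    exact h12
  have hncard : S.card ≤ {pq : (Fin (d + m + 1) → ℤ) × ℕ | 1 ≤ pq.2 ∧ (pq.2 : ℝ) ≤ Q ∧
          Metric.infDist ((EuclideanSpace.equiv (Fin (d + m + 1)) ℝ).symm
            (fun i => (pq.1 i : ℝ) / (pq.2 : ℝ)))
            (f '' Metric.ball x₀ r) ≤ ψ / (pq.2 : ℝ)}.ncard := by
    rw [← Finset.card_image_of_injective S hΨinj, ← Set.ncard_coe_finset]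
    exact Set.ncard_le_ncard hsub hfin
  refine le_trans (le_of_eq ?_) (hScard.trans (by exact_mod_cast hncard))
  rw [div_pow]
  ring

end Pool.Agent.Lib.MP_a37012_nt
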