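import Pool.Agent.Lib.MP_a37012_nt.Final

/-!
# The final reduction, with pointwise nondegeneracy
-/

set_option autoImplicit false

open MeasureTheory Module

namespace Pool.Agent.Lib.MP_a37012_nt

/-- Iterated derivatives on coordinate vectors are iterated partial derivatives. -/
theorem f3_iter_single {d : ℕ} {V : Set (Fin d → ℝ)} (hV : IsOpen V) {h : (Fin d → ℝ) → ℝ} :
    ∀ (k : ℕ) (v : Fin k → Fin d), ContDiffOn ℝ ((k : ℕ) : WithTop ℕ∞) h V → ∀ x ∈ V,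
      iteratedFDeriv ℝ k h x (fun i => Pi.single (v i) 1) = pds (List.ofFn v) h x := by
  intro k
  induction k with
  | zero =>
    intro v _ x _
    simp [pds]
  | succ k ih =>
    intro v hh x hx
    rw [iteratedFDeriv_succ_apply_left, List.ofFn_succ]
    show _ = fderiv ℝ (pds (List.ofFn fun i => v i.succ) h) x (Pi.single (v 0) 1)
    have h1 : (pds (List.ofFn fun i => v i.succ) h) =ᶠ[nhds x]
        fun y => iteratedFDeriv ℝ k h y (fun i => Pi.single (v i.succ) 1) := by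
      filter_upwards [hV.mem_nhds hx] with y hy
      exact (ih (fun i => v i.succ) (hh.of_le (by exact_mod_cast Nat.le_succ k)) y hy).symm
    rw [h1.fderiv_eq]
    have h2 : DifferentiableAt ℝ (iteratedFDeriv ℝ k h) x :=
      (hh.contDiffAt (hV.mem_nhds hx)).differentiableAt_iteratedFDeriv
        (by exact_mod_cast Nat.lt_succ_self k)
    have h3 := ((ContinuousMultilinearMap.apply ℝ (fun _ : Fin k => (Fin d → ℝ)) ℝ
      (fun i => Pi.single (v i.succ) 1)).hasFDerivAt (x := iteratedFDeriv ℝ k h x)).comp x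
      h2.hasFDerivAt
    have h4 : (fun y => iteratedFDeriv ℝ k h y (fun i => Pi.single (v i.succ) 1)) =
        (ContinuousMultilinearMap.apply ℝ (fun _ : Fin k => (Fin d → ℝ)) ℝ
          (fun i => Pi.single (v i.succ) 1)) ∘ (iteratedFDeriv ℝ k h) := rfl
    rw [h4, h3.fderiv]
    rfl

/-- Iterated partial derivatives of a linear function. -/
theorem f3_pds_lin {d : ℕ} (α : Fin d → ℝ) : ∀ I : List (Fin d),
    (∀ b, pds [b] (fun y : Fin d → ℝ => ∑ b, α b * y b) = fun _ => α b) ∧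
    (1 ≤ I.length → ∃ c : ℝ, pds I (fun y : Fin d → ℝ => ∑ b, α b * y b) = fun _ => c) ∧
    (2 ≤ I.length → pds I (fun y : Fin d → ℝ => ∑ b, α b * y b) = fun _ => 0) := by
  have h1 : ∀ b, pds [b] (fun y : Fin d → ℝ => ∑ b, α b * y b) = fun _ => α b := by
    intro b
    funext x
    set L : (Fin d → ℝ) →L[ℝ] ℝ := ∑ b, α b • ContinuousLinearMap.proj b with hL
    have hLa : ∀ y, L y = ∑ b, α b * y b := by
      intro y
      rw [hL]
      simp
    have h2 : (fun y : Fin d → ℝ => ∑ b, α b * y b) = L := by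
      funext y
      exact (hLa y).symm
    show fderiv ℝ (fun y : Fin d → ℝ => ∑ b, α b * y b) x (Pi.single b 1) = α b
    rw [h2, L.fderiv, hLa]
    simp [Pi.single_apply]
  intro I
  refine ⟨h1, ?_⟩
  induction I with
  | nil => exact ⟨fun h => absurd h (by simp), fun h => absurd h (by simp)⟩
  | cons i I ih =>
    rcases I with _ | ⟨j, I⟩
    · exact ⟨fun _ => ⟨α i, h1 i⟩, fun h => absurd h (by simp)⟩
    · obtain ⟨c, hc⟩ := ih.1 (by simp)
      have h3 : pds (i :: j :: I) (fun y : Fin d → ℝ => ∑ b, α b * y b) = fun _ => 0 := by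
        show pd i (pds (j :: I) (fun y : Fin d → ℝ => ∑ b, α b * y b)) = _
        rw [hc]
        funext x
        simp [pd]
      exact ⟨fun _ => ⟨0, h3⟩, fun _ => h3⟩

/-- Pointwise nondegeneracy of the graph function from pointwise nondegeneracy of the map. -/
theorem f3_nondeg {d m n l : ℕ} (E : Fin d ⊕ Fin m ≃ Fin n)
    {f : EuclideanSpace ℝ (Fin d) → EuclideanSpace ℝ (Fin n)}
    {V : Set (Fin d → ℝ)} (hV : IsOpen V) {g : (Fin d → ℝ) → EuclideanSpace ℝ (Fin d)}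
    (hF : ∀ j : Fin m, ContDiffOn ℝ (l : ℕ) (fun y => f (g y) (E (Sum.inr j))) V)
    {O : Set (EuclideanSpace ℝ (Fin d))} (hO : IsOpen O)
    (hfO : ∀ x ∈ O, ContDiffAt ℝ (l : ℕ) f x)
    (hgO : ∀ x ∈ O, (fun s => f x (E (Sum.inl s))) ∈ V ∧ g (fun s => f x (E (Sum.inl s))) = x)
    {x₁ : EuclideanSpace ℝ (Fin d)} (hx₁ : x₁ ∈ O)
    (htop : Submodule.span ℝ {y : EuclideanSpace ℝ (Fin n) | ∃ k : ℕ, 1 ≤ k ∧ k ≤ l ∧
        ∃ w : Fin k → EuclideanSpace ℝ (Fin d), y = iteratedFDeriv ℝ k f x₁ w} = ⊤)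
    (z : Fin m → ℝ) (hz : z ≠ 0) :
    ∃ I : List (Fin d), 2 ≤ I.length ∧ I.length ≤ l ∧
      ∑ j, z j * pds I (fun y => f (g y) (E (Sum.inr j))) (fun s => f x₁ (E (Sum.inl s))) ≠ 0 := by
  by_contra hcon
  push Not at hcon
  set y₀ : Fin d → ℝ := fun s => f x₁ (E (Sum.inl s)) with hy₀
  have hy₀V : y₀ ∈ V := (hgO x₁ hx₁).1
  set h : (Fin d → ℝ) → ℝ := fun y => ∑ j, z j * f (g y) (E (Sum.inr j)) with hh
  have hhC : ContDiffOn ℝ (l : ℕ) h V := by
    apply ContDiffOn.sum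
    intro j _
    exact contDiffOn_const.mul (hF j)
  set α : Fin d → ℝ := fun b => pds [b] h y₀ with hα
  set u : (Fin d → ℝ) → ℝ := fun y => h y - ∑ b, α b * y b with hu
  have hlinC : ContDiff ℝ (l : ℕ) (fun y : Fin d → ℝ => ∑ b, α b * y b) := by
    apply ContDiff.sum
    intro b _
    exact contDiff_const.mul (contDiff_apply ℝ ℝ b)
  have huC : ContDiffOn ℝ (l : ℕ) u V := hhC.sub hlinC.contDiffOn
  have hpdu : ∀ I : List (Fin d), 1 ≤ I.length → I.length ≤ l → pds I u y₀ = 0 := by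
    intro I hI1 hIl
    have h1 : pds I u y₀ = pds I h y₀ - pds I (fun y : Fin d → ℝ => ∑ b, α b * y b) y₀ := by
      have h2 := gen_pds_sum hV (![h, fun y : Fin d → ℝ => ∑ b, α b * y b]) (![1, -1]) I
        (by
          intro j
          fin_cases j
          · exact hhC.of_le (by exact_mod_cast hIl)
          · exact (hlinC.contDiffOn).of_le (by exact_mod_cast hIl)) y₀ hy₀V
      simp only [Fin.sum_univ_two, Matrix.cons_val_zero, Matrix.cons_val_one] at h2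
      have h3 : u = fun y => 1 * h y + -1 * ∑ b, α b * y b := by
        funext y
        rw [hu]
        ring
      rw [h3, h2]
      ring
    rw [h1]
    rcases Nat.lt_or_ge I.length 2 with h2 | h2
    · obtain ⟨b, rfl⟩ : ∃ b, I = [b] := List.length_eq_one_iff.mp (by omega)
      rw [(f3_pds_lin α []).1 b]
      exact sub_self _
    · rw [(f3_pds_lin α I).2.2 h2, sub_zero]
      have h3 := gen_pds_sum hV (fun j y => f (g y) (E (Sum.inr j))) z I
        (fun j => (hF j).of_le (by exact_mod_cast hIl)) y₀ hy₀V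
      rw [hh, h3]
      exact hcon I h2 hIl
  have hiter : ∀ k : ℕ, 1 ≤ k → k ≤ l → iteratedFDeriv ℝ k u y₀ = 0 := by
    intro k hk1 hkl
    apply ContinuousMultilinearMap.toMultilinearMap_injective
    apply Module.Basis.ext_multilinear (fun _ => Pi.basisFun ℝ (Fin d))
    intro v
    have h1 := f3_iter_single hV k v (huC.of_le (by exact_mod_cast hkl)) y₀ hy₀V
    have h2 : (fun i => (Pi.basisFun ℝ (Fin d)) (v i)) =
        fun i => (Pi.single (v i) 1 : Fin d → ℝ) := by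
      funext i
      simp
    rw [h2]
    have h3 := hpdu (List.ofFn v) (by simpa using hk1) (by simpa using hkl)
    rw [← h1] at h3
    simpa using h3
  set ℓ : EuclideanSpace ℝ (Fin n) →L[ℝ] ℝ :=
    ∑ j, z j • (EuclideanSpace.proj (E (Sum.inr j)) : EuclideanSpace ℝ (Fin n) →L[ℝ] ℝ) -
    ∑ b, α b • (EuclideanSpace.proj (E (Sum.inl b)) : EuclideanSpace ℝ (Fin n) →L[ℝ] ℝ) with hℓ
  have hℓa : ∀ v, ℓ v = ∑ j, z j * v (E (Sum.inr j)) - ∑ b, α b * v (E (Sum.inl b)) := by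
    intro v
    rw [hℓ, _root_.sub_apply]
    simp
  set φ : EuclideanSpace ℝ (Fin d) → (Fin d → ℝ) := fun x s => f x (E (Sum.inl s)) with hφ
  have hφC : ContDiffAt ℝ (l : ℕ) φ x₁ := by
    rw [contDiffAt_pi]
    intro s
    exact (EuclideanSpace.proj (E (Sum.inl s)) :
      EuclideanSpace ℝ (Fin n) →L[ℝ] ℝ).contDiff.contDiffAt.comp x₁ (hfO x₁ hx₁)
  have hcomp : (ℓ ∘ f) =ᶠ[nhds x₁] (u ∘ φ) := by
    filter_upwards [hO.mem_nhds hx₁] with x hx
    have h1 := (hgO x hx).2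
    show ℓ (f x) = h (φ x) - ∑ b, α b * φ x b
    rw [hℓa]
    simp only [hh, hφ, h1]
  have hzero : ∀ k : ℕ, 1 ≤ k → k ≤ l → ∀ w : Fin k → EuclideanSpace ℝ (Fin d),
      ℓ (iteratedFDeriv ℝ k f x₁ w) = 0 := by
    intro k hk1 hkl w
    have h1 : iteratedFDeriv ℝ k (ℓ ∘ f) x₁ =
        ℓ.compContinuousMultilinearMap (iteratedFDeriv ℝ k f x₁) :=
      ℓ.iteratedFDeriv_comp_left (hfO x₁ hx₁) (by exact_mod_cast hkl)
    have h2 : iteratedFDeriv ℝ k (ℓ ∘ f) x₁ = iteratedFDeriv ℝ k (u ∘ φ) x₁ :=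
      (Filter.EventuallyEq.iteratedFDeriv ℝ hcomp k).eq_of_nhds
    have h3 : iteratedFDeriv ℝ k (u ∘ φ) x₁ =
        (ftaylorSeries ℝ u (φ x₁)).taylorComp (ftaylorSeries ℝ φ x₁) k :=
      iteratedFDeriv_comp (n := (l : ℕ)) (huC.contDiffAt (hV.mem_nhds hy₀V)) hφC
        (by exact_mod_cast hkl)
    have h4 : (ftaylorSeries ℝ u (φ x₁)).taylorComp (ftaylorSeries ℝ φ x₁) k = 0 := by
      unfold FormalMultilinearSeries.taylorComp
      apply Finset.sum_eq_zero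
      intro c _
      ext v
      have hc1 : 1 ≤ c.length := c.length_pos (by omega)
      have hc2 : c.length ≤ l := c.length_le.trans hkl
      show (ftaylorSeries ℝ u (φ x₁)) c.length _ = 0
      have h5 : (ftaylorSeries ℝ u (φ x₁)) c.length = 0 := hiter c.length hc1 hc2
      rw [h5]
      rfl
    have h5 := congrArg (fun T => T w) (h1.symm.trans (h2.trans (h3.trans h4)))
    simpa using h5
  have hℓ0 : ∃ v, ℓ v ≠ 0 := by
    obtain ⟨j, hj⟩ := Function.ne_iff.mp hz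
    refine ⟨EuclideanSpace.single (E (Sum.inr j)) 1, ?_⟩
    rw [hℓa]
    simpa [Pi.single_apply] using hj
  obtain ⟨v, hv⟩ := hℓ0
  apply hv
  have h1 : Submodule.span ℝ {y : EuclideanSpace ℝ (Fin n) | ∃ k : ℕ, 1 ≤ k ∧ k ≤ l ∧
      ∃ w : Fin k → EuclideanSpace ℝ (Fin d), y = iteratedFDeriv ℝ k f x₁ w} ≤
      LinearMap.ker (ℓ : EuclideanSpace ℝ (Fin n) →ₗ[ℝ] ℝ) := by
    rw [Submodule.span_le]
    rintro y ⟨k, hk1, hk2, w, rfl⟩
    exact hzero k hk1 hk2 w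
  rw [htop] at h1
  exact h1 (Submodule.mem_top (x := v))

/-- The reduction of the main theorem to the counting statement for graphs. -/
theorem final_of_graph
    (H : ∀ (d m l : ℕ), 1 ≤ d → 1 ≤ m → 2 ≤ l →
      ∀ (V : Set (Fin d → ℝ)), IsOpen V → ∀ (F : Fin m → (Fin d → ℝ) → ℝ),
      (∀ i, ContDiffOn ℝ l (F i) V) → ∀ y₀ ∈ V,
      (∀ z : Fin m → ℝ, z ≠ 0 → ∃ I : List (Fin d), 2 ≤ I.length ∧ I.length ≤ l ∧
        ∑ i, z i * pds I (F i) y₀ ≠ 0) →
      ∃ C₁ C₂ Q₀ : ℝ, 0 < C₁ ∧ 0 < C₂ ∧ ∀ Q ψ : ℝ, Q₀ ≤ Q → 0 < ψ → ψ < 1 → C₂ ^ m < ψ ^ m * Q →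
        ∃ S : Finset ((Fin d → ℤ) × (Fin m → ℤ) × ℕ),
          (∀ s ∈ S, 1 ≤ s.2.2 ∧ (s.2.2 : ℝ) ≤ Q ∧ (fun a => (s.1 a : ℝ) / s.2.2) ∈ V ∧
            ∀ i, |F i (fun a => (s.1 a : ℝ) / s.2.2) - (s.2.1 i : ℝ) / s.2.2| ≤ ψ / s.2.2) ∧
          C₁ * ψ ^ m * Q ^ (d + 1) ≤ S.card) :
  ∀ (d n l : ℕ), 1 < d → d < n → 1 ≤ l →
  ∀ (U : Set (EuclideanSpace ℝ (Fin d))) (f : EuclideanSpace ℝ (Fin d) → EuclideanSpace ℝ (Fin n)),
    IsOpen U → ContDiffOn ℝ (l : ℕ) f U →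
    (∀ x ∈ U, Function.Injective (fderiv ℝ f x)) →
    (∀ᵐ x ∂(MeasureTheory.volume.restrict U),
      Submodule.span ℝ {y : EuclideanSpace ℝ (Fin n) | ∃ k : ℕ, 1 ≤ k ∧ k ≤ l ∧
        ∃ w : Fin k → EuclideanSpace ℝ (Fin d), y = iteratedFDeriv ℝ k f x w} = ⊤) →
    ∀ (x₀ : EuclideanSpace ℝ (Fin d)) (r : ℝ), 0 < r → Metric.closedBall x₀ r ⊆ U →
    ∃ C₁ C₂ : ℝ, 0 < C₁ ∧ 0 < C₂ ∧ ∃ Q₀ : ℝ, ∀ Q ψ : ℝ, Q₀ ≤ Q →
      C₂ * Q ^ (-(1:ℝ) / ((n:ℝ) - (d:ℝ))) < ψ → ψ < 1 →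
      C₁ * ψ ^ (n - d) * Q ^ (d + 1) ≤
        (({pq : (Fin n → ℤ) × ℕ | 1 ≤ pq.2 ∧ (pq.2 : ℝ) ≤ Q ∧
          Metric.infDist ((EuclideanSpace.equiv (Fin n) ℝ).symm (fun i => (pq.1 i : ℝ) / (pq.2 : ℝ)))
            (f '' Metric.ball x₀ r) ≤ ψ / (pq.2 : ℝ)}.ncard : ℕ) : ℝ) := by
  classical
  intro d n l hd hdn hl U f hU hf hinj hspan x₀ r hr hcball
  obtain ⟨m, rfl⟩ := Nat.exists_eq_add_of_lt hdn
  have hm1 : d + m + 1 - d = m + 1 := by omega
  rw [hm1]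
  set M := m + 1 with hM
  have hM1 : 1 ≤ M := by omega
  have hball : Metric.ball x₀ r ⊆ U := Metric.ball_subset_closedBall.trans hcball
  have hx₀ : x₀ ∈ U := hball (Metric.mem_ball_self hr)
  obtain ⟨e, he, V, g, hVo, hVn, hg, hgball, hge, hgO⟩ :=
    fin_chart hl hU hf hx₀ (hinj x₀ hx₀) hr
  obtain ⟨E, hE⟩ := fin_split (m := M) (by omega) e he
  simp only [← hE] at hge hgO
  set F : Fin M → (Fin d → ℝ) → ℝ := fun j y => f (g y) (E (Sum.inr j)) with hF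
  have hFC : ∀ j, ContDiffOn ℝ (l : ℕ) (F j) V := by
    intro j
    have h1 : ContDiffOn ℝ (l : ℕ) (fun y => f (g y)) V :=
      hf.comp hg fun y hy => hball (hgball y hy)
    exact (EuclideanSpace.proj (E (Sum.inr j)) : EuclideanSpace ℝ (Fin (d + m + 1)) →L[ℝ] ℝ).contDiff.comp_contDiffOn h1
  obtain ⟨O, hOball, hOo, hOn, hOx⟩ := hgO V subset_rfl hVo hVn
  have hfa : ∀ x ∈ O, ContDiffAt ℝ (l : ℕ) f x := fun x hx =>
    hf.contDiffAt (hU.mem_nhds (hball (hOball hx)))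
  obtain ⟨x₁, hx₁, htop⟩ : ∃ x₁ ∈ O, Submodule.span ℝ {y : EuclideanSpace ℝ (Fin (d + m + 1)) |
      ∃ k : ℕ, 1 ≤ k ∧ k ≤ l ∧
        ∃ w : Fin k → EuclideanSpace ℝ (Fin d), y = iteratedFDeriv ℝ k f x₁ w} = ⊤ := by
    by_contra hcon
    push Not at hcon
    rw [MeasureTheory.ae_restrict_iff' hU.measurableSet] at hspan
    have hzero : MeasureTheory.volume O = 0 := by
      apply MeasureTheory.measure_mono_null _ hspan
      intro x hx hcon'
      exact hcon x hx (hcon' (hball (hOball hx)))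
    exact (hOo.measure_pos MeasureTheory.volume hOn).ne' hzero
  have hnd : ∀ z : Fin M → ℝ, z ≠ 0 → ∃ I : List (Fin d), 2 ≤ I.length ∧ I.length ≤ l ∧
      ∑ j, z j * pds I (F j) (fun s => f x₁ (E (Sum.inl s))) ≠ 0 := fun z hz =>
    f3_nondeg E hVo hFC hOo hfa hOx hx₁ htop z hz
  have hl2 : 2 ≤ l := by
    obtain ⟨I, h1, h2, _⟩ := hnd (fun _ => 1) (by
      intro h0
      have := congrFun h0 ⟨0, by omega⟩
      simp at this)
    exact h1.trans h2
  obtain ⟨C₁, C₂, Q₀, hC₁, hC₂, hcount⟩ := H d M l (by omega) hM1 hl2 V hVo F hFC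
    (fun s => f x₁ (E (Sum.inl s))) (hOx x₁ hx₁).1 hnd
  have hM0 : (0 : ℝ) < M := by exact_mod_cast hM1
  refine ⟨C₁ / M ^ M, M * C₂, by positivity, by positivity, max Q₀ 1, ?_⟩
  intro Q ψ hQ hψ1 hψ2
  have hQ1 : 1 ≤ Q := (le_max_right _ _).trans hQ
  have hQp : 0 < Q := by linarith
  have hcast : ((d + m + 1 : ℕ) : ℝ) - (d : ℝ) = M := by
    rw [hM]
    push_cast
    ring
  rw [hcast] at hψ1
  have hrp : 0 < Q ^ (-(1 : ℝ) / M) := Real.rpow_pos_of_pos hQp _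
  have hψ0 : 0 < ψ := lt_trans (by positivity) hψ1
  have hψ' : C₂ * Q ^ (-(1 : ℝ) / M) < ψ / M := by
    rw [lt_div_iff₀ hM0]
    linarith
  have hcond : C₂ ^ M < (ψ / M) ^ M * Q := by
    have h1 : (C₂ * Q ^ (-(1 : ℝ) / M)) ^ M < (ψ / M) ^ M :=
      pow_lt_pow_left₀ hψ' (by positivity) (by omega)
    have h2 : (Q ^ (-(1 : ℝ) / M)) ^ M = Q⁻¹ := by
      rw [← Real.rpow_natCast, ← Real.rpow_mul hQp.le, div_mul_cancel₀ _ hM0.ne',
        Real.rpow_neg_one]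
    rw [mul_pow, h2] at h1
    have h3 := mul_lt_mul_of_pos_right h1 hQp
    rwa [mul_assoc, inv_mul_cancel₀ hQp.ne', mul_one] at h3
  obtain ⟨S, hS, hScard⟩ := hcount Q (ψ / M) ((le_max_left _ _).trans hQ) (by positivity)
    (by
      rw [div_lt_one hM0]
      have : (1 : ℝ) ≤ M := by exact_mod_cast hM1
      linarith) hcond
  -- the rational points
  set Ψ : (Fin d → ℤ) × (Fin M → ℤ) × ℕ → (Fin (d + m + 1) → ℤ) × ℕ :=
    fun s => (fun i => Sum.elim s.1 s.2.1 (E.symm i), s.2.2) with hΨ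
  have hΨinj : Function.Injective Ψ := by
    rintro ⟨a, p, q⟩ ⟨a', p', q'⟩ h
    rw [hΨ] at h
    simp only [Prod.mk.injEq] at h
    obtain ⟨h1, h2⟩ := h
    have ha : a = a' := by
      funext s
      have := congrFun h1 (E (Sum.inl s))
      simpa using this
    have hp : p = p' := by
      funext s
      have := congrFun h1 (E (Sum.inr s))
      simpa using this
    rw [ha, hp, h2]
  have hfin := fin_finite (n := d + m + 1) hf.continuousOn hr hcball hQ1 hψ2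
  have hsub : ((S.image Ψ : Finset _) : Set ((Fin (d + m + 1) → ℤ) × ℕ)) ⊆
      {pq : (Fin (d + m + 1) → ℤ) × ℕ | 1 ≤ pq.2 ∧ (pq.2 : ℝ) ≤ Q ∧
          Metric.infDist ((EuclideanSpace.equiv (Fin (d + m + 1)) ℝ).symm
            (fun i => (pq.1 i : ℝ) / (pq.2 : ℝ)))
            (f '' Metric.ball x₀ r) ≤ ψ / (pq.2 : ℝ)} := by
    intro pq hpq
    rw [Finset.mem_coe, Finset.mem_image] at hpq
    obtain ⟨⟨a, p, q⟩, hs, rfl⟩ := hpq
    obtain ⟨h1, h2, h3, h4⟩ := hS _ hs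
    simp only at h1 h2 h3 h4
    refine ⟨h1, h2, ?_⟩
    have hq0 : (0 : ℝ) < q := by
      have : (1 : ℝ) ≤ q := by exact_mod_cast h1
      linarith
    set y : Fin d → ℝ := fun a_1 => (a a_1 : ℝ) / q with hy
    have hmem : f (g y) ∈ f '' Metric.ball x₀ r := ⟨g y, hgball y h3, rfl⟩
    refine (Metric.infDist_le_dist_of_mem hmem).trans ?_
    rw [dist_eq_norm]
    refine fin_norm_le (by positivity) hM1 ?_
    rw [← E.sum_comp, Fintype.sum_sum_type]
    have h5 : ∀ s : Fin d, (((EuclideanSpace.equiv (Fin (d + m + 1)) ℝ).symm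
        (fun i => (((Ψ (a, p, q)).1 i : ℤ) : ℝ) / (((Ψ (a, p, q)).2 : ℕ) : ℝ)) - f (g y))
        (E (Sum.inl s))) = 0 := by
      intro s
      have h6 := hge y h3 s
      show ((Sum.elim a p (E.symm (E (Sum.inl s))) : ℤ) : ℝ) / (q : ℝ) -
        f (g y) (E (Sum.inl s)) = 0
      rw [h6, Equiv.symm_apply_apply, Sum.elim_inl, hy]
      ring
    have h7 : ∀ j : Fin M, (((EuclideanSpace.equiv (Fin (d + m + 1)) ℝ).symm
        (fun i => (((Ψ (a, p, q)).1 i : ℤ) : ℝ) / (((Ψ (a, p, q)).2 : ℕ) : ℝ)) - f (g y))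
        (E (Sum.inr j))) ^ 2 ≤ (ψ / q / M) ^ 2 := by
      intro j
      have h8 := h4 j
      show (((Sum.elim a p (E.symm (E (Sum.inr j))) : ℤ) : ℝ) / (q : ℝ) -
        f (g y) (E (Sum.inr j))) ^ 2 ≤ _
      rw [Equiv.symm_apply_apply, Sum.elim_inr]
      apply sq_le_sq'
      · have := (abs_le.mp h8).2
        have h9 : ψ / M / (q : ℝ) = ψ / q / M := by ring
        rw [h9] at this
        have h10 : F j y = f (g y) (E (Sum.inr j)) := rfl
        linarith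
      · have := (abs_le.mp h8).1
        have h9 : ψ / M / (q : ℝ) = ψ / q / M := by ring
        rw [h9] at this
        have h10 : F j y = f (g y) (E (Sum.inr j)) := rfl
        linarith
    have h11 : ∑ s : Fin d, ((((EuclideanSpace.equiv (Fin (d + m + 1)) ℝ).symm
        (fun i => (((Ψ (a, p, q)).1 i : ℤ) : ℝ) / (((Ψ (a, p, q)).2 : ℕ) : ℝ)) - f (g y))
        (E (Sum.inl s)))) ^ 2 = 0 := by
      apply Finset.sum_eq_zero
      intro s _
      rw [h5 s]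
      norm_num
    have h12 := Finset.sum_le_card_nsmul Finset.univ _ _ (fun j _ => h7 j)
    rw [Finset.card_univ, Fintype.card_fin, nsmul_eq_mul] at h12
    rw [h11, zero_add]
    exact h12
  have hncard : S.card ≤ {pq : (Fin (d + m + 1) → ℤ) × ℕ | 1 ≤ pq.2 ∧ (pq.2 : ℝ) ≤ Q ∧
          Metric.infDist ((EuclideanSpace.equiv (Fin (d + m + 1)) ℝ).symm
            (fun i => (pq.1 i : ℝ) / (pq.2 : ℝ)))
            (f '' Metric.ball x₀ r) ≤ ψ / (pq.2 : ℝ)}.ncard := by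
    rw [← Finset.card_image_of_injective S hΨinj, ← Set.ncard_coe_finset]
    exact Set.ncard_le_ncard hsub hfin
  refine le_trans (le_of_eq ?_) (hScard.trans (by exact_mod_cast hncard))
  rw [div_pow]
  ring

end Pool.Agent.Lib.MP_a37012_nt
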