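import Pool.Agent.Lib.MP_a37012_nt.Mg.G001

/-!
# Quantitative nondivergence for polynomial matrices on dyadic cubes
-/

set_option autoImplicit false

open MeasureTheory MvPolynomial

namespace Pool.Agent.Lib.MP_a37012_nt

/-- The columns of an integer matrix as rational vectors. -/
def kmCol {ι : Type} {r : ℕ} (B : Matrix ι (Fin r) ℤ) : Fin r → (ι → ℚ) := fun t a => (B a t : ℚ)

/-- The columns of `B` form a basis of the subspace `W`. -/
def KMat {ι : Type} (W : Submodule ℚ (ι → ℚ)) {r : ℕ} (B : Matrix ι (Fin r) ℤ) : Prop :=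
  LinearIndependent ℚ (kmCol B) ∧ Submodule.span ℚ (Set.range (kmCol B)) = W

/-- The minor with rows `e` of `H(x) B`. -/
noncomputable def kmMin {d : ℕ} {ι : Type} [Fintype ι] {r : ℕ}
    (H : Matrix ι ι (MvPolynomial (Fin d) ℝ)) (B : Matrix ι (Fin r) ℤ) (e : Fin r → ι)
    (x : Fin d → ℝ) : ℝ :=
  ((evalM H x * toR B).submatrix e id).det

/-- For some integer basis of `W` all minors at `x` are smaller than `t`. -/
def KSmall {d : ℕ} {ι : Type} [Fintype ι] (H : Matrix ι ι (MvPolynomial (Fin d) ℝ))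
    (W : Submodule ℚ (ι → ℚ)) (t : ℝ) (x : Fin d → ℝ) : Prop :=
  ∃ (r : ℕ) (B : Matrix ι (Fin r) ℤ), KMat W B ∧ ∀ e : Fin r → ι, |kmMin H B e x| < t

/-- The inclusion of integer vectors into rational vectors. -/
def kmCast (ι : Type) : (ι → ℤ) →ₗ[ℤ] (ι → ℚ) where
  toFun c a := (c a : ℚ)
  map_add' c c' := by
    funext a
    simp
  map_smul' n c := by
    funext a
    simp

lemma kmCast_ker (ι : Type) : LinearMap.ker (kmCast ι) = ⊥ := by
  rw [LinearMap.ker_eq_bot]
  intro c c' h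
  funext a
  have := congrFun h a
  simpa [kmCast] using this

lemma km_clear {ι : Type} [Fintype ι] (w : ι → ℚ) :
    ∃ (n : ℕ) (c : ι → ℤ), n ≠ 0 ∧ ∀ a, (n : ℚ) * w a = c a := by
  classical
  refine ⟨∏ a, (w a).den, fun a => (∏ s ∈ Finset.univ.erase a, (w s).den : ℕ) * (w a).num,
    Finset.prod_ne_zero_iff.mpr fun t _ => (w t).den_nz, fun a => ?_⟩
  rw [← Finset.mul_prod_erase Finset.univ _ (Finset.mem_univ a)]
  push_cast
  have := Rat.den_mul_eq_num (w a)
  linear_combination (∏ s ∈ Finset.univ.erase a, ((w s).den : ℚ)) * this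

/-- A lattice basis of the integer points of `W`. -/
lemma km_basis {ι : Type} [Fintype ι] (W : Submodule ℚ (ι → ℚ)) :
    ∃ (r : ℕ) (B₀ : Matrix ι (Fin r) ℤ), KMat W B₀ ∧
      ∀ B : Matrix ι (Fin r) ℤ, (∀ t, kmCol B t ∈ W) →
        ∃ R : Matrix (Fin r) (Fin r) ℤ, B = B₀ * R := by
  classical
  set L : Submodule ℤ (ι → ℤ) := (W.restrictScalars ℤ).comap (kmCast ι) with hL
  obtain ⟨r, β⟩ := Submodule.basisOfPid (Pi.basisFun ℤ ι) L
  refine ⟨r, Matrix.of fun a t => (β t : ι → ℤ) a, ⟨?_, ?_⟩, ?_⟩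
  · have h1 : LinearIndependent ℤ (fun t => kmCast ι ((β t : ι → ℤ))) :=
      (β.linearIndependent.map' L.subtype L.ker_subtype).map' (kmCast ι) (kmCast_ker ι)
    exact (LinearIndependent.iff_fractionRing ℤ ℚ).mp h1
  · apply le_antisymm
    · rw [Submodule.span_le]
      rintro _ ⟨t, rfl⟩
      exact (β t).2
    · intro w hw
      obtain ⟨n, c, hn, hc⟩ := km_clear w
      have hnq : (n : ℚ) ≠ 0 := by exact_mod_cast hn
      have hcw : kmCast ι c = (n : ℚ) • w := by
        funext a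
        rw [Pi.smul_apply, smul_eq_mul, hc a]
        rfl
      have hcL : c ∈ L := by
        change kmCast ι c ∈ W
        rw [hcw]
        exact W.smul_mem _ hw
      have hsum : kmCast ι c = ∑ t, ((β.repr ⟨c, hcL⟩ t : ℤ) : ℚ) •
          kmCol (Matrix.of fun a t => (β t : ι → ℤ) a) t := by
        have h1 : c = ∑ t, β.repr ⟨c, hcL⟩ t • (β t : ι → ℤ) := by
          calc c = L.subtype ⟨c, hcL⟩ := rfl
            _ = L.subtype (∑ t, β.repr ⟨c, hcL⟩ t • β t) := by rw [β.sum_repr]
            _ = ∑ t, β.repr ⟨c, hcL⟩ t • (β t : ι → ℤ) := by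
              rw [map_sum]
              exact Finset.sum_congr rfl fun t _ => by rw [map_smul]; rfl
        conv_lhs => rw [h1]
        rw [map_sum]
        refine Finset.sum_congr rfl fun t _ => ?_
        funext a
        simp [kmCast, kmCol]
      have hmem : kmCast ι c ∈ Submodule.span ℚ
          (Set.range (kmCol (Matrix.of fun a t => (β t : ι → ℤ) a))) := by
        rw [hsum]
        exact Submodule.sum_mem _ fun t _ => Submodule.smul_mem _ _
          (Submodule.subset_span ⟨t, rfl⟩)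
      have hw' : w = (n : ℚ)⁻¹ • kmCast ι c := by
        rw [hcw, smul_smul, inv_mul_cancel₀ hnq, one_smul]
      rw [hw']
      exact Submodule.smul_mem _ _ hmem
  · intro B hB
    have hBL : ∀ t, (fun a => B a t) ∈ L := fun t => hB t
    refine ⟨Matrix.of fun s t => β.repr ⟨fun a => B a t, hBL t⟩ s, ?_⟩
    ext a t
    rw [Matrix.mul_apply]
    have h2 := congrArg (Subtype.val) (β.sum_repr ⟨fun a => B a t, hBL t⟩)
    have h3 := congrFun h2 a
    simp only [Submodule.coe_sum, Submodule.coe_smul, Finset.sum_apply, Pi.smul_apply,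
      smul_eq_mul] at h3
    rw [← h3]
    exact Finset.sum_congr rfl fun s _ => by
      simp only [Matrix.of_apply]
      ring

/-- An integer matrix with independent columns times a square matrix: the latter is
nonsingular. -/
lemma km_det_ne_zero {ι : Type} {r : ℕ} (B₀ : Matrix ι (Fin r) ℤ)
    (R : Matrix (Fin r) (Fin r) ℤ) (h : LinearIndependent ℚ (kmCol (B₀ * R))) : R.det ≠ 0 := by
  intro h0
  obtain ⟨v, hv, hRv⟩ := Matrix.exists_mulVec_eq_zero_iff.mpr h0
  apply hv
  have h1 : ∑ t, ((v t : ℤ) : ℚ) • kmCol (B₀ * R) t = 0 := by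
    funext a
    have h2 : ∑ t, (B₀ * R) a t * v t = 0 := by
      have h3 : (B₀ * R).mulVec v = 0 := by
        rw [← Matrix.mulVec_mulVec, hRv, Matrix.mulVec_zero]
      exact congrFun h3 a
    rw [Finset.sum_apply]
    have h4 : ((∑ t, (B₀ * R) a t * v t : ℤ) : ℚ) = 0 := by rw [h2]; simp
    push_cast at h4
    rw [Pi.zero_apply, ← h4]
    refine Finset.sum_congr rfl fun t _ => ?_
    simp only [Pi.smul_apply, smul_eq_mul, kmCol]
    ring
  have h5 := Fintype.linearIndependent_iff.mp h (fun t => ((v t : ℤ) : ℚ)) h1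
  funext t
  exact_mod_cast h5 t

lemma km_card_unique {ι : Type} {W : Submodule ℚ (ι → ℚ)} {r r' : ℕ}
    {B : Matrix ι (Fin r) ℤ} {B' : Matrix ι (Fin r') ℤ} (h : KMat W B) (h' : KMat W B') :
    r = r' := by
  have h1 := finrank_span_eq_card h.1
  have h2 := finrank_span_eq_card h'.1
  rw [h.2, Fintype.card_fin] at h1
  rw [h'.2, Fintype.card_fin] at h2
  omega

lemma km_small_iff {d : ℕ} {ι : Type} [Fintype ι] (H : Matrix ι ι (MvPolynomial (Fin d) ℝ))
    {W : Submodule ℚ (ι → ℚ)} {r : ℕ} {B₀ : Matrix ι (Fin r) ℤ} (h₀ : KMat W B₀)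
    (hB₀ : ∀ B : Matrix ι (Fin r) ℤ, (∀ t, kmCol B t ∈ W) →
        ∃ R : Matrix (Fin r) (Fin r) ℤ, B = B₀ * R) (t : ℝ) (x : Fin d → ℝ) :
    KSmall H W t x ↔ ∀ e, |kmMin H B₀ e x| < t := by
  constructor
  · rintro ⟨r', B, hB, hs⟩
    obtain rfl := km_card_unique h₀ hB
    obtain ⟨R, rfl⟩ := hB₀ B (fun t => by
      rw [← hB.2]
      exact Submodule.subset_span ⟨t, rfl⟩)
    have hdet := km_det_ne_zero B₀ R hB.1
    intro e
    refine lt_of_le_of_lt ?_ (hs e)
    have h1 : kmMin H (B₀ * R) e x = kmMin H B₀ e x * ((R.det : ℤ) : ℝ) := by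
      unfold kmMin
      have h2 : toR (B₀ * R) = toR B₀ * toR R := by
        unfold toR
        ext a t
        simp [Matrix.mul_apply]
      have h3 : (evalM H x * toR (B₀ * R)).submatrix e id =
          (evalM H x * toR B₀).submatrix e id * toR R := by
        rw [h2, ← Matrix.mul_assoc]
        rfl
      rw [h3, Matrix.det_mul]
      congr 1
      unfold toR
      exact ((Int.castRingHom ℝ).map_det R).symm
    rw [h1, abs_mul]
    have h4 : (1 : ℝ) ≤ |((R.det : ℤ) : ℝ)| := by
      rw [← Int.cast_abs]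
      exact_mod_cast Int.one_le_abs hdet
    exact le_mul_of_one_le_right (abs_nonneg _) h4
  · exact fun h => ⟨r, B₀, h₀, h⟩

/-- Adding a vector with small image. -/
lemma km_fact {d : ℕ} {ι : Type} [Fintype ι] (H : Matrix ι ι (MvPolynomial (Fin d) ℝ))
    {W : Submodule ℚ (ι → ℚ)} {r : ℕ} {B₀ : Matrix ι (Fin r) ℤ} (h₀ : KMat W B₀)
    {x : Fin d → ℝ} (h1 : ∀ e, |kmMin H B₀ e x| ≤ 1) {c : ι → ℤ} (hc : kmCast ι c ∉ W) {δ : ℝ}
    (hδ : ∀ a, |(evalM H x).mulVec (fun b => (c b : ℝ)) a| < δ) :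
    KSmall H (W ⊔ Submodule.span ℚ {kmCast ι c}) ((r + 1 : ℕ) * δ) x := by
  classical
  set B' : Matrix ι (Fin (r + 1)) ℤ := Matrix.of fun a => Fin.cons (c a) (B₀ a) with hB'
  have hcol : kmCol B' = Fin.cons (kmCast ι c) (kmCol B₀) := by
    funext t
    refine Fin.cases ?_ (fun s => ?_) t
    · funext a
      simp [kmCol, hB', kmCast]
    · funext a
      simp [kmCol, hB']
  refine ⟨r + 1, B', ⟨?_, ?_⟩, ?_⟩
  · rw [hcol, linearIndependent_finCons, h₀.2]
    exact ⟨h₀.1, hc⟩
  · rw [hcol, Fin.range_cons, Submodule.span_insert, h₀.2, sup_comm]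
  · intro e
    unfold kmMin
    rw [Matrix.det_succ_column_zero]
    refine (Finset.abs_sum_le_sum_abs _ _).trans_lt ?_
    have hterm : ∀ i : Fin (r + 1),
        |(-1) ^ (i : ℕ) * ((evalM H x * toR B').submatrix e id) i 0 *
          (((evalM H x * toR B').submatrix e id).submatrix i.succAbove Fin.succ).det| < δ := by
      intro i
      have e1 : ((evalM H x * toR B').submatrix e id) i 0 =
          (evalM H x).mulVec (fun b => (c b : ℝ)) (e i) := by
        simp [Matrix.mul_apply, Matrix.mulVec, dotProduct, toR, hB']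
      have e2 : ((evalM H x * toR B').submatrix e id).submatrix i.succAbove Fin.succ =
          (evalM H x * toR B₀).submatrix (e ∘ i.succAbove) id := by
        ext a t
        simp [Matrix.mul_apply, toR, hB']
      rw [e1, e2, abs_mul, abs_mul, abs_pow, abs_neg, abs_one, one_pow, one_mul]
      calc |(evalM H x).mulVec (fun b => (c b : ℝ)) (e i)| *
            |((evalM H x * toR B₀).submatrix (e ∘ i.succAbove) id).det|
          ≤ |(evalM H x).mulVec (fun b => (c b : ℝ)) (e i)| * 1 :=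
            mul_le_mul_of_nonneg_left (h1 _) (abs_nonneg _)
        _ < δ := by rw [mul_one]; exact hδ _
    calc ∑ i : Fin (r + 1), |(-1) ^ (i : ℕ) * ((evalM H x * toR B').submatrix e id) i 0 *
          (((evalM H x * toR B').submatrix e id).submatrix i.succAbove Fin.succ).det|
        < ∑ _i : Fin (r + 1), δ :=
          Finset.sum_lt_sum_of_nonempty Finset.univ_nonempty fun i _ => hterm i
      _ = (r + 1 : ℕ) * δ := by
          rw [Finset.sum_const, Finset.card_univ, Fintype.card_fin, nsmul_eq_mul]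

/-- The minors are values of polynomials of bounded degree. -/
lemma km_minor_poly {d : ℕ} {ι : Type} [Fintype ι] (D : ℕ)
    (H : Matrix ι ι (MvPolynomial (Fin d) ℝ)) (hH : ∀ a b, (H a b).totalDegree ≤ D) {r : ℕ}
    (B : Matrix ι (Fin r) ℤ) (e : Fin r → ι) :
    ∃ p : MvPolynomial (Fin d) ℝ, p.totalDegree ≤ r * D ∧ ∀ x, kmMin H B e x = eval x p := by
  classical
  set Q : Matrix ι (Fin r) (MvPolynomial (Fin d) ℝ) :=
    Matrix.of fun a t => ∑ b, H a b * C ((B b t : ℝ)) with hQ
  have hQdeg : ∀ a t, (Q a t).totalDegree ≤ D := by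
    intro a t
    rw [hQ, Matrix.of_apply]
    refine totalDegree_finsetSum_le fun b _ => ?_
    refine (totalDegree_mul _ _).trans ?_
    rw [totalDegree_C, add_zero]
    exact hH a b
  refine ⟨(Q.submatrix e id).det, ?_, ?_⟩
  · rw [Matrix.det_apply]
    refine totalDegree_finsetSum_le fun σ _ => ?_
    have h1 : (Equiv.Perm.sign σ • ∏ i, (Q.submatrix e id) (σ i) i).totalDegree ≤
        (∏ i, (Q.submatrix e id) (σ i) i).totalDegree := by
      rcases Int.units_eq_one_or (Equiv.Perm.sign σ) with h | h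
      · rw [h, one_smul]
      · rw [h, Units.neg_smul, one_smul, totalDegree_neg]
    refine h1.trans ((totalDegree_finsetProd _ _).trans ?_)
    calc ∑ i : Fin r, ((Q.submatrix e id) (σ i) i).totalDegree ≤ ∑ _i : Fin r, D :=
          Finset.sum_le_sum fun i _ => hQdeg _ _
      _ = r * D := by rw [Finset.sum_const, Finset.card_univ, Fintype.card_fin, smul_eq_mul]
  · intro x
    unfold kmMin
    rw [RingHom.map_det]
    congr 1
    ext i t
    simp [hQ, Matrix.mul_apply, evalM, toR]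

/-- The conclusion of the Remez type inequality in dimension `d` for degree `D`. -/
def KRemez (d D : ℕ) : Prop := ∀ η : ℝ, 0 < η → ∃ ε : ℝ, 0 < ε ∧
    ∀ p : MvPolynomial (Fin d) ℝ, p.totalDegree ≤ D → ∀ (j : ℕ) (k : Fin d → ℤ),
      (∃ x ∈ cube j k, 1 ≤ |eval x p|) →
      volume {x | x ∈ cube j k ∧ |eval x p| < ε} ≤ ENNReal.ofReal η * volume (cube j k)

/-- Quantitative nondivergence, given the Remez type inequality. -/
theorem km_of_remez (d D : ℕ) (ι : Type) [Fintype ι] [DecidableEq ι]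
    (hrem : KRemez d (Fintype.card ι * D)) (η : ℝ) (hη : 0 < η) :
    ∃ ε : ℝ, 0 < ε ∧ ∀ H : Matrix ι ι (MvPolynomial (Fin d) ℝ),
      (∀ a b, (H a b).totalDegree ≤ D) → ∀ (j : ℕ) (k : Fin d → ℤ),
      (∀ (r : ℕ) (B : Matrix ι (Fin r) ℤ), LinearIndependent ℤ (fun t : Fin r => fun a => B a t) →
        ∃ x ∈ cube j k, ∃ e : Fin r → ι, 1 ≤ |((evalM H x * toR B).submatrix e id).det|) →
      volume {x | x ∈ cube j k ∧ ∃ c : ι → ℤ, c ≠ 0 ∧
        ∀ a, |(evalM H x).mulVec (fun b => (c b : ℝ)) a| < ε} ≤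
        ENNReal.ofReal η * volume (cube j k) := by
  classical
  set N := Fintype.card ι with hN
  set K : ℝ := (kmC d (N + 1)).toReal with hK
  have hK0 : 0 ≤ K := ENNReal.toReal_nonneg
  obtain ⟨ε₀, hε₀, hR⟩ := hrem (η / (K + 1)) (by positivity)
  set ε₁ := min ε₀ 1 with hε₁
  have hε₁0 : 0 < ε₁ := lt_min hε₀ one_pos
  refine ⟨ε₁ / (N + 1), by positivity, ?_⟩
  intro H hH j k hsub
  choose rr BB hBB hBmin using fun W : Submodule ℚ (ι → ℚ) => km_basis W
  have hrr : ∀ W : Submodule ℚ (ι → ℚ), rr W = Module.finrank ℚ W := by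
    intro W
    have h1 := finrank_span_eq_card (hBB W).1
    rw [(hBB W).2, Fintype.card_fin] at h1
    exact h1.symm
  have hrN : ∀ W : Submodule ℚ (ι → ℚ), rr W ≤ N := by
    intro W
    rw [hrr, hN, ← Module.finrank_fintype_fun_eq_card (R := ℚ) (η := ι)]
    exact Submodule.finrank_le W
  have hrk : StrictMono rr := by
    intro W W' h
    rw [hrr, hrr]
    exact Submodule.finrank_lt_finrank_of_lt h
  set U : Submodule ℚ (ι → ℚ) → Set (Fin d → ℝ) := fun W => {x | KSmall H W 1 x} with hU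
  set V : Submodule ℚ (ι → ℚ) → Set (Fin d → ℝ) := fun W => {x | KSmall H W ε₁ x} with hV
  have hUiff : ∀ W x, x ∈ U W ↔ ∀ e, |kmMin H (BB W) e x| < 1 :=
    fun W x => km_small_iff H (hBB W) (hBmin W) 1 x
  have hVsub : ∀ W x, x ∈ V W → ∀ e, |kmMin H (BB W) e x| < ε₁ :=
    fun W x => (km_small_iff H (hBB W) (hBmin W) ε₁ x).mp
  have hUopen : ∀ W, IsOpen (U W) := by
    intro W
    have h1 : U W = ⋂ e, {x | |kmMin H (BB W) e x| < 1} := by
      ext x
      rw [hUiff, Set.mem_iInter]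
      rfl
    rw [h1]
    refine isOpen_iInter_of_finite fun e => ?_
    obtain ⟨p, -, hp⟩ := km_minor_poly D H hH (BB W) e
    have h2 : Continuous fun x => |kmMin H (BB W) e x| := by
      simp only [hp]
      exact (MvPolynomial.continuous_eval p).abs
    exact isOpen_lt h2 continuous_const
  have hrem' : ∀ (W : Submodule ℚ (ι → ℚ)) (j : ℕ) (k : Fin d → ℤ), (∃ x ∈ cube j k, x ∉ U W) →
      volume {x | x ∈ cube j k ∧ x ∈ V W} ≤
        ENNReal.ofReal (η / (K + 1)) * volume (cube j k) := by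
    rintro W j k ⟨x, hx, hxU⟩
    rw [hUiff] at hxU
    push Not at hxU
    obtain ⟨e, he⟩ := hxU
    obtain ⟨p, hpd, hp⟩ := km_minor_poly D H hH (BB W) e
    refine (measure_mono ?_).trans (hR p (hpd.trans (Nat.mul_le_mul_right D (hrN W))) j k
      ⟨x, hx, by rw [← hp]; exact he⟩)
    rintro y ⟨hy, hyV⟩
    refine ⟨hy, ?_⟩
    rw [← hp]
    exact (hVsub W y hyV e).trans_le (min_le_left _ _)
  have hmain := km_abstract rr hrk N hrN U V hUopen (ENNReal.ofReal (η / (K + 1))) hrem' (N + 1)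
    ∅ (by simp) (by simp) j k (by
      intro W _ _
      obtain ⟨x, hx, e, he⟩ := hsub (rr W) (BB W) (by
        have h1 : LinearIndependent ℤ (kmCol (BB W)) :=
          (LinearIndependent.iff_fractionRing ℤ ℚ).mpr (hBB W).1
        have h2 : kmCol (BB W) = kmCast ι ∘ (fun t : Fin (rr W) => fun a => BB W a t) := rfl
        rw [h2] at h1
        exact LinearIndependent.of_comp _ h1)
      refine ⟨x, hx, ?_⟩
      rw [hUiff]
      push Not
      exact ⟨e, he⟩)
  have hfin : kmC d (N + 1) * ENNReal.ofReal (η / (K + 1)) ≤ ENNReal.ofReal η := by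
    rw [← ENNReal.ofReal_toReal (kmC_ne_top d (N + 1)), ← hK, ← ENNReal.ofReal_mul hK0]
    apply ENNReal.ofReal_le_ofReal
    rw [mul_div_assoc', div_le_iff₀ (by positivity)]
    nlinarith
  refine (measure_mono ?_).trans (hmain.trans (mul_le_mul_left hfin _))
  rintro x ⟨hx, c, hc0, hc⟩
  refine ⟨hx, ?_⟩
  rintro ⟨S', -, hchain, hin, hout⟩
  -- the largest subspace of the chain not containing `c`
  have hcast0 : kmCast ι c ≠ 0 := by
    intro h0
    apply hc0
    have h1 : c ∈ LinearMap.ker (kmCast ι) := h0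
    rw [kmCast_ker] at h1
    exact h1
  set 𝒜 : Set (Submodule ℚ (ι → ℚ)) := {W | (W = ⊥ ∨ W ∈ S') ∧ kmCast ι c ∉ W} with h𝒜
  have hbot : (⊥ : Submodule ℚ (ι → ℚ)) ∈ 𝒜 :=
    ⟨Or.inl rfl, fun h => hcast0 ((Submodule.mem_bot ℚ).mp h)⟩
  obtain ⟨W, hW𝒜, hWmax⟩ : ∃ W ∈ 𝒜, ∀ W' ∈ 𝒜, rr W' ≤ rr W := by
    have hbdd : BddAbove (rr '' 𝒜) := ⟨N, by rintro _ ⟨W, -, rfl⟩; exact hrN W⟩
    have hne : (rr '' 𝒜).Nonempty := ⟨_, ⊥, hbot, rfl⟩
    obtain ⟨W, hW, hWe⟩ := Nat.sSup_mem hne hbdd
    refine ⟨W, hW, fun W' hW' => ?_⟩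
    rw [hWe]
    exact le_csSup hbdd ⟨W', hW', rfl⟩
  have hWle : ∀ e, |kmMin H (BB W) e x| ≤ 1 := by
    rcases hW𝒜.1 with hb | hS
    · have hr0 : rr W = 0 := by rw [hrr, hb, finrank_bot]
      intro e
      have : IsEmpty (Fin (rr W)) := by rw [hr0]; exact Fin.isEmpty
      unfold kmMin
      rw [Matrix.det_isEmpty, abs_one]
    · exact fun e => ((hUiff W x).mp (hin W hS (by simp)).1 e).le
  have hWc : kmCast ι c ∉ W := hW𝒜.2
  have hsmall := km_fact H (hBB W) hWle hWc hc
  set W' := W ⊔ Submodule.span ℚ {kmCast ι c} with hW'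
  have hnotV : x ∉ V W' := by
    by_cases hW'S : W' ∈ S'
    · exact (hin W' hW'S (by simp)).2
    · have hcomp : ∀ T ∈ S', T ≤ W' ∨ W' ≤ T := by
        intro T hT
        by_cases hcT : kmCast ι c ∈ T
        · right
          have hWT : W ≤ T := by
            rcases hW𝒜.1 with hb | hS
            · rw [hb]; exact bot_le
            · by_cases hTW : T = W
              · exact absurd (hTW ▸ hcT) hWc
              · rcases hchain hT hS hTW with h1 | h1
                · exact absurd (h1 hcT) hWc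
                · exact h1
          rw [hW', sup_le_iff, Submodule.span_singleton_le_iff_mem]
          exact ⟨hWT, hcT⟩
        · left
          have hTW : T ≤ W := by
            have hTr := hWmax T ⟨Or.inr hT, hcT⟩
            rcases hW𝒜.1 with hb | hS
            · have : rr T ≤ 0 := by
                refine hTr.trans ?_
                rw [hrr, hb, finrank_bot]
              have h2 : Module.finrank ℚ T = 0 := by rw [← hrr]; omega
              rw [Submodule.finrank_eq_zero.mp h2]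
              exact bot_le
            · by_cases hTW : T = W
              · exact hTW.le
              · rcases hchain hT hS hTW with h1 | h1
                · exact h1
                · exact absurd hTr (not_le.mpr (hrk (lt_of_le_of_ne h1 (Ne.symm hTW))))
          exact hTW.trans le_sup_left
      have h1 := hout W' hW'S hcomp
      intro h2
      apply h1
      rw [hUiff]
      exact fun e => (hVsub W' x h2 e).trans_le (min_le_right _ _)
  apply hnotV
  change KSmall H W' ε₁ x
  obtain ⟨r', B', hB', hs'⟩ := hsmall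
  refine ⟨r', B', hB', fun e => (hs' e).trans_le ?_⟩
  have h1 : ((rr W + 1 : ℕ) : ℝ) ≤ N + 1 := by
    push_cast
    have : (rr W : ℝ) ≤ N := by exact_mod_cast hrN W
    linarith
  calc ((rr W + 1 : ℕ) : ℝ) * (ε₁ / (N + 1)) ≤ (N + 1) * (ε₁ / (N + 1)) :=
        mul_le_mul_of_nonneg_right h1 (by positivity)
    _ = ε₁ := by field_simp

/-- (KM) Quantitative nondivergence for polynomial matrices on dyadic cubes. -/
theorem km (d D : ℕ) (ι : Type) [Fintype ι] [DecidableEq ι] (η : ℝ) (hη : 0 < η) :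
    ∃ ε : ℝ, 0 < ε ∧ ∀ H : Matrix ι ι (MvPolynomial (Fin d) ℝ),
      (∀ a b, (H a b).totalDegree ≤ D) → ∀ (j : ℕ) (k : Fin d → ℤ),
      (∀ (r : ℕ) (B : Matrix ι (Fin r) ℤ), LinearIndependent ℤ (fun t : Fin r => fun a => B a t) →
        ∃ x ∈ cube j k, ∃ e : Fin r → ι, 1 ≤ |((evalM H x * toR B).submatrix e id).det|) →
      volume {x | x ∈ cube j k ∧ ∃ c : ι → ℤ, c ≠ 0 ∧
        ∀ a, |(evalM H x).mulVec (fun b => (c b : ℝ)) a| < ε} ≤
        ENNReal.ofReal η * volume (cube j k) :=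
  km_of_remez d D ι (fun η hη => remez d (Fintype.card ι * D) η hη) η hη

end Pool.Agent.Lib.MP_a37012_nt
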