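import Mathlib

set_option autoImplicit false

namespace Pool.Agent.Lib.MP_a37012_nt

theorem le_of_pow_le {u w : ℝ} (hu : 0 ≤ u) {n : ℕ} (hn : n ≠ 0) (h : w ^ n ≤ u ^ n) : w ≤ u :=
  le_of_pow_le_pow_left₀ hn hu h

/-- The choice of parameters. -/
theorem param (d m L : ℕ) (hm : 1 ≤ m) (hL : (m + 1) ^ 2 + 2 * d + 1 ≤ L) (A κ a : ℝ)
    (hA : 1 ≤ A) (hκ : 0 < κ) (ha : 1 ≤ a) :
    ∃ Q₀ : ℝ, 1 ≤ Q₀ ∧ ∀ Q K T ρ : ℝ, 1 ≤ K → 1 ≤ T → Q = A * K ^ d * T ^ m → Q₀ ≤ Q → 0 < ρ →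
      ρ ≤ 1 → Q * T * ρ ^ L ≤ 1 → 1 ≤ a * (Q * T * ρ ^ L) →
      1 ≤ κ * (K ^ d * T * ρ ^ (m + 1)) ∧
        (1 ≤ κ * (K * ρ) ∨ 1 ≤ κ * (T * ρ ^ (m + 1))) ∧ 1 ≤ Q * ρ := by
  set n : ℕ := m * (m + 1) with hn
  have hn0 : n ≠ 0 := by positivity
  -- the two thresholds for `ρ`
  set θ₁ : ℝ := κ ^ n * (1 / A ^ (m + 1) * (1 / a ^ m)) with hθ₁
  set θ₂ : ℝ := κ ^ n * (1 / A ^ (m + 1) * κ ^ (d * (m + 1)) * (1 / a ^ m)) with hθ₂
  have hA0 : 0 < A := by linarith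
  have ha0 : 0 < a := by linarith
  have hθ₁0 : 0 < θ₁ := by positivity
  have hθ₂0 : 0 < θ₂ := by positivity
  refine ⟨max (max 1 a) (max ((1 / θ₁) ^ L) ((1 / θ₂) ^ L)),
    (le_max_left _ _).trans (le_max_left _ _), ?_⟩
  intro Q K T ρ hK hT hQ hQ₀ hρ0 hρ1 hup hlow
  have hQ1 : 1 ≤ Q := ((le_max_left _ _).trans (le_max_left _ _)).trans hQ₀
  have hQa : a ≤ Q := ((le_max_right _ _).trans (le_max_left _ _)).trans hQ₀
  have hQθ₁ : (1 / θ₁) ^ L ≤ Q := ((le_max_left _ _).trans (le_max_right _ _)).trans hQ₀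
  have hQθ₂ : (1 / θ₂) ^ L ≤ Q := ((le_max_right _ _).trans (le_max_right _ _)).trans hQ₀
  have hK0 : 0 < K := by linarith
  have hT0 : 0 < T := by linarith
  have hQ0 : 0 < Q := by linarith
  have hL0 : L ≠ 0 := by omega
  have hKd : 1 ≤ K ^ d := one_le_pow₀ hK
  have hTm : T ^ m ≤ Q := by
    rw [hQ]
    have h1 : 1 ≤ A * K ^ d := one_le_mul_of_one_le_of_one_le hA hKd
    exact le_mul_of_one_le_left (by positivity) h1
  have hTQ : T ≤ Q := by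
    calc T = T ^ 1 := (pow_one T).symm
      _ ≤ T ^ m := pow_le_pow_right₀ hT hm
      _ ≤ Q := hTm
  have hρQ : ρ ^ L ≤ 1 / Q := by
    rw [le_div_iff₀ hQ0]
    calc ρ ^ L * Q ≤ ρ ^ L * (Q * T) := by
          gcongr
          nlinarith
      _ = Q * T * ρ ^ L := by ring
      _ ≤ 1 := hup
  have hρθ : ∀ θ : ℝ, 0 < θ → (1 / θ) ^ L ≤ Q → ρ ≤ θ := by
    intro θ hθ hQθ
    refine le_of_pow_le hθ.le hL0 (hρQ.trans ?_)
    rw [div_le_iff₀ hQ0]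
    calc 1 = θ ^ L * (1 / θ) ^ L := by rw [one_div, inv_pow]; field_simp
      _ ≤ θ ^ L * Q := by gcongr
  have hX : 1 / a ^ m ≤ Q ^ (m + 1) * ρ ^ (L * m) := by
    have h1 : 1 / a ≤ Q * T * ρ ^ L := by
      rw [div_le_iff₀ ha0]; linarith
    calc 1 / a ^ m = (1 / a) ^ m := by rw [one_div, one_div, inv_pow]
      _ ≤ (Q * T * ρ ^ L) ^ m := pow_le_pow_left₀ (by positivity) h1 m
      _ = Q ^ m * T ^ m * ρ ^ (L * m) := by rw [mul_pow, mul_pow, ← pow_mul]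
      _ ≤ Q ^ m * Q * ρ ^ (L * m) := by gcongr
      _ = _ := by rw [pow_succ]
  have hXs : ∀ s e : ℕ, s + e = L * m → 1 ≤ e → (1 / a ^ m) / ρ ≤ Q ^ (m + 1) * ρ ^ s := by
    intro s e hse he
    rw [div_le_iff₀ hρ0]
    calc 1 / a ^ m ≤ Q ^ (m + 1) * ρ ^ (L * m) := hX
      _ = Q ^ (m + 1) * ρ ^ s * ρ ^ e := by rw [← hse, pow_add]; ring
      _ ≤ Q ^ (m + 1) * ρ ^ s * ρ := by
          gcongr
          calc ρ ^ e ≤ ρ ^ 1 := pow_le_pow_of_le_one hρ0.le hρ1 he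
            _ = ρ := pow_one ρ
  have hdm : d ≤ d * m := Nat.le_mul_of_pos_right d hm
  have hLm : (m + 1) * n + 2 * (d * m) + m ≤ L * m := by
    have := Nat.mul_le_mul_right m hL
    rw [hn]
    nlinarith
  have hfinish : ∀ u c : ℝ, 0 ≤ u → 0 < c → c / ρ ≤ u ^ n → ρ ≤ κ ^ n * c → 1 ≤ κ * u := by
    intro u c hu hc h1 h2
    refine le_of_pow_le (by positivity) hn0 ?_
    rw [one_pow, mul_pow]
    calc (1 : ℝ) ≤ κ ^ n * (c / ρ) := by
          rw [← mul_div_assoc, le_div_iff₀ hρ0, one_mul]; exact h2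
      _ ≤ κ ^ n * u ^ n := by gcongr
  refine ⟨?_, ?_, ?_⟩
  · -- first bound
    refine hfinish _ (1 / A ^ (m + 1) * (1 / a ^ m)) (by positivity) (by positivity) ?_
      (hρθ θ₁ hθ₁0 hQθ₁)
    have h1 : (Q / A) ^ (m + 1) ≤ (K ^ d * T) ^ n := by
      rw [hn, pow_mul]
      refine pow_le_pow_left₀ (by positivity) ?_ _
      rw [hQ]
      calc A * K ^ d * T ^ m / A = K ^ d * T ^ m := by field_simp
        _ ≤ (K ^ d) ^ m * T ^ m := by
            gcongr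
            calc K ^ d = (K ^ d) ^ 1 := (pow_one _).symm
              _ ≤ (K ^ d) ^ m := pow_le_pow_right₀ hKd hm
        _ = (K ^ d * T) ^ m := by rw [mul_pow]
    have h2 := hXs ((m + 1) * n) (L * m - (m + 1) * n) (by omega) (by omega)
    calc 1 / A ^ (m + 1) * (1 / a ^ m) / ρ = 1 / A ^ (m + 1) * ((1 / a ^ m) / ρ) := by ring
      _ ≤ 1 / A ^ (m + 1) * (Q ^ (m + 1) * ρ ^ ((m + 1) * n)) := by gcongr
      _ = (Q / A) ^ (m + 1) * (ρ ^ (m + 1)) ^ n := by rw [div_pow, ← pow_mul]; ring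
      _ ≤ (K ^ d * T) ^ n * (ρ ^ (m + 1)) ^ n := by gcongr
      _ = _ := by rw [← mul_pow]
  · by_cases hc : 1 ≤ κ * (K * ρ)
    · exact Or.inl hc
    · right
      push Not at hc
      refine hfinish _ (1 / A ^ (m + 1) * κ ^ (d * (m + 1)) * (1 / a ^ m)) (by positivity)
        (by positivity) ?_ (hρθ θ₂ hθ₂0 hQθ₂)
      have h1 : (Q * (κ * ρ) ^ d / A) ^ (m + 1) ≤ T ^ n := by
        rw [hn, pow_mul]
        refine pow_le_pow_left₀ (by positivity) ?_ _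
        rw [hQ]
        calc A * K ^ d * T ^ m * (κ * ρ) ^ d / A = (κ * (K * ρ)) ^ d * T ^ m := by
              rw [mul_pow, mul_pow, mul_pow]; field_simp
          _ ≤ 1 ^ d * T ^ m := by gcongr
          _ = T ^ m := by rw [one_pow, one_mul]
      have h2 := hXs (d * (m + 1) + (m + 1) * n) (L * m - (d * (m + 1) + (m + 1) * n))
        (by
          have : d * (m + 1) = d * m + d := by ring
          omega)
        (by
          have : d * (m + 1) = d * m + d := by ring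
          omega)
      calc 1 / A ^ (m + 1) * κ ^ (d * (m + 1)) * (1 / a ^ m) / ρ
          = 1 / A ^ (m + 1) * κ ^ (d * (m + 1)) * ((1 / a ^ m) / ρ) := by ring
        _ ≤ 1 / A ^ (m + 1) * κ ^ (d * (m + 1)) *
            (Q ^ (m + 1) * ρ ^ (d * (m + 1) + (m + 1) * n)) := by gcongr
        _ = (Q * (κ * ρ) ^ d / A) ^ (m + 1) * (ρ ^ (m + 1)) ^ n := by
            rw [div_pow, mul_pow, ← pow_mul, ← pow_mul, mul_pow, pow_add]; ring
        _ ≤ T ^ n * (ρ ^ (m + 1)) ^ n := by gcongr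
        _ = _ := by rw [← mul_pow]
  · -- `Q ρ ≥ 1`
    refine le_of_pow_le (by positivity) hL0 ?_
    rw [one_pow, mul_pow]
    have hm2 : 4 ≤ (m + 1) ^ 2 := by nlinarith
    obtain ⟨L', hL'⟩ : ∃ L', L = L' + 3 := ⟨L - 3, by omega⟩
    have h1 : 1 ≤ a * (Q * Q * ρ ^ L) := by
      refine hlow.trans ?_
      gcongr
    have h2 : Q ^ L = Q ^ (L' + 1) * (Q * Q) := by rw [hL']; ring
    have h3 : a ≤ Q ^ (L' + 1) := by
      calc a ≤ Q := hQa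
        _ = Q ^ 1 := (pow_one Q).symm
        _ ≤ Q ^ (L' + 1) := pow_le_pow_right₀ hQ1 (by omega)
    calc (1 : ℝ) ≤ a * (Q * Q * ρ ^ L) := h1
      _ ≤ Q ^ (L' + 1) * (Q * Q * ρ ^ L) := by gcongr
      _ = _ := by rw [h2]; ring

end Pool.Agent.Lib.MP_a37012_nt
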