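import Pool.Agent.Lib.MP_a37012_nt.Defs

set_option autoImplicit false

open MvPolynomial

namespace Pool.Agent.Lib.MP_a37012_nt

/-! ### Iterated partial derivatives -/

theorem tay_pd {d : ℕ} {V : Set (Fin d → ℝ)} (hV : IsOpen V) {n : ℕ}
    {h : (Fin d → ℝ) → ℝ} (hh : ContDiffOn ℝ (n + 1 : ℕ) h V) (i : Fin d) :
    ContDiffOn ℝ n (pd i h) V := by
  have h1 : ContDiffOn ℝ n (fderiv ℝ h) V :=
    hh.fderiv_of_isOpen hV (by norm_cast)
  exact h1.clm_apply contDiffOn_const

theorem tay_pds {d : ℕ} {V : Set (Fin d → ℝ)} (hV : IsOpen V) {L : ℕ}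
    {h : (Fin d → ℝ) → ℝ} (hh : ContDiffOn ℝ L h V) :
    ∀ (I : List (Fin d)) (n : ℕ), I.length + n ≤ L → ContDiffOn ℝ n (pds I h) V
  | [], n, hn => by
    refine hh.of_le ?_
    simp only [List.length_nil, zero_add] at hn
    exact_mod_cast hn
  | i :: I, n, hn => by
    have h1 := tay_pds hV hh I (n + 1) (by simp only [List.length_cons] at hn; omega)
    exact tay_pd hV h1 i

theorem tay_pd_congr {d : ℕ} {V : Set (Fin d → ℝ)} (hV : IsOpen V)
    {f g : (Fin d → ℝ) → ℝ} (hfg : ∀ x ∈ V, f x = g x) (i : Fin d) :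
    ∀ x ∈ V, pd i f x = pd i g x := by
  intro x hx
  have h1 : f =ᶠ[nhds x] g := by
    filter_upwards [hV.mem_nhds hx] with y hy using hfg y hy
  unfold pd
  rw [h1.fderiv_eq]

theorem tay_swap {d : ℕ} {V : Set (Fin d → ℝ)} (hV : IsOpen V)
    {g : (Fin d → ℝ) → ℝ} (hg : ContDiffOn ℝ (2 : ℕ) g V) (i j : Fin d) :
    ∀ x ∈ V, pd i (pd j g) x = pd j (pd i g) x := by
  intro x hx
  have h0 : ContDiffAt ℝ (2 : ℕ) g x := hg.contDiffAt (hV.mem_nhds hx)
  have hs : IsSymmSndFDerivAt ℝ g x := by
    refine h0.isSymmSndFDerivAt ?_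
    simp
  have h1 : ContDiffOn ℝ (1 : ℕ) (fderiv ℝ g) V := hg.fderiv_of_isOpen hV (by norm_cast)
  have h2 : DifferentiableAt ℝ (fderiv ℝ g) x :=
    (h1.contDiffAt (hV.mem_nhds hx)).differentiableAt (by simp)
  have key : ∀ a b : Fin d, pd a (pd b g) x =
      fderiv ℝ (fderiv ℝ g) x (Pi.single a 1) (Pi.single b 1) := by
    intro a b
    unfold pd
    rw [fderiv_clm_apply h2 (differentiableAt_const _)]
    simp
  rw [key, key]
  exact hs _ _

theorem tay_perm {d : ℕ} {V : Set (Fin d → ℝ)} (hV : IsOpen V) {L : ℕ}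
    {h : (Fin d → ℝ) → ℝ} (hh : ContDiffOn ℝ L h V) {I J : List (Fin d)} (hIJ : I.Perm J) :
    I.length ≤ L → ∀ x ∈ V, pds I h x = pds J h x := by
  induction hIJ with
  | nil => intro _ x _; rfl
  | cons i hp ih =>
    intro hl x hx
    simp only [List.length_cons] at hl
    exact tay_pd_congr hV (ih (by omega)) i x hx
  | swap i j I =>
    intro hl x hx
    simp only [List.length_cons] at hl
    exact tay_swap hV (tay_pds hV hh I 2 (by omega)) j i x hx
  | trans h1 h2 ih1 ih2 =>
    intro hl x hx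
    rw [ih1 hl x hx, ih2 (by rw [← h1.length_eq]; exact hl) x hx]

theorem tay_bdd {d : ℕ} {V : Set (Fin d → ℝ)} (hV : IsOpen V) {L : ℕ}
    {K : Set (Fin d → ℝ)} (hK : IsCompact K) (hKV : K ⊆ V)
    {h : (Fin d → ℝ) → ℝ} (hh : ContDiffOn ℝ L h V) :
    ∃ M : ℝ, 1 ≤ M ∧ ∀ I : List (Fin d), I.length ≤ L → ∀ x ∈ K, |pds I h x| ≤ M := by
  have h1 : ∀ I : List (Fin d), ∃ M : ℝ, I.length ≤ L → ∀ x ∈ K, |pds I h x| ≤ M := by
    intro I
    by_cases hI : I.length ≤ L
    · have h2 : ContinuousOn (pds I h) K :=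
        ((tay_pds hV hh I 0 (by omega)).continuousOn).mono hKV
      obtain ⟨M, hM⟩ := hK.exists_bound_of_continuousOn h2
      exact ⟨M, fun _ x hx => by simpa using hM x hx⟩
    · exact ⟨0, fun h => absurd h hI⟩
  choose M hM using h1
  have hfin : Set.Finite {I : List (Fin d) | I.length ≤ L} := List.finite_length_le _ _
  obtain ⟨B, hB⟩ := (hfin.image M).bddAbove
  refine ⟨max 1 B, le_max_left _ _, fun I hI x hx => ?_⟩
  exact (hM I hI x hx).trans ((hB ⟨I, hI, rfl⟩).trans (le_max_right _ _))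

/-! ### Polynomials with given derivatives at a point -/

/-- The product of the factorials. -/
noncomputable def tayWt {d : ℕ} (β : Fin d →₀ ℕ) : ℝ := ∏ i, ((β i).factorial : ℝ)

theorem tayWt_pos {d : ℕ} (β : Fin d →₀ ℕ) : 0 < tayWt β :=
  Finset.prod_pos fun i _ => by exact_mod_cast Nat.factorial_pos _

theorem tayWt_add {d : ℕ} (β : Fin d →₀ ℕ) (i : Fin d) :
    tayWt (β + Finsupp.single i 1) = (β i + 1) * tayWt β := by
  unfold tayWt
  rw [← Finset.mul_prod_erase _ (fun j => (((β + Finsupp.single i 1 : Fin d →₀ ℕ) j).factorial : ℝ))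
      (Finset.mem_univ i),
    ← Finset.mul_prod_erase _ (fun j => ((β j).factorial : ℝ)) (Finset.mem_univ i)]
  have h1 : ∏ x ∈ Finset.univ.erase i, ((((β + Finsupp.single i 1 : Fin d →₀ ℕ)) x).factorial : ℝ)
      = ∏ x ∈ Finset.univ.erase i, ((β x).factorial : ℝ) := by
    refine Finset.prod_congr rfl fun j hj => ?_
    have : j ≠ i := (Finset.mem_erase.mp hj).1
    simp [Finsupp.single_eq_of_ne this]
  rw [h1]
  simp only [Finsupp.add_apply, Finsupp.single_eq_same, Nat.factorial_succ, Nat.cast_mul,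
    Nat.cast_add, Nat.cast_one]
  ring

/-- The exponent of a list of indices. -/
noncomputable def tayExp {d : ℕ} : List (Fin d) → (Fin d →₀ ℕ)
  | [] => 0
  | i :: I => tayExp I + Finsupp.single i 1

theorem tay_coeff_mpds {d : ℕ} (I : List (Fin d)) (β : Fin d →₀ ℕ)
    (p : MvPolynomial (Fin d) ℝ) :
    coeff β (mpds I p) * tayWt β = tayWt (β + tayExp I) * coeff (β + tayExp I) p := by
  induction I generalizing β with
  | nil => simp [mpds, tayExp, mul_comm]
  | cons i I ih =>
    have h1 := ih (β + Finsupp.single i 1)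
    rw [tayWt_add] at h1
    have h2 : β + tayExp (i :: I) = β + Finsupp.single i 1 + tayExp I := by
      simp only [tayExp]; abel
    rw [h2, ← h1]
    simp only [mpds]
    rw [coeff_pderiv]
    ring

theorem tayExp_degree {d : ℕ} (I : List (Fin d)) : (tayExp I).degree = I.length := by
  induction I with
  | nil => simp [tayExp]
  | cons i I ih => simp [tayExp, ih, Finsupp.degree_single]

theorem tayExp_count {d : ℕ} (I : List (Fin d)) (i : Fin d) : tayExp I i = I.count i := by
  induction I with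
  | nil => simp [tayExp]
  | cons j I ih =>
    simp only [tayExp, Finsupp.add_apply, ih, List.count_cons, Finsupp.single_apply]
    by_cases hji : j = i <;> simp [hji]

theorem tay_perm_of_exp {d : ℕ} {I J : List (Fin d)} (h : tayExp I = tayExp J) : I.Perm J := by
  classical
  rw [List.perm_iff_count]
  intro i
  rw [← tayExp_count, ← tayExp_count, h]

theorem tayExp_append {d : ℕ} (I J : List (Fin d)) : tayExp (I ++ J) = tayExp I + tayExp J := by
  induction I with
  | nil => simp [tayExp]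
  | cons i I ih => simp only [List.cons_append, tayExp, ih]; abel

theorem tayExp_surj {d : ℕ} (β : Fin d →₀ ℕ) : ∃ I : List (Fin d), tayExp I = β := by
  induction β using Finsupp.induction_linear with
  | zero => exact ⟨[], rfl⟩
  | add f g hf hg =>
    obtain ⟨I, rfl⟩ := hf
    obtain ⟨J, rfl⟩ := hg
    exact ⟨I ++ J, tayExp_append I J⟩
  | single i n =>
    induction n with
    | zero => exact ⟨[], by simp [tayExp]⟩
    | succ n ih =>
      obtain ⟨I, hI⟩ := ih
      exact ⟨i :: I, by simp only [tayExp, hI, Finsupp.single_add]⟩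

/-- A polynomial with prescribed symmetric derivatives at the origin, of order less than `L`, and
vanishing derivatives of order at least `L`. -/
theorem tay_exists_zero {d : ℕ} (L : ℕ) (a : List (Fin d) → ℝ)
    (ha : ∀ I J : List (Fin d), I.Perm J → I.length < L → a I = a J) :
    ∃ p : MvPolynomial (Fin d) ℝ, (∀ β ∈ p.support, β.degree < L) ∧
      (∀ I : List (Fin d), I.length < L → coeff 0 (mpds I p) = a I) ∧
      ∀ I : List (Fin d), L ≤ I.length → mpds I p = 0 := by
  classical
  choose l hl using tayExp_surj (d := d)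
  have hfin : {f : Fin d →₀ ℕ | Finsupp.degree f < L}.Finite := Finsupp.finite_of_degree_lt L
  set p : MvPolynomial (Fin d) ℝ :=
    ∑ β ∈ hfin.toFinset, monomial β (a (l β) / tayWt β) with hp
  have hc : ∀ β, coeff β p = if β.degree < L then a (l β) / tayWt β else 0 := by
    intro β
    rw [hp, coeff_sum]
    simp only [coeff_monomial, Finset.sum_ite_eq', Set.Finite.mem_toFinset, Set.mem_ofPred_eq]
  refine ⟨p, ?_, ?_, ?_⟩
  · intro β hβ
    by_contra hlt
    rw [mem_support_iff, hc, if_neg hlt] at hβ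
    exact hβ rfl
  · intro I hI
    have h1 := tay_coeff_mpds I 0 p
    have h2 : (tayExp I).degree < L := by rw [tayExp_degree]; exact hI
    rw [zero_add, hc, if_pos h2] at h1
    have h3 : tayWt (0 : Fin d →₀ ℕ) = 1 := by simp [tayWt]
    have h4 : tayWt (tayExp I) ≠ 0 := (tayWt_pos _).ne'
    rw [h3, mul_one, mul_div_cancel₀ _ h4] at h1
    rw [h1]
    symm
    refine ha I _ (tay_perm_of_exp (hl _).symm) hI
  · intro I hI
    ext β
    have h1 := tay_coeff_mpds I β p
    have h2 : ¬ (β + tayExp I).degree < L := by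
      rw [map_add, tayExp_degree]
      omega
    rw [hc, if_neg h2, mul_zero] at h1
    rw [coeff_zero]
    rcases mul_eq_zero.mp h1 with h | h
    · exact h
    · exact absurd h (tayWt_pos _).ne'

/-- Translation of the variables. -/
theorem tay_pderiv_shift {d : ℕ} (x₀ : Fin d → ℝ) (i : Fin d) (p : MvPolynomial (Fin d) ℝ) :
    pderiv i (bind₁ (fun j => X j - C (x₀ j)) p) = bind₁ (fun j => X j - C (x₀ j)) (pderiv i p) := by
  classical
  induction p using MvPolynomial.induction_on with
  | C r => simp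
  | add p q hp hq => simp only [map_add, hp, hq]
  | mul_X p j hp =>
    simp only [map_mul, bind₁_X_right, Derivation.leibniz, smul_eq_mul, map_add, map_sub, hp,
      pderiv_C, sub_zero, pderiv_X]
    by_cases hij : j = i
    · subst hij; simp
    · simp [Pi.single_eq_of_ne hij]

theorem tay_mpds_shift {d : ℕ} (x₀ : Fin d → ℝ) (I : List (Fin d)) (p : MvPolynomial (Fin d) ℝ) :
    mpds I (bind₁ (fun j => X j - C (x₀ j)) p) = bind₁ (fun j => X j - C (x₀ j)) (mpds I p) := by
  induction I with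
  | nil => rfl
  | cons i I ih => simp only [mpds, ih, tay_pderiv_shift]

theorem tay_eval_shift {d : ℕ} (x₀ : Fin d → ℝ) (p : MvPolynomial (Fin d) ℝ) :
    eval x₀ (bind₁ (fun j => X j - C (x₀ j)) p) = coeff 0 p := by
  rw [← constantCoeff_eq]
  induction p using MvPolynomial.induction_on with
  | C r => simp
  | add p q hp hq => simp only [map_add, hp, hq]
  | mul_X p j hp => simp

/-- The polynomial with prescribed symmetric derivatives at a point. -/
theorem tay_exists {d : ℕ} (L : ℕ) (x₀ : Fin d → ℝ) (a : List (Fin d) → ℝ)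
    (ha : ∀ I J : List (Fin d), I.Perm J → I.length < L → a I = a J) :
    ∃ p : MvPolynomial (Fin d) ℝ, p.totalDegree ≤ L ∧
      (∀ I : List (Fin d), I.length < L → eval x₀ (mpds I p) = a I) ∧
      ∀ I : List (Fin d), L ≤ I.length → mpds I p = 0 := by
  obtain ⟨q, hq1, hq2, hq3⟩ := tay_exists_zero L a ha
  refine ⟨bind₁ (fun j => X j - C (x₀ j)) q, ?_, ?_, ?_⟩
  · conv_lhs => rw [q.as_sum, map_sum]
    refine totalDegree_finsetSum_le fun β hβ => ?_
    rw [bind₁_monomial]
    refine (totalDegree_mul _ _).trans ?_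
    rw [totalDegree_C, zero_add]
    refine (totalDegree_finsetProd _ _).trans ?_
    have h1 : ∀ i ∈ β.support, ((X i - C (x₀ i) : MvPolynomial (Fin d) ℝ) ^ β i).totalDegree ≤
        β i := by
      intro i _
      refine (totalDegree_pow _ _).trans ?_
      have h2 : (X i - C (x₀ i) : MvPolynomial (Fin d) ℝ).totalDegree ≤ 1 := by
        refine (totalDegree_sub _ _).trans ?_
        rw [totalDegree_X, totalDegree_C]
        simp
      calc β i * _ ≤ β i * 1 := Nat.mul_le_mul_left _ h2
        _ = β i := mul_one _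
    refine (Finset.sum_le_sum h1).trans ?_
    have := hq1 β hβ
    rw [Finsupp.degree_apply] at this
    exact this.le
  · intro I hI
    rw [tay_mpds_shift, tay_eval_shift, hq2 I hI]
  · intro I hI
    rw [tay_mpds_shift, hq3 I hI, map_zero]

/-! ### The remainder -/

theorem tay_eval_differentiable {d : ℕ} (p : MvPolynomial (Fin d) ℝ) :
    Differentiable ℝ fun x : Fin d → ℝ => eval x p := by
  induction p using MvPolynomial.induction_on with
  | C r => simp
  | add p q hp hq =>
    simp only [map_add]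
    exact hp.add hq
  | mul_X p j hp =>
    simp only [map_mul, eval_X]
    exact hp.mul (differentiable_apply j)

theorem tay_pd_eval {d : ℕ} (i : Fin d) (p : MvPolynomial (Fin d) ℝ) (x : Fin d → ℝ) :
    pd i (fun x => eval x p) x = eval x (pderiv i p) := by
  classical
  unfold pd
  induction p using MvPolynomial.induction_on with
  | C r => simp
  | add p q hp hq =>
    have h1 : (fun x : Fin d → ℝ => eval x (p + q)) =
        (fun x => eval x p) + (fun x => eval x q) := by
      funext y; simp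
    rw [h1, fderiv_add (tay_eval_differentiable p x) (tay_eval_differentiable q x)]
    simp only [_root_.add_apply, hp, hq, map_add]
  | mul_X p j hp =>
    have h1 : (fun x : Fin d → ℝ => eval x (p * X j)) =
        (fun x => eval x p) * (fun x => x j) := by
      funext y; simp
    rw [h1, fderiv_mul (tay_eval_differentiable p x) (differentiableAt_apply j x)]
    have h2 : fderiv ℝ (fun x : Fin d → ℝ => x j) x = ContinuousLinearMap.proj j :=
      (ContinuousLinearMap.proj (R := ℝ) (φ := fun _ : Fin d => ℝ) j).fderiv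
    rw [h2]
    simp only [_root_.add_apply, _root_.smul_apply, smul_eq_mul, hp,
      Derivation.leibniz, map_add, map_mul, eval_X, pderiv_X, ContinuousLinearMap.proj_apply]
    by_cases hij : j = i
    · subst hij; simp
    · simp [Pi.single_eq_of_ne hij]

theorem tay_norm_le {d : ℕ} (T : (Fin d → ℝ) →L[ℝ] ℝ) (C : ℝ) (hC : 0 ≤ C)
    (h : ∀ i, |T (Pi.single i 1)| ≤ C) : ‖T‖ ≤ d * C := by
  refine T.opNorm_le_bound (by positivity) fun v => ?_
  have h1 : v = ∑ i, v i • (Pi.single i 1 : Fin d → ℝ) := by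
    funext j
    simp [Finset.sum_apply, Pi.single_apply]
  have h2 : T v = ∑ i, v i * T (Pi.single i 1) := by
    conv_lhs => rw [h1, map_sum]
    simp only [map_smul, smul_eq_mul]
  rw [h2]
  calc ‖∑ i, v i * T (Pi.single i 1)‖ ≤ ∑ i, ‖v i * T (Pi.single i 1)‖ := norm_sum_le _ _
    _ ≤ ∑ _i : Fin d, ‖v‖ * C := by
        refine Finset.sum_le_sum fun i _ => ?_
        rw [norm_mul]
        exact mul_le_mul (norm_le_pi_norm v i) (by simpa using h i) (norm_nonneg _) (norm_nonneg _)
    _ = d * C * ‖v‖ := by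
        rw [Finset.sum_const, Finset.card_univ, Fintype.card_fin, nsmul_eq_mul]; ring

/-- The mean value inequality with partial derivatives. -/
theorem tay_mvt {d : ℕ} {V K : Set (Fin d → ℝ)} (hV : IsOpen V) (hKc : Convex ℝ K) (hKV : K ⊆ V)
    (f : (Fin d → ℝ) → ℝ) (hf : DifferentiableOn ℝ f V) (x₀ : Fin d → ℝ) (hx₀ : x₀ ∈ K)
    (h0 : f x₀ = 0) (B : ℝ) (hB : 0 ≤ B) (n : ℕ)
    (hb : ∀ i, ∀ x ∈ K, |pd i f x| ≤ B * ‖x - x₀‖ ^ n) :
    ∀ x ∈ K, |f x| ≤ d * B * ‖x - x₀‖ ^ (n + 1) := by
  intro x hx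
  have hs : segment ℝ x₀ x ⊆ K := hKc.segment_subset hx₀ hx
  have h1 := (convex_segment (𝕜 := ℝ) x₀ x).norm_image_sub_le_of_norm_hasFDerivWithin_le
    (f := f) (f' := fun y => fderiv ℝ f y) (C := d * (B * ‖x - x₀‖ ^ n))
    (fun y hy => ((hf.differentiableAt (hV.mem_nhds (hKV (hs hy)))).hasFDerivAt).hasFDerivWithinAt)
    (fun y hy => ?_) (left_mem_segment ℝ x₀ x) (right_mem_segment ℝ x₀ x)
  · rw [h0, sub_zero, Real.norm_eq_abs] at h1
    calc |f x| ≤ d * (B * ‖x - x₀‖ ^ n) * ‖x - x₀‖ := h1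
      _ = d * B * ‖x - x₀‖ ^ (n + 1) := by ring
  · refine tay_norm_le _ _ (by positivity) fun i => ?_
    refine (hb i y (hs hy)).trans ?_
    have h2 : ‖y - x₀‖ ≤ ‖x - x₀‖ := by
      have := segment_subset_closedBall_left x₀ x hy
      rw [mem_closedBall_iff_norm] at this
      rwa [norm_sub_rev x x₀, ← dist_eq_norm, ← dist_eq_norm] at *
    gcongr

/-- (T) Taylor polynomials, uniformly on a compact convex set. -/
theorem taylor {d : ℕ} (L : ℕ) (hL : 1 ≤ L) (V : Set (Fin d → ℝ)) (hV : IsOpen V)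
    (K : Set (Fin d → ℝ)) (hK : IsCompact K) (hKc : Convex ℝ K) (hKV : K ⊆ V)
    (h : (Fin d → ℝ) → ℝ) (hh : ContDiffOn ℝ L h V) :
    ∃ M : ℝ, 1 ≤ M ∧ (∀ I : List (Fin d), I.length ≤ L → ∀ x ∈ K, |pds I h x| ≤ M) ∧
      ∀ x₀ ∈ K, ∃ P : MvPolynomial (Fin d) ℝ, P.totalDegree ≤ L ∧
        (∀ I : List (Fin d), I.length < L → eval x₀ (mpds I P) = pds I h x₀) ∧
        ∀ x ∈ K, |h x - eval x P| ≤ M * ‖x - x₀‖ ^ L ∧
          ∀ i, |pd i h x - eval x (pderiv i P)| ≤ M * ‖x - x₀‖ ^ (L - 1) := by
  obtain ⟨M₀, hM1, hM⟩ := tay_bdd hV hK hKV hh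
  have hD : (1 : ℝ) ≤ max 1 (d : ℝ) := le_max_left _ _
  have hMM : ∀ k, k ≤ L → (d : ℝ) ^ k * M₀ ≤ M₀ * (max 1 (d : ℝ)) ^ L := by
    intro k hk
    have h1 : (d : ℝ) ^ k ≤ (max 1 (d : ℝ)) ^ k :=
      pow_le_pow_left₀ (Nat.cast_nonneg _) (le_max_right _ _) _
    have h2 : (max 1 (d : ℝ)) ^ k ≤ (max 1 (d : ℝ)) ^ L := pow_le_pow_right₀ hD hk
    nlinarith [h1.trans h2]
  have hM2 : M₀ ≤ M₀ * (max 1 (d : ℝ)) ^ L := by simpa using hMM 0 (Nat.zero_le _)
  refine ⟨M₀ * (max 1 (d : ℝ)) ^ L, hM1.trans hM2, fun I hI x hx => (hM I hI x hx).trans hM2,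
    fun x₀ hx₀ => ?_⟩
  obtain ⟨P, hP1, hP2, hP3⟩ := tay_exists L x₀ (fun I => pds I h x₀)
    (fun I J hIJ hl => tay_perm hV hh hIJ hl.le x₀ (hKV hx₀))
  refine ⟨P, hP1, hP2, ?_⟩
  have main : ∀ k, ∀ I : List (Fin d), I.length + k = L → ∀ x ∈ K,
      |pds I h x - eval x (mpds I P)| ≤ (d : ℝ) ^ k * M₀ * ‖x - x₀‖ ^ k := by
    intro k
    induction k with
    | zero =>
      intro I hI x hx
      rw [hP3 I (by omega), map_zero, sub_zero]
      simpa using hM I (by omega) x hx
    | succ k ih =>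
      intro I hI
      have hdiff : DifferentiableOn ℝ (pds I h) V :=
        (tay_pds hV hh I 1 (by omega)).differentiableOn (by simp)
      have hdiff2 : DifferentiableOn ℝ (fun x => pds I h x - eval x (mpds I P)) V :=
        hdiff.sub (tay_eval_differentiable _).differentiableOn
      have key := tay_mvt hV hKc hKV (fun x => pds I h x - eval x (mpds I P)) hdiff2 x₀ hx₀
        (by simp only [hP2 I (by omega), sub_self]) ((d : ℝ) ^ k * M₀) (by positivity) k ?_
      · intro x hx
        refine (key x hx).trans_eq ?_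
        ring
      · intro i x hx
        have h1 : pd i (fun x => pds I h x - eval x (mpds I P)) x =
            pds (i :: I) h x - eval x (mpds (i :: I) P) := by
          have h2 : pd i (fun x => pds I h x - eval x (mpds I P)) x =
              pd i (pds I h) x - pd i (fun x => eval x (mpds I P)) x := by
            unfold pd
            have h3 : (fun x => pds I h x - eval x (mpds I P)) =
                (pds I h) - (fun x => eval x (mpds I P)) := rfl
            rw [h3, fderiv_sub (hdiff.differentiableAt (hV.mem_nhds (hKV hx)))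
              (tay_eval_differentiable _ x)]
            rfl
          rw [h2, tay_pd_eval]
          rfl
        rw [h1]
        exact ih (i :: I) (by simp only [List.length_cons]; omega) x hx
  intro x hx
  constructor
  · refine (main L [] (by simp) x hx).trans ?_
    exact mul_le_mul_of_nonneg_right (hMM L le_rfl) (by positivity)
  · intro i
    refine (main (L - 1) [i] (by simp only [List.length_cons, List.length_nil]; omega)
      x hx).trans ?_
    exact mul_le_mul_of_nonneg_right (hMM (L - 1) (by omega)) (by positivity)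

end Pool.Agent.Lib.MP_a37012_nt
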