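import Pool.Agent.Lib.MP_a37012_nt.Sup
import Pool.Agent.Lib.MP_a37012_nt.KM
import Pool.Agent.Lib.MP_a37012_nt.Taylor
import Pool.Agent.Lib.MP_a37012_nt.Param

set_option autoImplicit false

open MeasureTheory MvPolynomial

namespace Pool.Agent.Lib.MP_a37012_nt

/-- The matrix of values and gradients of the coordinate functions and of the `F j`. -/
noncomputable def UF {d m : ℕ} (F : Fin m → (Fin d → ℝ) → ℝ) (x : Fin d → ℝ) :
    Matrix (Idx d m) (Idx d m) ℝ
  | none, none => 1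
  | none, some (Sum.inl a) => x a
  | none, some (Sum.inr j) => F j x
  | some (Sum.inl _), none => 0
  | some (Sum.inl i), some (Sum.inl a) => if i = a then 1 else 0
  | some (Sum.inl i), some (Sum.inr j) => pd i (F j) x
  | some (Sum.inr _), none => 0
  | some (Sum.inr _), some (Sum.inl _) => 0
  | some (Sum.inr i), some (Sum.inr j) => if i = j then 1 else 0

/-- The weighted matrix of values and gradients. -/
noncomputable def HF {d m : ℕ} (F : Fin m → (Fin d → ℝ) → ℝ) (Q K T : ℝ) (x : Fin d → ℝ) :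
    Matrix (Idx d m) (Idx d m) ℝ :=
  Matrix.of fun a b => wt Q K T a * UF F x a b

section cubes

variable {d : ℕ}

theorem cube_convex (j : ℕ) (k : Fin d → ℤ) : Convex ℝ (cube j k) := by
  rw [km_cube_eq_pi]
  exact convex_pi fun i _ => convex_Ico _ _

theorem cube_compact (j : ℕ) (k : Fin d → ℤ) : IsCompact (closure (cube j k)) := by
  refine Bornology.IsBounded.isCompact_closure ?_
  rw [km_cube_eq_pi]
  exact Bornology.IsBounded.pi fun i => Metric.isBounded_Ico _ _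

theorem cube_dist {j : ℕ} {k : Fin d → ℤ} {x y : Fin d → ℝ} (hx : x ∈ cube j k)
    (hy : y ∈ cube j k) : ‖x - y‖ ≤ 1 / 2 ^ j := by
  rw [pi_norm_le_iff_of_nonneg (by positivity)]
  intro i
  obtain ⟨h1, h2⟩ := hx i
  obtain ⟨h3, h4⟩ := hy i
  rw [Pi.sub_apply, Real.norm_eq_abs, abs_le]
  have e : ((k i : ℝ) + 1) / 2 ^ j = (k i : ℝ) / 2 ^ j + 1 / 2 ^ j := by ring
  rw [e] at h2 h4
  constructor <;> linarith

/-- Passing from the subcubes to a cube. -/
theorem cube_sum {j₀ j : ℕ} (hj : j₀ ≤ j) (k₀ : Fin d → ℤ) (Bad : Set (Fin d → ℝ)) (η : ENNReal)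
    (h : ∀ k : Fin d → ℤ, cube j k ⊆ cube j₀ k₀ →
      volume {x | x ∈ cube j k ∧ x ∈ Bad} ≤ η * volume (cube j k)) :
    volume {x | x ∈ cube j₀ k₀ ∧ x ∈ Bad} ≤ η * volume (cube j₀ k₀) := by
  have hsub : ∀ k : Fin d → ℤ, ∀ x, x ∈ cube j k → x ∈ cube j₀ k₀ → cube j k ⊆ cube j₀ k₀ := by
    intro k x hx hx0 y hy
    rw [km_mem_cube] at *
    rw [← hx0]
    exact km_idx_mono hj (by rw [hy, hx])
  have h1 : {x | x ∈ cube j₀ k₀ ∧ x ∈ Bad} ⊆
      ⋃ k : Fin d → ℤ, {x | x ∈ cube j k ∧ x ∈ cube j₀ k₀ ∧ x ∈ Bad} := by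
    intro x hx
    rw [Set.mem_iUnion]
    exact ⟨kmIdx j x, km_self_mem j x, hx.1, hx.2⟩
  have h2 : ∀ k : Fin d → ℤ, volume {x | x ∈ cube j k ∧ x ∈ cube j₀ k₀ ∧ x ∈ Bad} ≤
      η * volume (cube j k ∩ cube j₀ k₀) := by
    intro k
    by_cases hk : ∃ x, x ∈ cube j k ∧ x ∈ cube j₀ k₀
    · obtain ⟨x, hx, hx0⟩ := hk
      have hs := hsub k x hx hx0
      rw [Set.inter_eq_left.mpr hs]
      refine (measure_mono ?_).trans (h k hs)
      exact fun y hy => ⟨hy.1, hy.2.2⟩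
    · have : {x | x ∈ cube j k ∧ x ∈ cube j₀ k₀ ∧ x ∈ Bad} = ∅ := by
        ext y
        simp only [Set.mem_ofPred_eq, Set.mem_empty_iff_false, iff_false]
        exact fun hy => hk ⟨y, hy.1, hy.2.1⟩
      rw [this, measure_empty]
      exact zero_le
  have h3 : (⋃ k : Fin d → ℤ, cube j k ∩ cube j₀ k₀) = cube j₀ k₀ := by
    ext x
    rw [Set.mem_iUnion]
    exact ⟨fun ⟨k, hk⟩ => hk.2, fun hx => ⟨kmIdx j x, km_self_mem j x, hx⟩⟩
  calc volume {x | x ∈ cube j₀ k₀ ∧ x ∈ Bad}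
      ≤ volume (⋃ k : Fin d → ℤ, {x | x ∈ cube j k ∧ x ∈ cube j₀ k₀ ∧ x ∈ Bad}) :=
        measure_mono h1
    _ ≤ ∑' k : Fin d → ℤ, volume {x | x ∈ cube j k ∧ x ∈ cube j₀ k₀ ∧ x ∈ Bad} :=
        measure_iUnion_le _
    _ ≤ ∑' k : Fin d → ℤ, η * volume (cube j k ∩ cube j₀ k₀) := ENNReal.tsum_le_tsum h2
    _ = η * ∑' k : Fin d → ℤ, volume (cube j k ∩ cube j₀ k₀) := ENNReal.tsum_mul_left
    _ = η * volume (⋃ k : Fin d → ℤ, cube j k ∩ cube j₀ k₀) := by
        rw [measure_iUnion]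
        · intro k k' hkk
          refine Set.disjoint_left.mpr fun x hx hx' => hkk ?_
          rw [← km_mem_cube.mp hx.1, ← km_mem_cube.mp hx'.1]
        · exact fun k => (km_measurable_cube j k).inter (km_measurable_cube j₀ k₀)
    _ = _ := by rw [h3]

end cubes

theorem totalDegree_HM {d m : ℕ} (P : Fin m → MvPolynomial (Fin d) ℝ) (Q K T : ℝ) (L : ℕ)
    (hL : 1 ≤ L) (hP : ∀ i, (P i).totalDegree ≤ L) (a b : Idx d m) :
    (HM P Q K T a b).totalDegree ≤ L := by
  have h0 : ∀ (w : ℝ) (p : MvPolynomial (Fin d) ℝ), p.totalDegree ≤ L →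
      (C w * p).totalDegree ≤ L := by
    intro w p hp
    refine (totalDegree_mul _ _).trans ?_
    rw [totalDegree_C, zero_add]
    exact hp
  unfold HM
  rw [Matrix.of_apply]
  apply h0
  rcases a with _ | (i | i) <;> rcases b with _ | (a | a) <;> simp only [UM]
  · rw [totalDegree_one]; omega
  · rw [totalDegree_X]; omega
  · exact hP a
  · rw [totalDegree_zero]; omega
  · split_ifs
    · rw [totalDegree_one]; omega
    · rw [totalDegree_zero]; omega
  · exact (totalDegree_pderiv_le _ _).trans (hP a)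
  · rw [totalDegree_zero]; omega
  · rw [totalDegree_zero]; omega
  · split_ifs
    · rw [totalDegree_one]; omega
    · rw [totalDegree_zero]; omega

/-- The dual vectors for the functions are dual vectors for the approximating polynomials. -/
theorem approx_dual {d m : ℕ} (F : Fin m → (Fin d → ℝ) → ℝ) (P : Fin m → MvPolynomial (Fin d) ℝ)
    (Q K T M ρ ε : ℝ) (L : ℕ) (hL : 1 ≤ L) (hK : 1 ≤ K) (hT : 1 ≤ T) (hQ : 0 < Q) (hM : 0 ≤ M)
    (hρ : 0 < ρ) (hQρ : 1 ≤ Q * ρ) (hε : 0 < ε) (hup : m * M * (Q * T) * ρ ^ L ≤ 1)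
    (x : Fin d → ℝ) (h0 : ∀ i, |F i x - eval x (P i)| ≤ M * ρ ^ L)
    (h1 : ∀ a i, |pd a (F i) x - eval x (pderiv a (P i))| ≤ M * ρ ^ (L - 1))
    (c : Idx d m → ℝ) (hc : ∀ a, |(HF F Q K T x).mulVec c a| < ε) :
    ∀ a, |(evalM (HM P Q K T) x).mulVec c a| < 2 * ε := by
  have hK0 : 0 < K := by linarith
  have hT0 : 0 < T := by linarith
  -- size of the coefficients
  have hcz : ∀ j, |c (some (Sum.inr j))| ≤ ε * T := by
    intro j
    have h2 := hc (some (Sum.inr j))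
    rw [Matrix.mulVec, dotProduct, Fintype.sum_option, Fintype.sum_sum_type] at h2
    have h3 : (∑ x_1, HF F Q K T x (some (Sum.inr j)) (some (Sum.inr x_1)) *
        c (some (Sum.inr x_1))) = T⁻¹ * c (some (Sum.inr j)) := by
      rw [Finset.sum_eq_single j]
      · simp [HF, UF, wt]
      · intro i _ hi
        simp [HF, UF, Ne.symm hi]
      · simp
    rw [h3] at h2
    have h4 : HF F Q K T x (some (Sum.inr j)) none = 0 := by simp [HF, UF]
    have h5 : ∀ a, HF F Q K T x (some (Sum.inr j)) (some (Sum.inl a)) = 0 := by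
      intro a; simp [HF, UF]
    simp only [h4, h5, zero_mul, Finset.sum_const_zero, zero_add] at h2
    rw [abs_mul, abs_of_pos (inv_pos.mpr hT0)] at h2
    rw [inv_mul_lt_iff₀ hT0] at h2
    linarith
  have hdiff : ∀ a, (HF F Q K T x).mulVec c a - (evalM (HM P Q K T) x).mulVec c a =
      ∑ j, wt Q K T a * (UF F x a (some (Sum.inr j)) - eval x (UM P a (some (Sum.inr j)))) *
        c (some (Sum.inr j)) := by
    intro a
    simp only [Matrix.mulVec, dotProduct]
    rw [← Finset.sum_sub_distrib, Fintype.sum_option, Fintype.sum_sum_type]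
    have e1 : HF F Q K T x a none * c none - evalM (HM P Q K T) x a none * c none = 0 := by
      rcases a with _ | (i | i) <;> simp [HF, UF, evalM, HM, UM]
    have e2 : ∀ b, HF F Q K T x a (some (Sum.inl b)) * c (some (Sum.inl b)) -
        evalM (HM P Q K T) x a (some (Sum.inl b)) * c (some (Sum.inl b)) = 0 := by
      intro b
      rcases a with _ | (i | i)
      · simp [HF, UF, evalM, HM, UM]
      · by_cases hib : i = b <;> simp [HF, UF, evalM, HM, UM, hib]
      · simp [HF, UF, evalM, HM, UM]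
    rw [e1, Finset.sum_eq_zero fun b _ => e2 b, zero_add, zero_add]
    refine Finset.sum_congr rfl fun j _ => ?_
    simp only [HF, evalM, HM, Matrix.of_apply, Matrix.map_apply, map_mul, eval_C]
    ring
  intro a
  have hgoal : |(HF F Q K T x).mulVec c a - (evalM (HM P Q K T) x).mulVec c a| ≤ ε := by
    rw [hdiff]
    rcases a with _ | (i | i)
    · have h2 : ∀ j ∈ Finset.univ, |wt Q K T (none : Idx d m) * (UF F x none (some (Sum.inr j)) -
          eval x (UM P none (some (Sum.inr j)))) * c (some (Sum.inr j))| ≤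
          Q * (M * ρ ^ L) * (ε * T) := by
        intro j _
        rw [abs_mul, abs_mul]
        have : |wt Q K T (none : Idx d m)| = Q := abs_of_pos hQ
        rw [this]
        exact mul_le_mul (mul_le_mul_of_nonneg_left (h0 j) hQ.le) (hcz j) (abs_nonneg _)
          (by positivity)
      refine (Finset.abs_sum_le_sum_abs _ _).trans ((Finset.sum_le_sum h2).trans ?_)
      rw [Finset.sum_const, Finset.card_univ, Fintype.card_fin, nsmul_eq_mul]
      calc (m : ℝ) * (Q * (M * ρ ^ L) * (ε * T)) = (m * M * (Q * T) * ρ ^ L) * ε := by ring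
        _ ≤ 1 * ε := by gcongr
        _ = ε := one_mul _
    · have h2 : ∀ j ∈ Finset.univ, |wt Q K T (some (Sum.inl i) : Idx d m) *
          (UF F x (some (Sum.inl i)) (some (Sum.inr j)) -
          eval x (UM P (some (Sum.inl i)) (some (Sum.inr j)))) * c (some (Sum.inr j))| ≤
          1 * (M * ρ ^ (L - 1)) * (ε * T) := by
        intro j _
        rw [abs_mul, abs_mul]
        have : |wt Q K T (some (Sum.inl i) : Idx d m)| ≤ 1 := by
          change |K⁻¹| ≤ 1
          rw [abs_of_pos (inv_pos.mpr hK0)]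
          exact inv_le_one_of_one_le₀ hK
        exact mul_le_mul (mul_le_mul this (h1 i j) (abs_nonneg _) zero_le_one) (hcz j)
          (abs_nonneg _) (by positivity)
      refine (Finset.abs_sum_le_sum_abs _ _).trans ((Finset.sum_le_sum h2).trans ?_)
      rw [Finset.sum_const, Finset.card_univ, Fintype.card_fin, nsmul_eq_mul]
      have h3 : ρ ^ L = ρ ^ (L - 1) * ρ := by
        rw [← pow_succ]; congr 1; omega
      have h4 : m * M * T * ρ ^ (L - 1) ≤ 1 := by
        have h5 : 0 ≤ m * M * T * ρ ^ (L - 1) := by positivity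
        calc m * M * T * ρ ^ (L - 1) ≤ (m * M * T * ρ ^ (L - 1)) * (Q * ρ) :=
              le_mul_of_one_le_right h5 hQρ
          _ = m * M * (Q * T) * ρ ^ L := by rw [h3]; ring
          _ ≤ 1 := hup
      calc (m : ℝ) * (1 * (M * ρ ^ (L - 1)) * (ε * T)) = (m * M * T * ρ ^ (L - 1)) * ε := by ring
        _ ≤ 1 * ε := by gcongr
        _ = ε := one_mul _
    · rw [Finset.sum_eq_zero]
      · simpa using hε.le
      · intro j _
        by_cases hij : i = j <;> simp [UF, UM, hij]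
  have h5 := abs_sub_abs_le_abs_sub ((evalM (HM P Q K T) x).mulVec c a)
    ((HF F Q K T x).mulVec c a)
  rw [abs_sub_comm] at h5
  have h6 := hc a
  linarith

/-- For most points there is no short dual vector. -/
theorem dualGood (d m L : ℕ) (hm : 1 ≤ m) (hL : (m + 1) ^ 2 + 2 * d + 1 ≤ L)
    (V : Set (Fin d → ℝ)) (hV : IsOpen V) (F : Fin m → (Fin d → ℝ) → ℝ)
    (hF : ∀ i, ContDiffOn ℝ L (F i) V) (j₀ : ℕ) (k₀ : Fin d → ℤ)
    (hcube : closure (cube j₀ k₀) ⊆ V) (c₀ : ℝ) (hc₀ : 0 < c₀)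
    (hnd : ∀ x ∈ cube j₀ k₀, ∀ z : Fin m → ℝ, ∃ I : List (Fin d), 2 ≤ I.length ∧
      I.length ≤ m + 1 ∧ c₀ * ‖z‖ ≤ |∑ i, z i * pds I (F i) x|) :
    ∃ ε A Q₀ : ℝ, 0 < ε ∧ 1 ≤ A ∧ ∀ Q K T : ℝ, 1 ≤ K → 1 ≤ T → Q₀ ≤ Q → Q = A * K ^ d * T ^ m →
      volume {x | x ∈ cube j₀ k₀ ∧ ∃ c : Idx d m → ℤ, c ≠ 0 ∧
        ∀ a, |(HF F Q K T x).mulVec (fun b => (c b : ℝ)) a| < ε} ≤
        ENNReal.ofReal (1 / 2) * volume (cube j₀ k₀) := by
  classical
  have hL4 : m + 3 ≤ L := by nlinarith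
  have hL1 : 1 ≤ L := by omega
  -- Taylor polynomials
  have htay := fun i => taylor L hL1 V hV (closure (cube j₀ k₀)) (cube_compact j₀ k₀)
    (cube_convex j₀ k₀).closure hcube (F i) (hF i)
  choose Mi hMi1 hMi2 hMi3 using htay
  set M : ℝ := ∑ i, Mi i with hMdef
  have hMle : ∀ i, Mi i ≤ M := fun i =>
    Finset.single_le_sum (f := Mi) (fun j _ => by linarith [hMi1 j]) (Finset.mem_univ i)
  have hM1 : 1 ≤ M := (hMi1 ⟨0, hm⟩).trans (hMle _)
  have hM0 : 0 < M := by linarith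
  have hm1 : (1 : ℝ) ≤ m := by exact_mod_cast hm
  -- constants
  obtain ⟨A, κ, hA1, hκ, hsup⟩ := supBound d m L (m + 1) hm (by omega) M c₀ hM0 hc₀
  obtain ⟨ε₁, hε₁, hkm⟩ := km d L (Idx d m) (1 / 2) (by norm_num)
  set a : ℝ := 2 ^ L * (m * M) with ha
  have hmM : 1 ≤ m * M := one_le_mul_of_one_le_of_one_le hm1 hM1
  have ha1 : 1 ≤ a := one_le_mul_of_one_le_of_one_le (one_le_pow₀ (by norm_num)) hmM
  obtain ⟨Q₁, hQ₁, hpar⟩ := param d m L hm hL A κ a hA1 hκ ha1
  refine ⟨ε₁ / 2, A, max Q₁ ((2 ^ j₀) ^ L), by positivity, hA1, ?_⟩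
  intro Q K T hK hT hQ₀ hQ
  have hQQ₁ : Q₁ ≤ Q := (le_max_left _ _).trans hQ₀
  have hQ1 : 1 ≤ Q := hQ₁.trans hQQ₁
  have hQ0 : 0 < Q := by linarith
  have hT0 : 0 < T := by linarith
  have hQT : 1 ≤ Q * T := one_le_mul_of_one_le_of_one_le hQ1 hT
  set θ : ℝ := m * M * (Q * T) with hθ
  have hθ1 : 1 ≤ θ := one_le_mul_of_one_le_of_one_le hmM hQT
  have hθ0 : 0 < θ := by linarith
  -- the level
  have hex : ∃ j : ℕ, θ * (1 / 2 ^ j) ^ L ≤ 1 := by
    obtain ⟨j, hj⟩ := pow_unbounded_of_one_lt θ (show (1 : ℝ) < 2 by norm_num)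
    refine ⟨j, ?_⟩
    have h1 : (1 : ℝ) ≤ 2 ^ j := one_le_pow₀ (by norm_num)
    rw [one_div, inv_pow, ← div_eq_mul_inv, div_le_one (by positivity)]
    calc θ ≤ 2 ^ j := hj.le
      _ = (2 ^ j) ^ 1 := (pow_one _).symm
      _ ≤ (2 ^ j) ^ L := pow_le_pow_right₀ h1 hL1
  set j := Nat.find hex with hj
  have hjup : θ * (1 / 2 ^ j) ^ L ≤ 1 := Nat.find_spec hex
  have hjlow : 1 ≤ 2 ^ L * (θ * (1 / 2 ^ j) ^ L) := by
    rcases Nat.eq_zero_or_pos j with h0 | h0
    · rw [h0]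
      simp only [pow_zero, div_one, one_pow, mul_one]
      exact one_le_mul_of_one_le_of_one_le (one_le_pow₀ (by norm_num)) hθ1
    · have h1 := Nat.find_min hex (m := j - 1) (by omega)
      push Not at h1
      obtain ⟨j', hj'⟩ : ∃ j', j = j' + 1 := ⟨j - 1, by omega⟩
      rw [hj'] at h1 ⊢
      simp only [Nat.add_sub_cancel] at h1
      have h2 : (2 : ℝ) ^ L * (θ * (1 / 2 ^ (j' + 1)) ^ L) = θ * (1 / 2 ^ j') ^ L := by
        have : (1 : ℝ) / 2 ^ (j' + 1) = (1 / 2 ^ j') * (1 / 2) := by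
          rw [pow_succ]; field_simp
        rw [this, mul_pow, one_div (2 : ℝ), inv_pow]
        field_simp
      rw [h2]
      exact h1.le
  set ρ : ℝ := 1 / 2 ^ j with hρ
  have hρ0 : 0 < ρ := by positivity
  have hρ1 : ρ ≤ 1 := by
    rw [hρ, div_le_one (by positivity)]; exact one_le_pow₀ (by norm_num)
  have hup : Q * T * ρ ^ L ≤ 1 := by
    refine le_trans ?_ hjup
    have : Q * T ≤ θ := le_mul_of_one_le_left (by positivity) hmM
    gcongr
  have hlow : 1 ≤ a * (Q * T * ρ ^ L) := by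
    refine hjlow.trans_eq ?_
    rw [ha, hθ]; ring
  obtain ⟨hp1, hp2, hp3⟩ := hpar Q K T ρ hK hT hQ hQQ₁ hρ0 hρ1 hup hlow
  have hj₀ : j₀ ≤ j := by
    have h1 : (2 ^ j₀ : ℝ) ^ L * ρ ^ L ≤ 1 := by
      calc (2 ^ j₀ : ℝ) ^ L * ρ ^ L ≤ Q * ρ ^ L := by
            gcongr
            exact (le_max_right _ _).trans hQ₀
        _ ≤ Q * T * ρ ^ L := by
            have : Q ≤ Q * T := le_mul_of_one_le_right hQ0.le hT
            gcongr
        _ ≤ 1 := hup
    rw [← mul_pow] at h1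
    have h2 : (2 : ℝ) ^ j₀ * ρ ≤ 1 := by
      by_contra hcon
      push Not at hcon
      have := one_lt_pow₀ hcon (by omega : L ≠ 0)
      linarith
    rw [hρ, mul_one_div, div_le_one (by positivity)] at h2
    exact (pow_le_pow_iff_right₀ (by norm_num : (1 : ℝ) < 2)).mp h2
  -- reduction to the subcubes
  refine cube_sum hj₀ k₀ {x | ∃ c : Idx d m → ℤ, c ≠ 0 ∧
    ∀ a, |(HF F Q K T x).mulVec (fun b => (c b : ℝ)) a| < ε₁ / 2} _ ?_
  intro k hk
  obtain ⟨xc, hxc⟩ := km_nonempty_cube j k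
  have hxc' : xc ∈ closure (cube j₀ k₀) := subset_closure (hk hxc)
  choose P hPdeg hPder hPerr using fun i => hMi3 i xc hxc'
  have hmain := hkm (HM P Q K T) (totalDegree_HM P Q K T L hL1 hPdeg) j k
    (hsup P hPdeg j k xc hxc
      (fun i I _ hI => by
        rw [hPder i I (by omega)]
        exact (hMi2 i I (by omega) xc hxc').trans (hMle i))
      (fun z => by
        obtain ⟨I, hI1, hI2, hI3⟩ := hnd xc (hk hxc) z
        refine ⟨I, hI1, hI2, ?_⟩
        rw [Finset.sum_congr rfl fun i _ => by rw [hPder i I (by omega)]]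
        exact hI3)
      Q K T A hK hT le_rfl hQ hp1 hp2)
  refine le_trans (measure_mono ?_) hmain
  rintro x ⟨hx, c, hc0, hc⟩
  refine ⟨hx, c, hc0, ?_⟩
  have hxx : ‖x - xc‖ ≤ ρ := cube_dist hx hxc
  have hx' : x ∈ closure (cube j₀ k₀) := subset_closure (hk hx)
  have := approx_dual F P Q K T M ρ (ε₁ / 2) L hL1 hK hT hQ0 hM0.le hρ0 hp3 (by positivity) hjup x
    (fun i => by
      refine (hPerr i x hx').1.trans ?_
      have h1 : ‖x - xc‖ ^ L ≤ ρ ^ L := pow_le_pow_left₀ (norm_nonneg _) hxx L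
      exact mul_le_mul (hMle i) h1 (by positivity) hM0.le)
    (fun b i => by
      refine ((hPerr i x hx').2 b).trans ?_
      have h1 : ‖x - xc‖ ^ (L - 1) ≤ ρ ^ (L - 1) := pow_le_pow_left₀ (norm_nonneg _) hxx _
      exact mul_le_mul (hMle i) h1 (by positivity) hM0.le)
    (fun b => (c b : ℝ)) hc
  intro b
  have := this b
  linarith

end Pool.Agent.Lib.MP_a37012_nt
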