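import Pool.Agent.Lib.MP_a37012_nt.Defs

set_option autoImplicit false

namespace Pool.Agent.Lib.MP_a37012_nt

open Module

/-- An integer matrix with independent columns has a nonzero maximal minor. -/
theorem exists_minor_ne_zero {ι : Type} [Fintype ι] {r : ℕ} (B : Matrix ι (Fin r) ℤ)
    (h : LinearIndependent ℤ (fun t : Fin r => fun a => B a t)) :
    ∃ e : Fin r → ι, (B.submatrix e id).det ≠ 0 := by
  classical
  set Bq : ι → (Fin r → ℚ) := fun a t => (B a t : ℚ) with hBq
  by_cases htop : Submodule.span ℚ (Set.range Bq) = ⊤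
  · obtain ⟨f, hf1, hf2, hf3⟩ := Submodule.exists_fun_fin_finrank_span_eq ℚ (Set.range Bq)
    have hr : finrank ℚ (Submodule.span ℚ (Set.range Bq)) = r := by
      rw [htop, finrank_top, finrank_fintype_fun_eq_card, Fintype.card_fin]
    choose e₀ he₀ using hf1
    set e : Fin r → ι := fun t => e₀ (Fin.cast hr.symm t) with he
    refine ⟨e, ?_⟩
    have hli : LinearIndependent ℚ (fun t : Fin r => Bq (e t)) := by
      have : (fun t : Fin r => Bq (e t)) = f ∘ (finCongr hr.symm) := by
        funext t
        simp [he, he₀, finCongr]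
      rw [this]
      exact hf3.comp _ (finCongr hr.symm).injective
    have hdet : ((B.map (Int.cast : ℤ → ℚ)).submatrix e id).det ≠ 0 := by
      have h1 : IsUnit ((B.map (Int.cast : ℤ → ℚ)).submatrix e id) := by
        rw [← Matrix.linearIndependent_rows_iff_isUnit]
        exact hli
      exact (Matrix.isUnit_iff_isUnit_det _).mp h1 |>.ne_zero
    intro h0
    apply hdet
    have h2 : (B.map (Int.cast : ℤ → ℚ)).submatrix e id =
        (Int.castRingHom ℚ).mapMatrix (B.submatrix e id) := rfl
    rw [h2, ← RingHom.map_det, h0, map_zero]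
  · exfalso
    obtain ⟨f, hf0, hf⟩ := Submodule.exists_le_ker_of_lt_top _ (lt_top_iff_ne_top.mpr htop)
    set q : Fin r → ℚ := fun t => f (Pi.single t 1) with hq
    have hfq : ∀ v : Fin r → ℚ, f v = ∑ t, v t * q t := by
      intro v
      conv_lhs => rw [← Finset.univ_sum_single v]
      rw [map_sum]
      refine Finset.sum_congr rfl fun t _ => ?_
      have : (Pi.single t (v t) : Fin r → ℚ) = v t • Pi.single t 1 := by
        rw [← Pi.single_smul, smul_eq_mul, mul_one]
      rw [this, map_smul, smul_eq_mul]
    have hq0 : q ≠ 0 := by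
      intro h0
      apply hf0
      ext v
      simp [hq] at h0
      have := congrFun h0 v
      simpa using this
    have hBq0 : ∀ a, ∑ t, (B a t : ℚ) * q t = 0 := by
      intro a
      have : Bq a ∈ LinearMap.ker f := hf (Submodule.subset_span ⟨a, rfl⟩)
      rw [LinearMap.mem_ker, hfq] at this
      exact this
    -- clear denominators
    obtain ⟨n, hn0, hn⟩ : ∃ n : ℕ, n ≠ 0 ∧ ∀ t, ∃ c : ℤ, (n : ℚ) * q t = c := by
      refine ⟨∏ t, (q t).den, Finset.prod_ne_zero_iff.mpr fun t _ => (q t).den_nz, fun t => ?_⟩
      refine ⟨(∏ s ∈ Finset.univ.erase t, (q s).den : ℕ) * (q t).num, ?_⟩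
      rw [← Finset.mul_prod_erase Finset.univ _ (Finset.mem_univ t)]
      push_cast
      have := Rat.den_mul_eq_num (q t)
      linear_combination (∏ s ∈ Finset.univ.erase t, ((q s).den : ℚ)) * this
    choose c hc using hn
    have hdep := Fintype.linearIndependent_iff.mp h c (by
      funext a
      rw [Finset.sum_apply]
      have h1 : (((∑ t, (c t • fun a => B a t) a) : ℤ) : ℚ) = 0 := by
        push_cast
        have h2 : ∀ t, (((c t • fun a => B a t) a : ℤ) : ℚ) = n * ((B a t : ℚ) * q t) := by
          intro t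
          rw [Pi.smul_apply, smul_eq_mul]
          push_cast
          rw [← hc]
          ring
        rw [Finset.sum_congr rfl fun t _ => h2 t, ← Finset.mul_sum, hBq0, mul_zero]
      exact_mod_cast h1)
    apply hq0
    funext t
    have h1 := hc t
    rw [hdep t] at h1
    have h2 : (n : ℚ) ≠ 0 := by exact_mod_cast hn0
    simpa [h2] using h1

end Pool.Agent.Lib.MP_a37012_nt
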