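import Pool.Agent.Lib.MP_a37012_nt.Mg.G005
import Pool.Agent.Lib.MP_a37012_nt.Mg.G006
import Pool.Agent.Lib.MP_a37012_nt.Mg.G002
import Pool.Agent.Lib.MP_a37012_nt.Mg.G003

/-!
# Hypersurfaces: most points have no short dual vector
-/

set_option autoImplicit false

open MeasureTheory MvPolynomial

namespace Pool.Agent.Lib.MP_a37012_nt

theorem det_PM_one {d : ℕ} (F : (Fin d → ℝ) → ℝ) (x : Fin d → ℝ) : (PM F 1 x).det = 1 := by
  classical
  have hbt : Matrix.BlockTriangular (PM F 1 x) (fun a : Idx d 1 => cls a) := by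
    intro a b hab
    rcases a with _ | (i | i) <;> rcases b with _ | (j | j) <;>
      first
        | rfl
        | (simp [cls] at hab)
  rw [hbt.det]
  refine Finset.prod_eq_one fun a _ => ?_
  have : (PM F 1 x).toSquareBlock (fun a : Idx d 1 => cls a) a = 1 := by
    ext ⟨s, hs⟩ ⟨t, ht⟩
    have hst : cls s = cls t := by rw [hs, ht]
    simp only [Matrix.toSquareBlock_def, Matrix.of_apply, Matrix.one_apply, Subtype.mk.injEq]
    rcases s with _ | (i | i) <;> rcases t with _ | (j | j)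
    · simp [PM]
    · simp [cls] at hst
    · simp [cls] at hst
    · simp [cls] at hst
    · simp [PM]
    · simp [cls] at hst
    · simp [cls] at hst
    · simp [cls] at hst
    · simp [PM, Subsingleton.elim i j]
  rw [this, Matrix.det_one]

theorem det_PM {d : ℕ} (F : (Fin d → ℝ) → ℝ) (N : ℝ) (hN : N ≠ 0) (x : Fin d → ℝ) :
    (PM F N x).det = 1 := by
  have h1 : PM F N x = Matrix.of fun a b => (match a with
      | none => N
      | some (Sum.inl _) => 1
      | some (Sum.inr _) => 1 / N) * PM F 1 x a b := by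
    ext a b
    rw [Matrix.of_apply]
    rcases a with _ | (i | i) <;> rcases b with _ | (j | j) <;> simp [PM]
  rw [h1, Matrix.det_mul_column, det_PM_one, mul_one, Fintype.prod_option, Fintype.prod_sum_type]
  simp [hN]

theorem po_none {d : ℕ} (F : Fin 1 → (Fin d → ℝ) → ℝ) (Q K T : ℝ) (x : Fin d → ℝ)
    (w : Idx d 1 → ℝ) : (HF F Q K T x).mulVec w none =
      Q * (w none + (∑ a, x a * w (some (Sum.inl a))) + F 0 x * w (some (Sum.inr 0))) := by
  rw [Matrix.mulVec, dotProduct, Fintype.sum_option, Fintype.sum_sum_type]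
  simp only [HF, UF, wt, Matrix.of_apply, Finset.univ_unique, Finset.sum_singleton,
    Fin.default_eq_zero, mul_assoc]
  rw [← Finset.mul_sum]
  ring

theorem po_inl {d : ℕ} (F : Fin 1 → (Fin d → ℝ) → ℝ) (Q K T : ℝ) (x : Fin d → ℝ)
    (w : Idx d 1 → ℝ) (i : Fin d) : (HF F Q K T x).mulVec w (some (Sum.inl i)) =
      K⁻¹ * (w (some (Sum.inl i)) + pd i (F 0) x * w (some (Sum.inr 0))) := by
  rw [Matrix.mulVec, dotProduct, Fintype.sum_option, Fintype.sum_sum_type]
  simp only [HF, UF, wt, Matrix.of_apply, Finset.univ_unique, Finset.sum_singleton,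
    Fin.default_eq_zero, mul_zero, zero_mul, zero_add]
  rw [Finset.sum_eq_single i]
  · simp
    ring
  · intro b _ hb
    rw [if_neg (Ne.symm hb), mul_zero, zero_mul]
  · simp

theorem po_inr {d : ℕ} (F : Fin 1 → (Fin d → ℝ) → ℝ) (Q K T : ℝ) (x : Fin d → ℝ)
    (w : Idx d 1 → ℝ) : (HF F Q K T x).mulVec w (some (Sum.inr 0)) =
      T⁻¹ * w (some (Sum.inr 0)) := by
  rw [Matrix.mulVec, dotProduct, Fintype.sum_option, Fintype.sum_sum_type]
  simp [HF, UF, wt]

/-- The pairing between the primal and the dual matrix. -/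
theorem po_pair {d : ℕ} (F : Fin 1 → (Fin d → ℝ) → ℝ) (N : ℝ) (hN : N ≠ 0) (x : Fin d → ℝ)
    (w : Idx d 1 → ℝ) (Y : Idx d 1 → ℝ)
    (h0 : Y none = (HF F N 1 N x).mulVec w (some (Sum.inr 0)))
    (h1 : ∀ i, Y (some (Sum.inl i)) = (HF F N 1 N x).mulVec w (some (Sum.inl i)))
    (h2 : Y (some (Sum.inr 0)) = (HF F N 1 N x).mulVec w none) :
    w (some (Sum.inr 0)) = ∑ i, Y i * PM (F 0) N x i none ∧
    (∀ a, w (some (Sum.inl a)) = ∑ i, Y i * PM (F 0) N x i (some (Sum.inl a))) ∧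
    w none = ∑ i, Y i * PM (F 0) N x i (some (Sum.inr 0)) := by
  rw [po_inr] at h0
  rw [po_none] at h2
  simp only [po_inl, inv_one, one_mul] at h1
  refine ⟨?_, ?_, ?_⟩
  · rw [Fintype.sum_option, Fintype.sum_sum_type, h0]
    simp only [PM, mul_zero, Finset.sum_const_zero, add_zero]
    field_simp
  · intro a
    rw [Fintype.sum_option, Fintype.sum_sum_type, h0]
    simp only [PM, mul_zero, Finset.sum_const_zero, add_zero]
    rw [Finset.sum_eq_single a]
    · rw [h1]
      simp only [if_true]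
      field_simp
      ring
    · intro b _ hb
      rw [if_neg hb, mul_zero]
    · simp
  · rw [Fintype.sum_option, Fintype.sum_sum_type, h0]
    simp only [PM, Finset.univ_unique, Finset.sum_singleton, Fin.default_eq_zero]
    rw [h2]
    have h3 : ∑ i, Y (some (Sum.inl i)) * -x i =
        -(∑ i, x i * w (some (Sum.inl i))) -
          (∑ i, pd i (F 0) x * x i) * w (some (Sum.inr 0)) := by
      rw [Finset.sum_mul, ← Finset.sum_neg_distrib, ← Finset.sum_sub_distrib]
      refine Finset.sum_congr rfl fun i _ => ?_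
      rw [h1]
      ring
    rw [h3]
    field_simp
    ring

/-- A short dual vector gives a short primal vector. -/
theorem po_dual {d : ℕ} (s : ℝ) (hs : 0 < s) (ε : ℝ) (hε : 0 < ε)
    (hεs : ε ≤ 1 / 2 * (s / (2 * Fintype.card (Idx d 1))) ^ (Fintype.card (Idx d 1) - 1))
    (F : Fin 1 → (Fin d → ℝ) → ℝ) (N : ℝ) (hN : 0 < N) (x : Fin d → ℝ) (w : Idx d 1 → ℤ)
    (hw : w ≠ 0) (h : ∀ a, |(HF F N 1 N x).mulVec (fun b => (w b : ℝ)) a| < ε) :
    ∃ c : Idx d 1 → ℤ, c ≠ 0 ∧
      ∀ a, |(PM (F 0) N x).mulVec (fun b => (c b : ℝ)) a| < s := by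
  classical
  set n := Fintype.card (Idx d 1) with hn
  have hn0 : 0 < n := Fintype.card_pos
  have hnR : (0 : ℝ) < n := by exact_mod_cast hn0
  set y : Idx d 1 → ℝ := (HF F N 1 N x).mulVec (fun b => (w b : ℝ)) with hy
  set Y : Idx d 1 → ℝ := fun a => match a with
    | none => y (some (Sum.inr 0))
    | some (Sum.inl i) => y (some (Sum.inl i))
    | some (Sum.inr _) => y none with hY
  have hYlt : ∀ a, |Y a| < ε := by
    intro a
    rcases a with _ | (i | i)
    · exact h _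
    · exact h _
    · exact h _
  obtain ⟨p0, p1, p2⟩ := po_pair F N hN.ne' x (fun b => (w b : ℝ)) Y rfl (fun i => rfl) rfl
  set X : Idx d 1 → ℤ := fun a => match a with
    | none => w (some (Sum.inr 0))
    | some (Sum.inl i) => w (some (Sum.inl i))
    | some (Sum.inr _) => w none with hX
  have hX0 : X ≠ 0 := by
    intro h0
    apply hw
    funext a
    rcases a with _ | (i | i)
    · exact congrFun h0 (some (Sum.inr 0))
    · exact congrFun h0 (some (Sum.inl i))
    · rw [Subsingleton.elim i 0]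
      exact congrFun h0 none
  set H : Matrix (Idx d 1) (Idx d 1) ℝ := ε • PM (F 0) N x with hH
  have hdet : H.det = ε ^ n := by
    rw [hH, Matrix.det_smul, det_PM _ _ hN.ne', mul_one]
  set τ : ℝ := s * ε / (2 * n) with hτ
  have hτ0 : 0 < τ := by positivity
  have g1 : ∀ j, (X j : ℝ) = ∑ i, Y i / ε * H i j := by
    have key : ∀ j, ∑ i, Y i / ε * H i j = ∑ i, Y i * PM (F 0) N x i j := by
      intro j
      refine Finset.sum_congr rfl fun i _ => ?_
      rw [hH, Matrix.smul_apply, smul_eq_mul]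
      field_simp
    intro j
    rw [key]
    rcases j with _ | (i | i)
    · exact p0
    · exact p1 i
    · rw [Subsingleton.elim i 0]
      exact p2
  have g2 : ∀ a, |Y a / ε| ≤ 1 := by
    intro a
    rw [abs_div, abs_of_pos hε, div_le_one hε]
    exact (hYlt a).le
  have g3 : |H.det| ≤ 1 / 2 * τ ^ (n - 1) := by
    rw [hdet, abs_of_pos (by positivity)]
    have h4 : ε ^ n = ε * ε ^ (n - 1) := by
      rw [← pow_succ', Nat.sub_add_cancel hn0]
    rw [h4]
    calc ε * ε ^ (n - 1) ≤ (1 / 2 * (s / (2 * n)) ^ (n - 1)) * ε ^ (n - 1) := by gcongr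
      _ = 1 / 2 * τ ^ (n - 1) := by
          rw [mul_assoc, ← mul_pow, hτ]
          congr 2
          ring
  obtain ⟨c, hc0, hc⟩ := dual_vector H (by rw [hdet]; positivity) (fun a => Y a / ε) X g1 hX0 g2 τ
    hτ0 g3
  refine ⟨c, hc0, fun a => ?_⟩
  have h1 := hc a
  rw [hH, Matrix.smul_mulVec, Pi.smul_apply, smul_eq_mul, abs_mul, abs_of_pos hε] at h1
  have h2 : (n : ℝ) * τ = ε * (s / 2) := by
    rw [hτ]
    field_simp
  rw [h2] at h1
  have h3 := le_of_mul_le_mul_left h1 hε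
  linarith

theorem parGood_one (d l : ℕ) (hd : 1 ≤ d) (hl : 2 ≤ l) (V : Set (Fin d → ℝ))
    (hV : IsOpen V) (F : Fin 1 → (Fin d → ℝ) → ℝ) (hF : ∀ i, ContDiffOn ℝ l (F i) V)
    (y₀ : Fin d → ℝ) (hy₀ : y₀ ∈ V)
    (hnd : ∀ z : Fin 1 → ℝ, z ≠ 0 → ∃ I : List (Fin d), 2 ≤ I.length ∧ I.length ≤ l ∧
        ∑ i, z i * pds I (F i) y₀ ≠ 0) :
    ∃ (j₀ : ℕ) (k₀ : Fin d → ℤ), closure (cube j₀ k₀) ⊆ V ∧ ParGood F j₀ k₀ := by
  classical
  obtain ⟨x₁, hx₁, i, a, b, hab⟩ := pt_second d 1 l le_rfl V hV F y₀ hy₀ hnd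
  obtain rfl : i = 0 := Subsingleton.elim _ _
  have hF2 : ContDiffOn ℝ (2 : ℕ) (F 0) V := (hF 0).of_le (by exact_mod_cast hl)
  obtain ⟨V', κ, hV', hne, hVV', hκ, ⟨a', b', c₀, hc₀, hab'⟩, hgood⟩ :=
    legendre_good d V hV (F 0) hF2 x₁ hx₁ a b hab
  have hF2' : ContDiffOn ℝ (2 : ℕ) (F 0) V' := hF2.mono hVV'
  obtain ⟨j₀, k₀, N₀, ρ, hcl, hρ, hρ1, hpm⟩ := pm_good d hd V' hV' hne (F 0) hF2' κ hκ a' b' c₀ hc₀
    hab' hgood
  obtain ⟨η', hη', hkm⟩ := km_cont d (Idx d 1) (1 / 2) (by norm_num)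
  obtain ⟨ε, hε, hερ, hpm'⟩ := hpm η' hη'
  set s : ℝ := ε / (Fintype.card (Idx d 1) + 1) with hs
  have hs0 : 0 < s := by positivity
  have hn0 : (0 : ℝ) < Fintype.card (Idx d 1) := by
    have : 0 < Fintype.card (Idx d 1) := Fintype.card_pos
    exact_mod_cast this
  set εP : ℝ := 1 / 2 * (s / (2 * Fintype.card (Idx d 1))) ^ (Fintype.card (Idx d 1) - 1) with hεP
  have hεP0 : 0 < εP := by positivity
  refine ⟨j₀, k₀, hcl.trans hVV', εP, max N₀ 1, hεP0, ?_⟩
  intro N T hN hT hTN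
  have hN1 : 1 ≤ N := (le_max_right _ _).trans hN
  have hN0 : 0 < N := by linarith
  have hsub : cube j₀ k₀ ⊆ V' := subset_closure.trans hcl
  have hpdc : ∀ i, ∀ x ∈ cube j₀ k₀, ContinuousAt (pd i (F 0)) x := by
    intro i x hx
    have h1 : ContDiffOn ℝ (1 : ℕ) (pd i (F 0)) V' :=
      tay_pd hV' (n := 1) (by simpa using hF2') i
    exact h1.continuousOn.continuousAt (hV'.mem_nhds (hsub hx))
  have hfc : ∀ x ∈ cube j₀ k₀, ContinuousAt (F 0) x := fun x hx =>
    hF2'.continuousOn.continuousAt (hV'.mem_nhds (hsub hx))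
  have hxc : ∀ (i : Fin d) (x : Fin d → ℝ), ContinuousAt (fun x : Fin d → ℝ => x i) x :=
    fun i x => (continuous_apply i).continuousAt
  have hmain := hkm ρ ε hρ hρ1 hε hερ (PM (F 0) N) j₀ k₀ (by
    intro x hx a b
    rcases a with _ | (i | i) <;> rcases b with _ | (j | j)
    · exact continuousAt_const
    · exact (continuousAt_const.mul (hpdc j x hx)).neg
    · refine continuousAt_const.mul (ContinuousAt.sub ?_ (hfc x hx))
      exact tendsto_finsetSum _ fun a _ => (hpdc a x hx).mul (hxc a x)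
    · exact continuousAt_const
    · exact continuousAt_const
    · exact (hxc i x).neg
    · exact continuousAt_const
    · exact continuousAt_const
    · exact continuousAt_const) (hpm' N ((le_max_left _ _).trans hN))
  refine le_trans (measure_mono ?_) hmain
  rintro x ⟨hx, w, hw0, hw⟩
  refine ⟨hx, ?_⟩
  have hTN' : T ≤ N := by
    have h1 : T ^ 2 ≤ N ^ 2 := by simpa using hTN
    exact le_of_pow_le_pow_left₀ two_ne_zero hN0.le h1
  refine po_dual s hs0 εP hεP0 le_rfl F N hN0 x w hw0 fun a => ?_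
  have h1 : wt N 1 N a = T / N * wt (N ^ 2 / T) (T / N) T a := by
    rcases a with _ | (i | i)
    · simp only [wt]
      field_simp
    · simp only [wt]
      field_simp
    · simp only [wt]
      field_simp
  rw [HF_mulVec_scale F (N ^ 2 / T) (T / N) T N 1 N x _ a (T / N) h1, abs_mul,
    abs_of_pos (by positivity)]
  refine lt_of_le_of_lt ?_ (hw a)
  refine mul_le_of_le_one_left (abs_nonneg _) ?_
  rw [div_le_one hN0]
  exact hTN'

end Pool.Agent.Lib.MP_a37012_nt
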