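import Pool.Agent.Lib.MP_a37012_nt.Mg.G008
import Pool.Agent.Lib.MP_a37012_nt.Mg.G006
import Pool.Agent.Lib.MP_a37012_nt.Mg.G007

/-!
# Codimension at least two: conclusion
-/

set_option autoImplicit false

open MeasureTheory MvPolynomial

namespace Pool.Agent.Lib.MP_a37012_nt

/-- Adding up over the subcubes. -/
theorem pt_sum {d : ℕ} (j a : ℕ) (k : Fin d → ℤ) (Bad : Set (Fin d → ℝ))
    (p : (Fin d → Fin (2 ^ a)) → Prop) (α β : ℝ) (hα : 0 ≤ α) (hβ : 0 ≤ β)
    (hp : (Nat.card {u : Fin d → Fin (2 ^ a) // p u} : ℝ) ≤ α * (2 ^ a) ^ d)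
    (h : ∀ u, ¬ p u → volume {x | x ∈ cube (j + a) (fun i => 2 ^ a * k i + (u i : ℕ)) ∧ x ∈ Bad} ≤
      ENNReal.ofReal β * volume (cube (j + a) (fun i => 2 ^ a * k i + (u i : ℕ)))) :
    volume {x | x ∈ cube j k ∧ x ∈ Bad} ≤ ENNReal.ofReal (α + β) * volume (cube j k) := by
  classical
  have hcov : {x | x ∈ cube j k ∧ x ∈ Bad} ⊆ ⋃ u : Fin d → Fin (2 ^ a),
      {x | x ∈ cube (j + a) (fun i => 2 ^ a * k i + (u i : ℕ)) ∧ x ∈ Bad} := by
    rintro x ⟨hx, hxB⟩
    rw [Set.mem_iUnion]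
    have h1 : ∀ i, 2 ^ a * k i ≤ kmIdx (j + a) x i ∧ kmIdx (j + a) x i < 2 ^ a * (k i + 1) := by
      intro i
      obtain ⟨h2, h3⟩ := hx i
      have hj : (0 : ℝ) < 2 ^ j := by positivity
      rw [div_le_iff₀ hj] at h2
      rw [lt_div_iff₀ hj] at h3
      have ha : (0 : ℝ) < 2 ^ a := by positivity
      unfold kmIdx
      constructor
      · rw [Int.le_floor]
        push_cast
        rw [pow_add]
        nlinarith
      · rw [Int.floor_lt]
        push_cast
        rw [pow_add]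
        nlinarith
    refine ⟨fun i => ⟨(kmIdx (j + a) x i - 2 ^ a * k i).toNat, ?_⟩, ?_, hxB⟩
    · obtain ⟨h2, h3⟩ := h1 i
      have : ((kmIdx (j + a) x i - 2 ^ a * k i).toNat : ℤ) < ((2 ^ a : ℕ) : ℤ) := by
        rw [Int.toNat_of_nonneg (by linarith)]
        push_cast
        linarith
      exact_mod_cast this
    · rw [km_mem_cube]
      funext i
      obtain ⟨h2, h3⟩ := h1 i
      simp only
      rw [Int.toNat_of_nonneg (by linarith)]
      ring
  set v : ℝ := (1 / 2 ^ (j + a)) ^ d with hv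
  have hv0 : 0 ≤ v := by positivity
  have hvol : ∀ u : Fin d → Fin (2 ^ a), volume (cube (j + a) (fun i => 2 ^ a * k i + (u i : ℕ))) =
      ENNReal.ofReal v := fun u => by
    rw [km_volume_cube, ← ENNReal.ofReal_pow (by positivity)]
  have hterm : ∀ u : Fin d → Fin (2 ^ a),
      volume {x | x ∈ cube (j + a) (fun i => 2 ^ a * k i + (u i : ℕ)) ∧ x ∈ Bad} ≤
        ENNReal.ofReal (if p u then v else β * v) := by
    intro u
    by_cases hu : p u
    · rw [if_pos hu, ← hvol u]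
      exact measure_mono fun x hx => hx.1
    · rw [if_neg hu]
      refine (h u hu).trans ?_
      rw [hvol, ← ENNReal.ofReal_mul hβ]
  calc volume {x | x ∈ cube j k ∧ x ∈ Bad}
      ≤ ∑ u : Fin d → Fin (2 ^ a),
        volume {x | x ∈ cube (j + a) (fun i => 2 ^ a * k i + (u i : ℕ)) ∧ x ∈ Bad} := by
        refine (measure_mono hcov).trans ((measure_iUnion_le _).trans ?_)
        rw [tsum_fintype]
    _ ≤ ∑ u : Fin d → Fin (2 ^ a), ENNReal.ofReal (if p u then v else β * v) :=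
        Finset.sum_le_sum fun u _ => hterm u
    _ = ENNReal.ofReal (∑ u : Fin d → Fin (2 ^ a), if p u then v else β * v) := by
        rw [ENNReal.ofReal_sum_of_nonneg]
        intro u _
        split_ifs <;> positivity
    _ ≤ ENNReal.ofReal ((α + β) * (1 / 2 ^ j) ^ d) := by
        apply ENNReal.ofReal_le_ofReal
        have h1 : (∑ u : Fin d → Fin (2 ^ a), if p u then v else β * v) ≤
            (∑ u : Fin d → Fin (2 ^ a), ((if p u then v else 0) + β * v)) := by
          refine Finset.sum_le_sum fun u _ => ?_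
          split_ifs
          · have : 0 ≤ β * v := by positivity
            linarith
          · linarith
        refine h1.trans ?_
        rw [Finset.sum_add_distrib, ← Finset.sum_filter, Finset.sum_const, Finset.sum_const,
          Finset.card_univ, nsmul_eq_mul, nsmul_eq_mul]
        rw [Nat.card_eq_fintype_card, Fintype.card_subtype] at hp
        have hcard : (Fintype.card (Fin d → Fin (2 ^ a)) : ℝ) = (2 ^ a) ^ d := by
          rw [Fintype.card_fun, Fintype.card_fin, Fintype.card_fin]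
          push_cast
          ring
        rw [hcard]
        have h2 : (2 ^ a : ℝ) ^ d * v = (1 / 2 ^ j) ^ d := by
          rw [hv, ← mul_pow]
          congr 1
          rw [pow_add]
          field_simp
        calc ((Finset.univ.filter p).card : ℝ) * v + (2 ^ a) ^ d * (β * v)
            ≤ α * (2 ^ a) ^ d * v + (2 ^ a) ^ d * (β * v) := by gcongr
          _ = (α + β) * ((2 ^ a) ^ d * v) := by ring
          _ = (α + β) * (1 / 2 ^ j) ^ d := by rw [h2]
    _ = ENNReal.ofReal (α + β) * volume (cube j k) := by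
        rw [km_volume_cube, ← ENNReal.ofReal_pow (by positivity), ← ENNReal.ofReal_mul
          (by positivity)]

/-- Most points of a good cube have no short vector. -/
theorem pt_km (d m l : ℕ) (hl : 1 ≤ l) (A : ℝ) (hA : 1 ≤ A) (η : ℝ) (hη : 0 < η) :
    ∃ ε : ℝ, 0 < ε ∧ ∀ (F : Fin m → (Fin d → ℝ) → ℝ) (P : Fin m → MvPolynomial (Fin d) ℝ),
      (∀ i, (P i).totalDegree ≤ l) → ∀ (θ : ℝ) (J : ℕ) (_ : 0 < θ) (k : Fin d → ℤ),
      (∀ x ∈ cube J k, PtApp F P θ J x) → (∀ W, A⁻¹ ≤ ptPsi F θ J k W) →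
      volume {x | x ∈ cube J k ∧ ∃ c : Idx d m → ℤ, c ≠ 0 ∧
        ∀ a, |(HFj F θ J x).mulVec (fun b => (c b : ℝ)) a| < ε} ≤
        ENNReal.ofReal η * volume (cube J k) := by
  classical
  obtain ⟨ε₁, hε₁, hkm⟩ := km d l (Idx d m) η hη
  have hK := ptK_one d m
  have hK0 : 0 < ptK d m := by linarith
  set n := Fintype.card (Idx d m) with hn
  have hn1 : (1 : ℝ) ≤ n := pt_card_pos d m
  have hn0 : (0 : ℝ) < n := by linarith
  set s : ℝ := 2 * A * ptK d m with hs
  have hs1 : 1 ≤ s := by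
    have : 1 ≤ A * ptK d m := one_le_mul_of_one_le_of_one_le hA hK
    rw [hs]
    linarith
  have hs0 : 0 < s := by linarith
  refine ⟨ε₁ / (s * n), by positivity, ?_⟩
  intro F P hP θ J hθ k happ hΨ
  set H : Matrix (Idx d m) (Idx d m) (MvPolynomial (Fin d) ℝ) := Matrix.of fun a b =>
    C s * HM P (θ ^ (2 * m * J)) ((θ ^ ((m - 1) * J))⁻¹) (θ ^ (2 * J)) a b with hH
  have hHdeg : ∀ a b, (H a b).totalDegree ≤ l := by
    intro a b
    rw [hH, Matrix.of_apply]
    refine (totalDegree_mul _ _).trans ?_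
    rw [totalDegree_C, zero_add]
    exact totalDegree_HM P _ _ _ l hl hP a b
  have hev : ∀ x, evalM H x = s • HPj P θ J x := by
    intro x
    ext a b
    simp [evalM, hH, HPj]
  refine le_trans (measure_mono ?_) (hkm H hHdeg J k ?_)
  · rintro x ⟨hx, c, hc0, hc⟩
    refine ⟨hx, c, hc0, fun a => ?_⟩
    obtain ⟨X, Y, hX, hY, h1, h2⟩ := pt_cmp_level F P θ hθ J x (happ x hx)
    rw [hev, Matrix.smul_mulVec, Pi.smul_apply, smul_eq_mul, h2, ← Matrix.mulVec_mulVec, abs_mul,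
      abs_of_pos hs0]
    have h3 : |Y.mulVec ((HFj F θ J x).mulVec fun b => (c b : ℝ)) a| < n * (ε₁ / (s * n)) := by
      unfold Matrix.mulVec dotProduct
      refine (Finset.abs_sum_le_sum_abs _ _).trans_lt ?_
      calc ∑ b, |Y a b * ∑ b', HFj F θ J x b b' * (c b' : ℝ)| < ∑ _b : Idx d m, ε₁ / (s * n) := by
            refine Finset.sum_lt_sum_of_nonempty Finset.univ_nonempty fun b _ => ?_
            rw [abs_mul]
            refine lt_of_le_of_lt ?_ (hc b)
            exact mul_le_of_le_one_left (abs_nonneg _) (hY a b)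
        _ = n * (ε₁ / (s * n)) := by
            rw [Finset.sum_const, Finset.card_univ, nsmul_eq_mul]
    calc s * |Y.mulVec ((HFj F θ J x).mulVec fun b => (c b : ℝ)) a|
        < s * (n * (ε₁ / (s * n))) := by gcongr
      _ = ε₁ := by field_simp
  · intro r B hB
    have hBq : LinearIndependent ℚ (kmCol B) := by
      have h1 : LinearIndependent ℤ (kmCol B) := by
        have h2 : kmCol B = kmCast (Idx d m) ∘ (fun t : Fin r => fun a => B a t) := rfl
        rw [h2]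
        exact hB.map' (kmCast (Idx d m)) (kmCast_ker _)
      exact (LinearIndependent.iff_fractionRing ℤ ℚ).mp h1
    set W := Submodule.span ℚ (Set.range (kmCol B)) with hW
    have hKM : KMat W B := ⟨hBq, rfl⟩
    rcases Nat.eq_zero_or_pos r with hr | hr
    · subst hr
      obtain ⟨x, hx⟩ := km_nonempty_cube J k
      exact ⟨x, hx, Fin.elim0, by simp⟩
    · have h1 : A⁻¹ / 2 < ptPsi F θ J k W := by
        have := hΨ W
        have hA0 : 0 < A⁻¹ := by positivity
        linarith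
      obtain ⟨_, ⟨x, hx, rfl⟩, hx2⟩ := exists_lt_of_lt_csSup (by
        obtain ⟨x, hx⟩ := km_nonempty_cube J k
        exact ⟨_, x, hx, rfl⟩) h1
      simp only at hx2
      have h2 := (pt_cov_cmp F P θ hθ J x (happ x hx) W).1
      have h3 := cov_le (HPj P θ J x) W B hKM
      obtain ⟨e, he⟩ := exists_mm (HPj P θ J x * toR B)
      refine ⟨x, hx, e, ?_⟩
      have h4 : ((evalM H x * toR B).submatrix e id) =
          s • ((HPj P θ J x * toR B).submatrix e id) := by
        rw [hev, Matrix.smul_mul]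
        rfl
      rw [h4, Matrix.det_smul, abs_mul, he, Fintype.card_fin, abs_of_pos (by positivity)]
      have h5 : s ≤ s ^ r := le_self_pow₀ hs1 (by omega)
      have h6 : A⁻¹ / 2 ≤ ptK d m * mm (HPj P θ J x * toR B) := by
        calc A⁻¹ / 2 ≤ cov (HFj F θ J x) W := hx2.le
          _ ≤ ptK d m * cov (HPj P θ J x) W := h2
          _ ≤ ptK d m * mm (HPj P θ J x * toR B) := by gcongr
      calc (1 : ℝ) = 2 * A * (A⁻¹ / 2) := by field_simp
        _ ≤ 2 * A * (ptK d m * mm (HPj P θ J x * toR B)) := by gcongr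
        _ = s * mm (HPj P θ J x * toR B) := by rw [hs]; ring
        _ ≤ s ^ r * mm (HPj P θ J x * toR B) :=
            mul_le_mul_of_nonneg_right h5 (mm_nonneg _)

/-- Comparing the normalisation at a level with a general one. -/
theorem pt_norm {d m : ℕ} (hm : 1 ≤ m) (F : Fin m → (Fin d → ℝ) → ℝ) (θ : ℝ) (hθ : 1 < θ)
    (J b : ℕ) (N T ε : ℝ) (hN : 0 < N) (hT : 0 < T) (hTN : T ^ (m + 1) ≤ N ^ 2)
    (h1 : θ ^ ((m + 1) * J) ≤ N) (h2 : N < θ ^ ((m + 1) * (J + b))) (hε : 0 < ε)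
    (x : Fin d → ℝ) (c : Idx d m → ℝ)
    (hc : ∀ a, |(HF F (N ^ 2 / T) (T / N) T x).mulVec c a| < ε * (θ ^ (2 * b))⁻¹) :
    ∀ a, |(HFj F θ J x).mulVec c a| < ε := by
  have hθ0 : 0 < θ := by linarith
  have hrow : ∀ (Q K T : ℝ) (a : Idx d m), (HF F Q K T x).mulVec c a =
      wt Q K T a * (UF F x).mulVec c a := by
    intro Q K T a
    simp only [Matrix.mulVec, dotProduct, HF, Matrix.of_apply, Finset.mul_sum, mul_assoc]
  have hpb : (1 : ℝ) ≤ θ ^ (2 * b) := one_le_pow₀ hθ.le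
  have hinv : (θ ^ (2 * b))⁻¹ ≤ 1 := inv_le_one_of_one_le₀ hpb
  have hm1 : m + 1 ≠ 0 := by omega
  -- the three comparisons
  have k1 : θ ^ (2 * m * J) ≤ N ^ 2 / T := by
    rw [le_div_iff₀ hT]
    refine le_of_pow_le_pow_left₀ hm1 (by positivity) ?_
    calc (θ ^ (2 * m * J) * T) ^ (m + 1) = (θ ^ ((m + 1) * J)) ^ (2 * m) * T ^ (m + 1) := by
          rw [mul_pow, ← pow_mul, ← pow_mul]
          congr 2
          ring
      _ ≤ N ^ (2 * m) * N ^ 2 := by gcongr
      _ = (N ^ 2) ^ (m + 1) := by ring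
  have k2 : θ ^ ((m - 1) * J) ≤ (T / N)⁻¹ := by
    rw [inv_div, le_div_iff₀ hT]
    refine le_of_pow_le_pow_left₀ hm1 (by positivity) ?_
    calc (θ ^ ((m - 1) * J) * T) ^ (m + 1) = (θ ^ ((m + 1) * J)) ^ (m - 1) * T ^ (m + 1) := by
          rw [mul_pow, ← pow_mul, ← pow_mul]
          congr 2
          ring
      _ ≤ N ^ (m - 1) * N ^ 2 := by gcongr
      _ = N ^ (m + 1) := by rw [← pow_add]; congr 1; omega
  have k3 : (θ ^ (2 * J))⁻¹ * (θ ^ (2 * b))⁻¹ ≤ T⁻¹ := by
    rw [← mul_inv, ← pow_add]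
    apply inv_anti₀ hT
    refine le_of_pow_le_pow_left₀ hm1 (by positivity) ?_
    calc T ^ (m + 1) ≤ N ^ 2 := hTN
      _ ≤ (θ ^ ((m + 1) * (J + b))) ^ 2 := by gcongr
      _ = (θ ^ (2 * J + 2 * b)) ^ (m + 1) := by
          rw [← pow_mul, ← pow_mul]
          congr 1
          ring
  intro a
  have h3 := hc a
  unfold HFj
  rw [hrow, abs_mul] at h3 ⊢
  set u := |(UF F x).mulVec c a| with hu
  have hu0 : 0 ≤ u := abs_nonneg _
  rcases a with _ | (i | i)
  · simp only [wt] at h3 ⊢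
    rw [abs_of_pos (by positivity)] at h3 ⊢
    calc θ ^ (2 * m * J) * u ≤ N ^ 2 / T * u := by gcongr
      _ < ε * (θ ^ (2 * b))⁻¹ := h3
      _ ≤ ε * 1 := by gcongr
      _ = ε := mul_one _
  · simp only [wt, inv_inv] at h3 ⊢
    rw [abs_of_pos (by positivity)] at h3 ⊢
    calc θ ^ ((m - 1) * J) * u ≤ (T / N)⁻¹ * u := by gcongr
      _ < ε * (θ ^ (2 * b))⁻¹ := h3
      _ ≤ ε * 1 := by gcongr
      _ = ε := mul_one _
  · simp only [wt] at h3 ⊢
    rw [abs_of_pos (by positivity)] at h3 ⊢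
    have h4 : (θ ^ (2 * J))⁻¹ * (θ ^ (2 * b))⁻¹ * u < ε * (θ ^ (2 * b))⁻¹ :=
      (mul_le_mul_of_nonneg_right k3 hu0).trans_lt h3
    have h5 : 0 < (θ ^ (2 * b))⁻¹ := by positivity
    nlinarith

/-- `ParGood` in codimension at least two. -/
theorem parGood_two (d m l : ℕ) (hd : 1 ≤ d) (hm : 2 ≤ m) (hl : 2 ≤ l) (V : Set (Fin d → ℝ))
    (hV : IsOpen V) (F : Fin m → (Fin d → ℝ) → ℝ) (hF : ∀ i, ContDiffOn ℝ l (F i) V)
    (y₀ : Fin d → ℝ) (hy₀ : y₀ ∈ V)
    (hnd : ∀ z : Fin m → ℝ, z ≠ 0 → ∃ I : List (Fin d), 2 ≤ I.length ∧ I.length ≤ l ∧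
        ∑ i, z i * pds I (F i) y₀ ≠ 0) :
    ∃ (j₀ : ℕ) (k₀ : Fin d → ℤ), closure (cube j₀ k₀) ⊆ V ∧ ParGood F j₀ k₀ := by
  classical
  obtain ⟨y₁, r₁, c, hr₁, hc, hball, hndz, hsec⟩ := pt_setup d m l (by omega) hl V hV F hF y₀ hy₀
    hnd
  set c₀ : ℝ := c / 2 with hc₀
  have hc₀0 : 0 < c₀ := by positivity
  -- the base of the levels
  obtain ⟨θ, hθ0, hθl⟩ : ∃ θ : ℝ, 0 < θ ∧ θ ^ (2 * (m + 1)) = 2 ^ l := by
    refine ⟨((2 : ℝ) ^ l) ^ ((1 : ℝ) / ((2 * (m + 1) : ℕ) : ℝ)), by positivity, ?_⟩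
    rw [← Real.rpow_natCast, ← Real.rpow_mul (by positivity), one_div,
      inv_mul_cancel₀ (by positivity), Real.rpow_one]
  have hθ1 : 1 < θ := by
    by_contra hcon
    push Not at hcon
    have h1 : θ ^ (2 * (m + 1)) ≤ 1 := pow_le_one₀ hθ0.le hcon
    rw [hθl] at h1
    have h2 : (1 : ℝ) < 2 ^ l := one_lt_pow₀ (by norm_num) (by omega)
    linarith
  obtain ⟨b, hb, htree⟩ := pt_tree d m l hd hm hl θ hθ0 hθl c₀ hc₀0
  -- Taylor polynomials
  set ω : ℝ := min (min c₀ 1) ((2 ^ (b * l))⁻¹) with hω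
  have hω0 : 0 < ω := lt_min (lt_min hc₀0 one_pos) (by positivity)
  have hωc : ω ≤ c₀ := (min_le_left _ _).trans (min_le_left _ _)
  have hω1 : ω ≤ 1 := (min_le_left _ _).trans (min_le_right _ _)
  have hωb : ω * 2 ^ (b * l) ≤ 1 := by
    have h1 : ω ≤ (2 ^ (b * l))⁻¹ := min_le_right _ _
    calc ω * 2 ^ (b * l) ≤ (2 ^ (b * l))⁻¹ * 2 ^ (b * l) := by gcongr
      _ = 1 := inv_mul_cancel₀ (by positivity)
  choose ρ hρ0 hρ using fun i => taylor_o l (by omega) V hV (Metric.closedBall y₁ r₁)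
    (isCompact_closedBall _ _) (convex_closedBall _ _) hball (F i) (hF i) ω hω0
  obtain ⟨ρ₀, hρ₀0, hρ₀⟩ : ∃ ρ₀ : ℝ, 0 < ρ₀ ∧ ∀ i, ρ₀ ≤ ρ i := by
    have hne : (Finset.univ : Finset (Fin m)).Nonempty := ⟨⟨0, by omega⟩, Finset.mem_univ _⟩
    refine ⟨Finset.univ.inf' hne ρ, ?_, fun i => Finset.inf'_le _ (Finset.mem_univ i)⟩
    rw [Finset.lt_inf'_iff]
    exact fun i _ => hρ0 i
  -- the initial cube
  obtain ⟨ja, hja⟩ := exists_pow_lt_of_lt_one hρ₀0 (show (1 / 2 : ℝ) < 1 by norm_num)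
  obtain ⟨j₁, hj₁, hj₁s⟩ := km_small_cube Metric.isOpen_ball (Metric.mem_ball_self hr₁) ja
  set k₁ := kmIdx j₁ y₁ with hk₁
  have hside : (1 : ℝ) / 2 ^ j₁ ≤ ρ₀ := by
    have h1 : ((1 : ℝ) / 2) ^ j₁ ≤ (1 / 2) ^ ja :=
      pow_le_pow_of_le_one (by norm_num) (by norm_num) hj₁
    rw [one_div, inv_pow, ← one_div] at h1
    linarith
  have hcl : closure (cube j₁ k₁) ⊆ Metric.closedBall y₁ r₁ :=
    closure_minimal (hj₁s.trans Metric.ball_subset_closedBall) Metric.isClosed_closedBall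
  -- the polynomials on the cubes of the tree
  have hyp : ∀ (t : ℕ) (k : Fin d → ℤ), cube (j₁ + b * t) k ⊆ cube j₁ k₁ →
        ∃ P : Fin m → MvPolynomial (Fin d) ℝ, (∀ i, (P i).totalDegree ≤ l) ∧
        (∀ x ∈ cube (j₁ + b * t) k, PtApp F P θ (j₁ + b * t) x) ∧
        (∀ x ∈ cube (j₁ + b * t) k, PtApp F P θ (j₁ + b * t + b) x) ∧
        (∀ z : Fin m → ℝ, ∃ x ∈ cube (j₁ + b * t) k, ∃ I : List (Fin d), 2 ≤ I.length ∧
          I.length ≤ l ∧ c₀ * ‖z‖ ≤ |∑ i, z i * eval x (mpds I (P i))|) ∧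
        (∃ i a b', ∀ x ∈ cube (j₁ + b * t) k, c₀ ≤ |eval x (mpds [a, b'] (P i))|) := by
    intro t k hk
    set j := j₁ + b * t with hj
    obtain ⟨xc, hxc⟩ := km_nonempty_cube j k
    have hin : ∀ x ∈ cube j k, x ∈ Metric.closedBall y₁ r₁ := fun x hx =>
      Metric.ball_subset_closedBall (hj₁s (hk hx))
    choose P hPdeg hPder hPerr using fun i => hρ i xc (hin xc hxc)
    have hside2 : (1 : ℝ) / 2 ^ j ≤ 1 / 2 ^ j₁ :=
      one_div_le_one_div_of_le (by positivity) (pow_le_pow_right₀ (by norm_num) (by omega))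
    have hdist : ∀ x ∈ cube j k, ‖x - xc‖ ≤ 1 / 2 ^ j := fun x hx => cube_dist hx hxc
    have hclose : ∀ x ∈ cube j k, ∀ i, ‖x - xc‖ ≤ ρ i := fun x hx i =>
      (hdist x hx).trans (hside2.trans (hside.trans (hρ₀ i)))
    have happ : ∀ b' ≤ b, ∀ x ∈ cube j k, PtApp F P θ (j + b') x := by
      intro b' hb' x hx
      have hx1 := hin x hx
      have h2j : (0 : ℝ) < 2 ^ j := by positivity
      constructor
      · intro i
        have h1 := (hPerr i x hx1 (hclose x hx i)).1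
        have h2 : ‖x - xc‖ ^ l ≤ (1 / 2 ^ j) ^ l :=
          pow_le_pow_left₀ (norm_nonneg _) (hdist x hx) l
        have h3 : θ ^ (2 * m * (j + b')) * θ ^ (2 * (j + b')) = 2 ^ (l * j) * 2 ^ (l * b') := by
          rw [← pow_add, ← pow_add,
            show 2 * m * (j + b') + 2 * (j + b') = 2 * (m + 1) * (j + b') by ring, pow_mul, hθl,
            ← pow_mul]
          congr 1
          ring
        rw [h3]
        calc (2 : ℝ) ^ (l * j) * 2 ^ (l * b') * |F i x - eval x (P i)|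
            ≤ 2 ^ (l * j) * 2 ^ (l * b') * (ω * (1 / 2 ^ j) ^ l) := by
              gcongr
              exact h1.trans (by gcongr)
          _ = ω * 2 ^ (l * b') := by
              rw [div_pow, one_pow, ← pow_mul, mul_comm j l]
              field_simp
          _ ≤ ω * 2 ^ (b * l) := by
              refine mul_le_mul_of_nonneg_left (pow_le_pow_right₀ (by norm_num) ?_) hω0.le
              rw [mul_comm b l]
              exact Nat.mul_le_mul_left l hb'
          _ ≤ 1 := hωb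
      · intro a i
        have h1 := (hPerr i x hx1 (hclose x hx i)).2.1 a
        have h2 : ‖x - xc‖ ^ (l - 1) ≤ (1 / 2 ^ j) ^ (l - 1) :=
          pow_le_pow_left₀ (norm_nonneg _) (hdist x hx) (l - 1)
        have h3 : θ ^ ((m - 1) * (j + b')) * θ ^ (2 * (j + b')) = (θ ^ (m + 1)) ^ (j + b') := by
          rw [← pow_add, ← pow_mul, ← add_mul]
          congr 2
          omega
        set s := θ ^ (m + 1) with hs
        have hs0 : 0 < s := by positivity
        have hs2 : s ^ 2 = 2 ^ l := by rw [hs, ← pow_mul, mul_comm (m + 1) 2, hθl]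
        have hs3 : s ≤ 2 ^ (l - 1) := by
          refine le_of_pow_le_pow_left₀ (two_ne_zero) (by positivity) ?_
          rw [hs2, ← pow_mul]
          exact pow_le_pow_right₀ (by norm_num) (by omega)
        have hs4 : s ^ b' ≤ 2 ^ (b * l) := by
          calc s ^ b' ≤ (2 ^ (l - 1)) ^ b' := by gcongr
            _ = 2 ^ ((l - 1) * b') := by rw [← pow_mul]
            _ ≤ 2 ^ (b * l) := by
                refine pow_le_pow_right₀ (by norm_num) ?_
                calc (l - 1) * b' ≤ l * b := Nat.mul_le_mul (by omega) hb'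
                  _ = b * l := mul_comm _ _
        rw [h3, pow_add]
        calc s ^ j * s ^ b' * |pd a (F i) x - eval x (pderiv a (P i))|
            ≤ (2 ^ (l - 1)) ^ j * 2 ^ (b * l) * (ω * (1 / 2 ^ j) ^ (l - 1)) := by
              gcongr
              exact h1.trans (by gcongr)
          _ = ω * 2 ^ (b * l) := by
              rw [div_pow, one_pow, ← pow_mul, ← pow_mul, mul_comm j (l - 1)]
              field_simp
          _ ≤ 1 := hωb
    refine ⟨P, hPdeg, ?_, happ b le_rfl, ?_, ?_⟩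
    · have := happ 0 (by omega)
      simpa using this
    · intro z
      obtain ⟨I, hI1, hI2, hI3⟩ := hndz xc (hin xc hxc) z
      refine ⟨xc, hxc, I, hI1, hI2, ?_⟩
      rw [Finset.sum_congr rfl fun i _ => by rw [hPder i I hI2]]
      refine le_trans ?_ hI3
      gcongr
      rw [hc₀]
      linarith
    · obtain ⟨i, a, b', hab⟩ := hsec
      refine ⟨i, a, b', fun x hx => ?_⟩
      have h1 := (hPerr i x (hin x hx) (hclose x hx i)).2.2 [a, b'] (by simpa using hl)
      have h2 := hab x (hin x hx)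
      have h3 := abs_sub_abs_le_abs_sub (pds [a, b'] (F i) x) (eval x (mpds [a, b'] (P i)))
      rw [hc₀] at hωc ⊢
      linarith
  obtain ⟨A, hA, hcount⟩ := htree F j₁ k₁ hyp
  obtain ⟨ε₂, hε₂, hkm⟩ := pt_km d m l (by omega) A hA (1 / 4) (by norm_num)
  -- every level
  have hlevel : ∀ t : ℕ, volume {x | x ∈ cube j₁ k₁ ∧ x ∈ {x | ∃ c : Idx d m → ℤ, c ≠ 0 ∧
      ∀ a, |(HFj F θ (j₁ + b * t) x).mulVec (fun b => (c b : ℝ)) a| < ε₂}} ≤
      ENNReal.ofReal (1 / 8 + 1 / 4) * volume (cube j₁ k₁) := by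
    intro t
    refine pt_sum j₁ (b * t) k₁ _ _ (1 / 8) (1 / 4) (by norm_num) (by norm_num) (hcount t) ?_
    intro u hu
    push Not at hu
    have hcs : cube (j₁ + b * t) (fun i => 2 ^ (b * t) * k₁ i + ((u i : ℕ) : ℤ)) ⊆
        cube j₁ k₁ := by
      refine pt_sub _ (b * t) k₁ _ fun i => ⟨by simp, ?_⟩
      have := (u i).2
      have h2 : ((u i : ℕ) : ℤ) < 2 ^ (b * t) := by exact_mod_cast this
      linarith
    obtain ⟨P, hP, happ1, -, -, -⟩ := hyp t _ hcs
    exact hkm F P hP θ (j₁ + b * t) hθ0 _ happ1 hu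
  refine ⟨j₁, k₁, hcl.trans hball, ε₂ * (θ ^ (2 * b))⁻¹, θ ^ ((m + 1) * j₁), by positivity, ?_⟩
  intro N T hN hT hTN
  have hN0 : 0 < N := lt_of_lt_of_le (by positivity) hN
  -- choice of the level
  have hex : ∃ t : ℕ, N < θ ^ ((m + 1) * (j₁ + b * t + b)) := by
    obtain ⟨t, ht⟩ := pow_unbounded_of_one_lt N hθ1
    refine ⟨t, ht.trans_le (pow_le_pow_right₀ hθ1.le ?_)⟩
    calc t ≤ b * t := Nat.le_mul_of_pos_left t hb
      _ ≤ j₁ + b * t + b := by omega
      _ ≤ (m + 1) * (j₁ + b * t + b) := Nat.le_mul_of_pos_left _ (by omega)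
  set t := Nat.find hex with ht
  have ht1 : N < θ ^ ((m + 1) * (j₁ + b * t + b)) := Nat.find_spec hex
  have ht2 : θ ^ ((m + 1) * (j₁ + b * t)) ≤ N := by
    rcases Nat.eq_zero_or_pos t with h0 | h0
    · rw [h0]
      simpa using hN
    · have h1 := Nat.find_min hex (m := t - 1) (by omega)
      push Not at h1
      obtain ⟨t', ht'⟩ : ∃ t', t = t' + 1 := ⟨t - 1, by omega⟩
      rw [ht'] at h1 ⊢
      simp only [Nat.add_sub_cancel] at h1
      rw [show j₁ + b * (t' + 1) = j₁ + b * t' + b by ring]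
      exact h1
  refine le_trans (measure_mono ?_) ((hlevel t).trans ?_)
  · rintro x ⟨hx, c', hc'0, hc'⟩
    refine ⟨hx, c', hc'0, ?_⟩
    exact pt_norm (by omega) F θ hθ1 (j₁ + b * t) b N T ε₂ hN0 hT hTN ht2 ht1 hε₂ x _ hc'
  · gcongr
    norm_num

end Pool.Agent.Lib.MP_a37012_nt
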