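import Pool.Agent.Lib.MP_a37012_nt.Mg.G001

set_option autoImplicit false

open MvPolynomial

namespace Pool.Agent.Lib.MP_a37012_nt

section mp

variable {d m : ℕ}

theorem mpds_cons' (b : Fin d) (I : List (Fin d)) (p : MvPolynomial (Fin d) ℝ) :
    mpds (b :: I) p = mpds I (pderiv b p) := by
  rw [← xds_one, ← xds_one, ← xd_one b p, xds_xd]
  rfl

theorem mpds_zero (I : List (Fin d)) : mpds I (0 : MvPolynomial (Fin d) ℝ) = 0 := by
  induction I with
  | nil => rfl
  | cons b I ih => rw [mpds_cons', map_zero, ih]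

theorem mpds_affine (I : List (Fin d)) (hI : 2 ≤ I.length) (c : ℝ) (w : Fin d → ℝ) :
    mpds I (C c + ∑ a, C (w a) * X a) = 0 := by
  obtain _ | ⟨b, _ | ⟨b', I⟩⟩ := I
  · simp at hI
  · simp at hI
  · rw [mpds_cons', mpds_cons']
    have : pderiv b (C c + ∑ a, C (w a) * X a) = C (w b) := by
      rw [map_add, pderiv_C, zero_add, map_sum, Finset.sum_eq_single b]
      · rw [pderiv_C_mul, pderiv_X_self, mul_one]
      · intro a _ ha
        rw [pderiv_C_mul, pderiv_X_of_ne ha, mul_zero]
      · simp
    rw [this, pderiv_C, mpds_zero]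

theorem mpds_gp (P : Fin m → MvPolynomial (Fin d) ℝ) (β : Idx d m → ℝ) (I : List (Fin d))
    (hI : 2 ≤ I.length) :
    mpds I (gp P β) = ∑ j, C (β (some (Sum.inr j))) * mpds I (P j) := by
  unfold gp
  rw [← xds_one, xds_add, xds_one, mpds_affine I hI, zero_add, xds_sum]
  exact Finset.sum_congr rfl fun j _ => by rw [xds_C_mul, xds_one]

theorem totalDegree_gp_le (P : Fin m → MvPolynomial (Fin d) ℝ) (D : ℕ)
    (hP : ∀ j, (P j).totalDegree ≤ D) (β : Idx d m → ℝ) : (gp P β).totalDegree ≤ D + 1 := by
  unfold gp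
  refine (totalDegree_add _ _).trans (max_le ((totalDegree_add _ _).trans (max_le ?_ ?_)) ?_)
  · rw [totalDegree_C]; omega
  · refine (totalDegree_finsetSum _ _).trans (Finset.sup_le fun a _ => ?_)
    refine (totalDegree_mul _ _).trans ?_
    rw [totalDegree_C, totalDegree_X]
    omega
  · refine (totalDegree_finsetSum _ _).trans (Finset.sup_le fun j _ => ?_)
    refine (totalDegree_mul _ _).trans ?_
    rw [totalDegree_C]
    have := hP j
    omega

theorem totalDegree_gp_le_one (P : Fin m → MvPolynomial (Fin d) ℝ) (β : Idx d m → ℝ)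
    (hβ : ∀ j, β (some (Sum.inr j)) = 0) : (gp P β).totalDegree ≤ 1 := by
  unfold gp
  simp only [hβ, C_0, zero_mul, Finset.sum_const_zero, add_zero]
  refine (totalDegree_add _ _).trans (max_le ?_ ?_)
  · rw [totalDegree_C]; omega
  · refine (totalDegree_finsetSum _ _).trans (Finset.sup_le fun a _ => ?_)
    refine (totalDegree_mul _ _).trans ?_
    rw [totalDegree_C, totalDegree_X]

end mp

theorem submatrix_update {ι : Type} [DecidableEq ι] {r : ℕ} (X : Matrix ι (Fin r) ℝ)
    (e : Fin r → ι) (t : Fin r) (ρ : ι) :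
    X.submatrix (Function.update e t ρ) id = (X.submatrix e id).updateRow t (X ρ) := by
  ext s s'
  by_cases hs : s = t
  · subst hs; simp
  · simp [hs]

theorem cls_one {d m : ℕ} {ρ : Idx d m} (h : cls ρ = 1) : ∃ i, ρ = some (Sum.inl i) := by
  rcases ρ with _ | (i | j)
  · simp [cls] at h
  · exact ⟨i, rfl⟩
  · simp [cls] at h

theorem cls_two {d m : ℕ} {ρ : Idx d m} (h : cls ρ = 2) : ∃ j, ρ = some (Sum.inr j) := by
  rcases ρ with _ | (i | j)
  · simp [cls] at h
  · simp [cls] at h
  · exact ⟨j, rfl⟩

theorem cls_cases {d m : ℕ} {ρ : Idx d m} (h : ρ ≠ none) : cls ρ = 1 ∨ cls ρ = 2 := by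
  rcases ρ with _ | (i | j)
  · exact absurd rfl h
  · exact Or.inl rfl
  · exact Or.inr rfl

/-- Expansion of a row vector in the rows of the normalised minor. -/
theorem row_expand {d m r : ℕ} (P : Fin m → MvPolynomial (Fin d) ℝ)
    (B' : Matrix (Idx d m) (Fin r) ℝ) (e : Fin r → Idx d m)
    (h1 : ∀ s t, B' (e s) t = if s = t then 1 else 0)
    (h2 : ∀ t ρ, cls (e t) < cls ρ → B' ρ t = 0) (x : Fin d → ℝ) (hnone : ∀ t, e t ≠ none)
    (u : {s : Fin r // cls (e s) = 1} → Fin d) (hu : ∀ s, e s.1 = some (Sum.inl (u s)))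
    (y : Fin r → ℝ) :
    y = ∑ s, (if cls (e s) = 2 then
        y s - ∑ s' : {s : Fin r // cls (e s) = 1}, y s'.1 *
          eval x (pderiv (u s') (gp P fun ρ => B' ρ s)) else y s) •
      (((evalM (UM P) x * B').submatrix e id) s : Fin r → ℝ) := by
  classical
  funext t
  rw [Finset.sum_apply]
  simp only [Pi.smul_apply, smul_eq_mul, Matrix.submatrix_apply, id]
  rcases cls_cases (hnone t) with ht | ht
  · rw [Finset.sum_eq_single t]
    · rw [if_neg (by omega), minor_entry P B' e h1 h2 x t t le_rfl, if_pos rfl, mul_one]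
    · intro s _ hs
      have hs1 : cls (e t) ≤ cls (e s) := by
        rcases cls_cases (hnone s) with h | h <;> omega
      rw [minor_entry P B' e h1 h2 x s t hs1, if_neg hs, mul_zero]
    · simp
  · rw [← Finset.sum_filter_add_sum_filter_not Finset.univ (fun s => cls (e s) = 1)]
    have h3 : ∑ s ∈ Finset.univ.filter (fun s => ¬ cls (e s) = 1), (if cls (e s) = 2 then
        y s - ∑ s' : {s : Fin r // cls (e s) = 1}, y s'.1 *
          eval x (pderiv (u s') (gp P fun ρ => B' ρ s)) else y s) *
        (evalM (UM P) x * B') (e s) t =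
        y t - ∑ s' : {s : Fin r // cls (e s) = 1}, y s'.1 *
          eval x (pderiv (u s') (gp P fun ρ => B' ρ t)) := by
      rw [Finset.sum_eq_single t]
      · rw [if_pos ht, minor_entry P B' e h1 h2 x t t le_rfl, if_pos rfl, mul_one]
      · intro s hs hst
        have hs2 : cls (e s) = 2 := by
          rcases cls_cases (hnone s) with h | h
          · exact absurd h (Finset.mem_filter.mp hs).2
          · exact h
        rw [minor_entry P B' e h1 h2 x s t (by omega), if_neg hst, mul_zero]
      · intro hnt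
        exact absurd (Finset.mem_filter.mpr ⟨Finset.mem_univ t, by omega⟩) hnt
    have h4 : ∑ s ∈ Finset.univ.filter (fun s => cls (e s) = 1), (if cls (e s) = 2 then
        y s - ∑ s' : {s : Fin r // cls (e s) = 1}, y s'.1 *
          eval x (pderiv (u s') (gp P fun ρ => B' ρ s)) else y s) *
        (evalM (UM P) x * B') (e s) t =
        ∑ s' : {s : Fin r // cls (e s) = 1}, y s'.1 *
          eval x (pderiv (u s') (gp P fun ρ => B' ρ t)) := by
      rw [Finset.sum_subtype (Finset.univ.filter fun s => cls (e s) = 1)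
        (p := fun s => cls (e s) = 1) (fun s => by simp)]
      refine Finset.sum_congr rfl fun s _ => ?_
      rw [if_neg (by have := s.2; omega), hu s, UM_inl]
    rw [h3, h4]
    ring

/-- All the minors are small: consequences. -/
theorem minors_small {d m r : ℕ} (P : Fin m → MvPolynomial (Fin d) ℝ) (Q K T A : ℝ) (hK : 1 ≤ K)
    (hT : 1 ≤ T) (hA : 1 ≤ A) (hQ : Q = A * K ^ d * T ^ m) (B : Matrix (Idx d m) (Fin r) ℤ)
    (B' : Matrix (Idx d m) (Fin r) ℝ) (δ : ℝ) (hδ : 1 ≤ |δ|)
    (hBB : ∀ (U : Matrix (Idx d m) (Idx d m) ℝ) (e' : Fin r → Idx d m),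
        ((U * toR B).submatrix e' id).det = ((U * B').submatrix e' id).det * δ)
    (x : Fin d → ℝ)
    (hx : ∀ e' : Fin r → Idx d m, |((evalM (HM P Q K T) x * toR B).submatrix e' id).det| < 1)
    (e' : Fin r → Idx d m) (he' : Function.Injective e') (hnone : ∃ t, e' t = none)
    (S : Finset (Idx d m)) (hS : ∀ t, e' t ∉ S) :
    |((evalM (UM P) x * B').submatrix e' id).det| * A < ∏ ρ ∈ S, wt Q K T ρ := by
  have hA0 : 0 < A := by linarith
  have hK0 : 0 < K := by linarith
  have hT0 : 0 < T := by linarith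
  have hQ0 : 0 < Q := by rw [hQ]; positivity
  have hpos : ∀ ρ : Idx d m, 0 < wt Q K T ρ := by
    intro ρ
    rcases ρ with _ | (i | j)
    · exact hQ0
    · exact inv_pos.mpr hK0
    · exact inv_pos.mpr hT0
  have h1 := hx e'
  rw [det_weights, hBB, abs_mul, abs_mul] at h1
  have hw : 0 < ∏ t, wt Q K T (e' t) := Finset.prod_pos fun t _ => hpos _
  have hs : 0 < ∏ ρ ∈ S, wt Q K T ρ := Finset.prod_pos fun t _ => hpos _
  rw [abs_of_pos hw] at h1
  have h2 := prod_wt Q K T A hK hT hA0 hQ e' he' hnone S hS
  have h3 := abs_nonneg ((evalM (UM P) x * B').submatrix e' id).det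
  have h4 : (∏ t, wt Q K T (e' t)) * |((evalM (UM P) x * B').submatrix e' id).det| < 1 := by
    refine lt_of_le_of_lt ?_ h1
    gcongr
    nlinarith
  calc |((evalM (UM P) x * B').submatrix e' id).det| * A
      ≤ |((evalM (UM P) x * B').submatrix e' id).det| *
        ((∏ t, wt Q K T (e' t)) * ∏ ρ ∈ S, wt Q K T ρ) := by gcongr
    _ = ((∏ t, wt Q K T (e' t)) * |((evalM (UM P) x * B').submatrix e' id).det|) *
        ∏ ρ ∈ S, wt Q K T ρ := by ring
    _ < 1 * ∏ ρ ∈ S, wt Q K T ρ := by gcongr
    _ = _ := one_mul _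

/-- The lower bound for the maximal minors of all integer matrices. -/
theorem supBound (d m D l : ℕ) (hm : 1 ≤ m) (hl : 1 ≤ l) (M c₀ : ℝ) (hM : 0 < M) (hc₀ : 0 < c₀) :
    ∃ A₀ κ : ℝ, 1 ≤ A₀ ∧ 0 < κ ∧ ∀ P : Fin m → MvPolynomial (Fin d) ℝ,
      (∀ i, (P i).totalDegree ≤ D) → ∀ (j : ℕ) (k : Fin d → ℤ) (xc : Fin d → ℝ), xc ∈ cube j k →
      (∀ (i : Fin m) (I : List (Fin d)), 2 ≤ I.length → I.length ≤ l + 1 →
        |eval xc (mpds I (P i))| ≤ M) →
      (∀ z : Fin m → ℝ, ∃ I : List (Fin d), 2 ≤ I.length ∧ I.length ≤ l ∧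
        c₀ * ‖z‖ ≤ |∑ i, z i * eval xc (mpds I (P i))|) →
      ∀ Q K T A : ℝ, 1 ≤ K → 1 ≤ T → A₀ ≤ A → Q = A * K ^ d * T ^ m →
      1 ≤ κ * (K ^ d * T * (1 / 2 ^ j) ^ l) →
      (1 ≤ κ * (K * (1 / 2 ^ j)) ∨ 1 ≤ κ * (T * (1 / 2 ^ j) ^ l)) →
      ∀ (r : ℕ) (B : Matrix (Idx d m) (Fin r) ℤ),
        LinearIndependent ℤ (fun t : Fin r => fun a => B a t) →
        ∃ x ∈ cube j k, ∃ e' : Fin r → Idx d m,
          1 ≤ |((evalM (HM P Q K T) x * toR B).submatrix e' id).det| := by
  classical
  obtain ⟨A₀, κc, hA₀, hκc, hcore⟩ := core d (D + 1) l (m * M) c₀ (by positivity) hc₀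
  obtain ⟨Km, hKm, hmar⟩ := xds_markov d (D + 1)
  have hKm0 : 0 < Km := by linarith
  set κ : ℝ := min (κc / 2) (min (c₀ / (2 * Km ^ l)) (1 / (2 * Km))) with hκ
  have hκ1 : κ ≤ κc / 2 := min_le_left _ _
  have hκ2 : κ ≤ c₀ / (2 * Km ^ l) := (min_le_right _ _).trans (min_le_left _ _)
  have hκ3 : κ ≤ 1 / (2 * Km) := (min_le_right _ _).trans (min_le_right _ _)
  have hκ0 : 0 < κ := by
    rw [hκ]
    refine lt_min (by positivity) (lt_min (by positivity) (by positivity))
  refine ⟨A₀, κ, hA₀, hκ0, ?_⟩
  intro P hP j k xc hxc hPM hPc Q K T A hK hT hAA hQ hc1 hc2 r B hB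
  by_contra hcon
  push Not at hcon
  obtain ⟨e, B', δ, hδ, hBB, h1, h2, h3⟩ := normalize B hB
  have hA1 : 1 ≤ A := hA₀.trans hAA
  have hA0 : 0 < A := by linarith
  have hK0 : 0 < K := by linarith
  have hT0 : 0 < T := by linarith
  have hρ0 : (0 : ℝ) < 1 / 2 ^ j := by positivity
  have hρ1 : (1 : ℝ) / 2 ^ j ≤ 1 := by
    rw [div_le_one (by positivity)]; exact one_le_pow₀ (by norm_num)
  have hinj : Function.Injective e := by
    intro s s' hss
    by_contra hne
    have h4 := h1 s s
    have h5 := h1 s' s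
    rw [if_pos rfl] at h4
    rw [if_neg (Ne.symm hne), ← hss, h4] at h5
    exact one_ne_zero h5
  have hsmall := fun (x : Fin d → ℝ) (hx : x ∈ cube j k) =>
    minors_small P Q K T A hK hT hA1 hQ B B' δ hδ hBB x (hcon x hx)
  -- the case of the empty matrix
  rcases Nat.eq_zero_or_pos r with hr | hr
  · subst hr
    have := hcon xc hxc e
    rw [Matrix.det_isEmpty] at this
    norm_num at this
  -- the value row is used
  by_cases hnone : ∃ t, e t = none
  · have h4 := hsmall xc hxc e hinj hnone ∅ (by simp)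
    rw [minor_det P B' e h1 h2 xc] at h4
    simp at h4
    linarith
  push Not at hnone
  have hu' : ∀ s : {s : Fin r // cls (e s) = 1}, ∃ i, e s.1 = some (Sum.inl i) :=
    fun s => cls_one s.2
  choose u hu using hu'
  have hinju : Function.Injective u := by
    intro s s' hss
    apply Subtype.ext
    apply hinj
    rw [hu, hu, hss]
  -- the rows
  set g : Fin r → MvPolynomial (Fin d) ℝ := fun t => gp P fun ρ => B' ρ t with hg
  set E : Fin r → MvPolynomial (Fin d) ℝ := fun t =>
    g t - ∑ s' : {s : Fin r // cls (e s) = 1}, g s'.1 * pderiv (u s') (g t) with hE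
  have hrowV : ∀ x, ((evalM (UM P) x * B') none : Fin r → ℝ) = ∑ s,
      (if cls (e s) = 2 then eval x (E s) else eval x (g s)) •
        (((evalM (UM P) x * B').submatrix e id) s : Fin r → ℝ) := by
    intro x
    have h4 := row_expand P B' e h1 h2 x hnone u hu ((evalM (UM P) x * B') none)
    rw [h4]
    refine Finset.sum_congr rfl fun s _ => ?_
    congr 1
    by_cases hs : cls (e s) = 2
    · rw [if_pos hs, if_pos hs, UM_none, hE]
      simp only [map_sub, map_sum, map_mul, hg]
      congr 1
      exact Finset.sum_congr rfl fun s' _ => by rw [UM_none]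
    · rw [if_neg hs, if_neg hs, UM_none]
  have hrowW : ∀ x a, ((evalM (UM P) x * B') (some (Sum.inl a)) : Fin r → ℝ) = ∑ s,
      (if cls (e s) = 2 then eval x (pderiv a (g s) -
        ∑ s' : {s : Fin r // cls (e s) = 1}, C (B' (some (Sum.inl a)) s'.1) *
          pderiv (u s') (g s)) else B' (some (Sum.inl a)) s) •
        (((evalM (UM P) x * B').submatrix e id) s : Fin r → ℝ) := by
    intro x a
    have h4 := row_expand P B' e h1 h2 x hnone u hu ((evalM (UM P) x * B') (some (Sum.inl a)))
    have h5 : ∀ s, cls (e s) = 1 →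
        (evalM (UM P) x * B') (some (Sum.inl a)) s = B' (some (Sum.inl a)) s := by
      intro s hs
      rw [UM_inl, pderiv_gp]
      have hj : ∀ j, B' (some (Sum.inr j)) s = 0 := fun j => h2 s _ (by rw [hs]; simp [cls])
      simp [hj]
    rw [h4]
    refine Finset.sum_congr rfl fun s _ => ?_
    congr 1
    by_cases hs : cls (e s) = 2
    · rw [if_pos hs, if_pos hs, UM_inl]
      simp only [map_sub, map_sum, map_mul, hg, eval_C]
      congr 1
      exact Finset.sum_congr rfl fun s' _ => by rw [h5 s'.1 s'.2]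
    · rw [if_neg hs, if_neg hs, h5]
      rcases cls_cases (hnone s) with h | h
      · exact h
      · exact absurd h hs
  have hgdeg : ∀ t, (g t).totalDegree ≤ D + 1 := fun t => totalDegree_gp_le P D hP _
  -- single update by the value row
  have hupd : ∀ t, Function.Injective (Function.update e t none) := by
    intro t s s' hss
    by_cases hs : s = t
    · by_cases hs' : s' = t
      · rw [hs, hs']
      · rw [hs, Function.update_self, Function.update_of_ne hs'] at hss
        exact absurd hss.symm (hnone s')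
    · by_cases hs' : s' = t
      · rw [hs', Function.update_self, Function.update_of_ne hs] at hss
        exact absurd hss (hnone s)
      · rw [Function.update_of_ne hs, Function.update_of_ne hs'] at hss
        exact hinj hss
  have hsingle : ∀ x ∈ cube j k, ∀ t, ∀ S : Finset (Idx d m), none ∉ S →
      (∀ s, s ≠ t → e s ∉ S) →
      |if cls (e t) = 2 then eval x (E t) else eval x (g t)| * A < ∏ ρ ∈ S, wt Q K T ρ := by
    intro x hx t S hS0 hS
    have h4 := hsmall x hx (Function.update e t none) (hupd t) ⟨t, Function.update_self ..⟩ S (by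
      intro s
      by_cases hs : s = t
      · rw [hs, Function.update_self]; exact hS0
      · rw [Function.update_of_ne hs]; exact hS s hs)
    rw [submatrix_update, hrowV, Matrix.det_updateRow_sum, minor_det P B' e h1 h2 x,
      smul_eq_mul, mul_one] at h4
    exact h4
  by_cases hw : ∃ t, cls (e t) = 1
  swap
  · -- no gradient index is used
    push Not at hw
    have hall : ∀ t, cls (e t) = 2 := by
      intro t
      rcases cls_cases (hnone t) with h | h
      · exact absurd h (hw t)
      · exact h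
    set t₀ : Fin r := ⟨0, hr⟩
    obtain ⟨i₀, hi₀⟩ := cls_two (hall t₀)
    have hEg : E t₀ = g t₀ := by
      rw [hE]
      simp only
      rw [Finset.sum_eq_zero, sub_zero]
      intro s' _
      exact absurd s'.2 (hw s'.1)
    set S : Finset (Idx d m) := insert (e t₀) (Finset.univ.image fun a => some (Sum.inl a)) with hS
    have hSw : ∏ ρ ∈ S, wt Q K T ρ = T⁻¹ * (K⁻¹) ^ d := by
      rw [hS, Finset.prod_insert, Finset.prod_image]
      · rw [hi₀]; simp [wt]
      · intro a _ b _ hab
        simpa using hab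
      · rw [hi₀]; simp
    have hgx : ∀ x ∈ cube j k, |eval x (g t₀)| ≤ 1 / (A * (K ^ d * T)) := by
      intro x hx
      have h4 := hsingle x hx t₀ S (by rw [hS, hi₀]; simp) (by
        intro s hs
        obtain ⟨i, hi⟩ := cls_two (hall s)
        rw [hS, Finset.mem_insert]
        push Not
        refine ⟨fun h => hs (hinj h), ?_⟩
        rw [hi]; simp)
      rw [if_pos (hall t₀), hEg, hSw] at h4
      rw [le_div_iff₀ (by positivity)]
      have h5 : |eval x (g t₀)| * (A * (K ^ d * T)) = (|eval x (g t₀)| * A) * (K ^ d * T) := by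
        ring
      rw [h5]
      calc (|eval x (g t₀)| * A) * (K ^ d * T) ≤ (T⁻¹ * K⁻¹ ^ d) * (K ^ d * T) := by gcongr
        _ = 1 := by rw [inv_pow]; field_simp
    obtain ⟨I, hI2, hIl, hIc⟩ := hPc fun i => B' (some (Sum.inr i)) t₀
    have hz : (1 : ℝ) ≤ ‖fun i => B' (some (Sum.inr i)) t₀‖ := by
      have h4 := norm_le_pi_norm (fun i => B' (some (Sum.inr i)) t₀) i₀
      have h5 := h1 t₀ t₀
      rw [hi₀, if_pos rfl] at h5
      simp only [h5, norm_one] at h4
      exact h4
    have hval : eval xc (mpds I (g t₀)) =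
        ∑ i, B' (some (Sum.inr i)) t₀ * eval xc (mpds I (P i)) := by
      rw [hg]
      simp only
      rw [mpds_gp P _ I hI2, map_sum]
      exact Finset.sum_congr rfl fun i _ => by rw [map_mul, eval_C]
    rw [← hval] at hIc
    have h6 := hmar (fun a b => if a = b then 1 else 0) (by intro a b; split_ifs <;> simp)
      (g t₀) (hgdeg t₀) j k _ hgx I xc hxc
    rw [xds_one] at h6
    have hone : (1 : ℝ) ≤ Km * 2 ^ j := by
      have : (1 : ℝ) ≤ 2 ^ j := one_le_pow₀ (by norm_num)
      nlinarith
    have h7 : (Km * 2 ^ j) ^ I.length ≤ (Km * 2 ^ j) ^ l := pow_le_pow_right₀ hone hIl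
    have h8 : c₀ ≤ (Km * 2 ^ j) ^ l * (1 / (A * (K ^ d * T))) := by
      calc c₀ = c₀ * 1 := (mul_one _).symm
        _ ≤ c₀ * ‖fun i => B' (some (Sum.inr i)) t₀‖ := by gcongr
        _ ≤ (Km * 2 ^ j) ^ I.length * (1 / (A * (K ^ d * T))) := hIc.trans h6
        _ ≤ _ := by gcongr
    have h9 : c₀ * (K ^ d * T * (1 / 2 ^ j) ^ l) ≤ Km ^ l := by
      rw [mul_one_div, le_div_iff₀ (by positivity)] at h8
      have h10 : c₀ * (K ^ d * T) ≤ (Km * 2 ^ j) ^ l := by
        have h13 : K ^ d * T ≤ A * (K ^ d * T) := le_mul_of_one_le_left (by positivity) hA1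
        exact (mul_le_mul_of_nonneg_left h13 hc₀.le).trans h8
      rw [mul_pow] at h10
      have h11 : c₀ * (K ^ d * T * (1 / 2 ^ j) ^ l) = c₀ * (K ^ d * T) / (2 ^ j) ^ l := by
        rw [one_div, inv_pow]; ring
      rw [h11, div_le_iff₀ (by positivity)]
      exact h10
    have h12 : κ * (K ^ d * T * (1 / 2 ^ j) ^ l) ≤ 1 / 2 := by
      calc κ * (K ^ d * T * (1 / 2 ^ j) ^ l)
          ≤ c₀ / (2 * Km ^ l) * (K ^ d * T * (1 / 2 ^ j) ^ l) := by gcongr
        _ = (c₀ * (K ^ d * T * (1 / 2 ^ j) ^ l)) / (2 * Km ^ l) := by ring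
        _ ≤ Km ^ l / (2 * Km ^ l) := by gcongr
        _ = 1 / 2 := by field_simp
    linarith
  -- some gradient index is used
  obtain ⟨s₀, hs₀⟩ := hw
  have hgs : ∀ s, cls (e s) = 1 → ∀ j', B' (some (Sum.inr j')) s = 0 :=
    fun s hs j' => h2 s _ (by rw [hs]; simp [cls])
  -- lower bound for the affine functions
  have haff : ∀ S : ℝ, (∀ x ∈ cube j k, |eval x (g s₀)| ≤ S) → 1 ≤ Km * 2 ^ j * S := by
    intro S hS
    have h6 := hmar (fun a b => if a = b then 1 else 0) (by intro a b; split_ifs <;> simp)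
      (g s₀) (hgdeg s₀) j k S hS [u ⟨s₀, hs₀⟩] xc hxc
    rw [xds_one] at h6
    simp only [mpds, List.length_singleton, pow_one, hg] at h6
    rw [pderiv_gp] at h6
    simp only [hgs s₀ hs₀, C_0, zero_mul, Finset.sum_const_zero, add_zero, eval_C] at h6
    have h7 := h1 s₀ s₀
    rw [if_pos rfl] at h7
    have h8 := hu ⟨s₀, hs₀⟩
    simp only at h8
    rw [← h8, h7, abs_one] at h6
    exact h6
  have hγA : ∀ x ∈ cube j k, ∀ s, cls (e s) = 1 → |eval x (g s)| ≤ 1 / (A * K) := by
    intro x hx s hs
    obtain ⟨i, hi⟩ := cls_one hs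
    have h4 := hsingle x hx s {e s} (by rw [hi]; simp) (by
      intro s' hs'
      rw [Finset.mem_singleton]
      exact fun h => hs' (hinj h))
    rw [if_neg (by omega), Finset.prod_singleton, hi] at h4
    simp only [wt] at h4
    rw [le_div_iff₀ (by positivity), ← mul_assoc]
    calc |eval x (g s)| * A * K ≤ K⁻¹ * K := by gcongr
      _ = 1 := inv_mul_cancel₀ hK0.ne'
  have hK_bound : ¬ 1 ≤ κ * (K * (1 / 2 ^ j)) := by
    intro hcK
    have h4 := haff _ (fun x hx => hγA x hx s₀ hs₀)
    have h5 : K * (1 / 2 ^ j) ≤ Km := by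
      rw [mul_one_div, le_div_iff₀ (by positivity), one_mul] at h4
      rw [mul_one_div, div_le_iff₀ (by positivity)]
      nlinarith
    have h6 : κ * (K * (1 / 2 ^ j)) ≤ 1 / 2 := by
      calc κ * (K * (1 / 2 ^ j)) ≤ 1 / (2 * Km) * Km := by gcongr
        _ = 1 / 2 := by field_simp
    linarith
  have hcT : 1 ≤ κ * (T * (1 / 2 ^ j) ^ l) := hc2.resolve_left hK_bound
  have hρl : ((1 : ℝ) / 2 ^ j) ^ l ≤ 1 / 2 ^ j := by
    calc ((1 : ℝ) / 2 ^ j) ^ l ≤ (1 / 2 ^ j) ^ 1 := pow_le_pow_of_le_one hρ0.le hρ1 hl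
      _ = _ := pow_one _
  by_cases hz : ∃ j' : Fin m, ∀ s, e s ≠ some (Sum.inr j')
  · -- some coefficient index is not used
    obtain ⟨j', hj'⟩ := hz
    have h4 : ∀ x ∈ cube j k, |eval x (g s₀)| ≤ 1 / T := by
      intro x hx
      obtain ⟨i, hi⟩ := cls_one hs₀
      have h4 := hsingle x hx s₀ {some (Sum.inr j')} (by simp) (by
        intro s' _
        rw [Finset.mem_singleton]
        exact hj' s')
      rw [if_neg (by omega), Finset.prod_singleton] at h4
      simp only [wt] at h4
      rw [le_div_iff₀ hT0]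
      calc |eval x (g s₀)| * T ≤ (|eval x (g s₀)| * A) * T := by
            have := abs_nonneg (eval x (g s₀))
            gcongr
            nlinarith
        _ ≤ T⁻¹ * T := by gcongr
        _ = 1 := inv_mul_cancel₀ hT0.ne'
    have h5 := haff _ h4
    have h6 : T * (1 / 2 ^ j) ≤ Km := by
      rw [mul_one_div, le_div_iff₀ hT0, one_mul] at h5
      rw [mul_one_div, div_le_iff₀ (by positivity)]
      exact h5
    have h7 : κ * (T * (1 / 2 ^ j) ^ l) ≤ 1 / 2 := by
      calc κ * (T * (1 / 2 ^ j) ^ l) ≤ 1 / (2 * Km) * (T * (1 / 2 ^ j)) := by gcongr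
        _ ≤ 1 / (2 * Km) * Km := by gcongr
        _ = 1 / 2 := by field_simp
    linarith
  push Not at hz
  obtain ⟨t', ht'⟩ := hz ⟨0, hm⟩
  have ht'2 : cls (e t') = 2 := by rw [ht']; rfl
  -- the core lemma
  set Z : ℝ := ‖fun i => B' (some (Sum.inr i)) t'‖ with hZ
  have hZ1 : 1 ≤ Z := by
    have h4 := norm_le_pi_norm (fun i => B' (some (Sum.inr i)) t') ⟨0, hm⟩
    have h5 := h1 t' t'
    rw [ht', if_pos rfl] at h5
    simp only [h5, norm_one] at h4
    exact h4
  have hval : ∀ I : List (Fin d), 2 ≤ I.length → eval xc (mpds I (g t')) =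
      ∑ i, B' (some (Sum.inr i)) t' * eval xc (mpds I (P i)) := by
    intro I hI2
    rw [hg]
    simp only
    rw [mpds_gp P _ I hI2, map_sum]
    exact Finset.sum_congr rfl fun i _ => by rw [map_mul, eval_C]
  have hEb : ∀ x ∈ cube j k, |eval x (E t')| ≤ 1 / T := by
    intro x hx
    have h4 := hsingle x hx t' {e t'} (by rw [ht']; simp) (by
      intro s' hs'
      rw [Finset.mem_singleton]
      exact fun h => hs' (hinj h))
    rw [if_pos ht'2, Finset.prod_singleton, ht'] at h4
    simp only [wt] at h4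
    rw [le_div_iff₀ hT0]
    calc |eval x (E t')| * T ≤ (|eval x (E t')| * A) * T := by
          have := abs_nonneg (eval x (E t'))
          gcongr
          nlinarith
      _ ≤ T⁻¹ * T := by gcongr
      _ = 1 := inv_mul_cancel₀ hT0.ne'
  have : Nonempty {s : Fin r // cls (e s) = 1} := ⟨⟨s₀, hs₀⟩⟩
  have hfin := hcore j k xc hxc {s : Fin r // cls (e s) = 1} u hinju
    (fun b s => B' (some (Sum.inl b)) s.1) (fun s => g s.1)
    (fun b s => h3 s.1 _ (by rw [s.2]; rfl))
    (fun s s' => by
      have h4 := h1 s'.1 s.1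
      rw [hu s'] at h4
      simp only [h4, Subtype.ext_iff])
    (fun b s => by
      simp only [hg]
      rw [pderiv_gp]
      simp [hgs s.1 s.2])
    (fun s => totalDegree_gp_le_one P _ (hgs s.1 s.2))
    (g t') (hgdeg t') Z A (1 / T) (by linarith) hAA
    (fun I hI2 hIl => by
      rw [hval I hI2]
      calc |∑ i, B' (some (Sum.inr i)) t' * eval xc (mpds I (P i))|
          ≤ ∑ i, |B' (some (Sum.inr i)) t' * eval xc (mpds I (P i))| :=
            Finset.abs_sum_le_sum_abs _ _
        _ ≤ ∑ _i : Fin m, Z * M := by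
            refine Finset.sum_le_sum fun i _ => ?_
            rw [abs_mul]
            refine mul_le_mul ?_ (hPM i I hI2 hIl) (abs_nonneg _) (by linarith)
            exact norm_le_pi_norm (fun i => B' (some (Sum.inr i)) t') i
        _ = m * M * Z := by
            rw [Finset.sum_const, Finset.card_univ, Fintype.card_fin, nsmul_eq_mul]; ring)
    (by
      obtain ⟨I, hI2, hIl, hIc⟩ := hPc fun i => B' (some (Sum.inr i)) t'
      exact ⟨I, hI2, hIl, by rw [hval I hI2]; exact hIc⟩)
    (fun s => (hγA xc hxc s.1 s.2).trans (by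
      have : A ≤ A * K := by nlinarith
      gcongr))
    (fun x hx => hEb x hx)
    (fun x hx s a => by
      by_cases ha : ∃ s'' : {s : Fin r // cls (e s) = 1}, a = u s''
      · obtain ⟨s'', rfl⟩ := ha
        have h4 : pderiv (u s'') (g t') - ∑ s' : {s : Fin r // cls (e s) = 1},
            C (B' (some (Sum.inl (u s''))) s'.1) * pderiv (u s') (g t') = 0 := by
          rw [sub_eq_zero, Finset.sum_eq_single s'']
          · rw [← hu s'', h1, if_pos rfl, C_1, one_mul]
          · intro s' _ hs'
            rw [← hu s'', h1, if_neg, C_0, zero_mul]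
            intro h5
            exact hs' (Subtype.ext h5.symm)
          · simp
        rw [h4, map_zero, mul_zero, sub_zero, abs_mul]
        calc |B' (some (Sum.inl (u s''))) s.1| * _ ≤ 1 * |eval x (E t')| := by
              gcongr
              exact h3 s.1 _ (by rw [s.2]; rfl)
          _ ≤ 1 / T := by rw [one_mul]; exact hEb x hx
      · push Not at ha
        have hane : ∀ s', e s' ≠ some (Sum.inl a) := by
          intro s' hs'
          have hc1 : cls (e s') = 1 := by rw [hs']; rfl
          have := hu ⟨s', hc1⟩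
          simp only at this
          rw [hs'] at this
          exact ha ⟨s', hc1⟩ (by simpa using this)
        have hst : s.1 ≠ t' := by
          intro h
          have := s.2
          rw [h] at this
          omega
        set e₂ := Function.update (Function.update e s.1 (some (Sum.inl a))) t' none with he₂
        have hinj2 : Function.Injective e₂ := by
          intro b b' hbb
          by_cases hb : b = t'
          · by_cases hb' : b' = t'
            · rw [hb, hb']
            · rw [he₂, hb, Function.update_self, Function.update_of_ne hb'] at hbb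
              by_cases hb'' : b' = s.1
              · rw [hb'', Function.update_self] at hbb
                simp at hbb
              · rw [Function.update_of_ne hb''] at hbb
                exact absurd hbb.symm (hnone b')
          · by_cases hb' : b' = t'
            · rw [he₂, hb', Function.update_self, Function.update_of_ne hb] at hbb
              by_cases hb'' : b = s.1
              · rw [hb'', Function.update_self] at hbb
                simp at hbb
              · rw [Function.update_of_ne hb''] at hbb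
                exact absurd hbb (hnone b)
            · rw [he₂, Function.update_of_ne hb, Function.update_of_ne hb'] at hbb
              by_cases hc : b = s.1
              · by_cases hc' : b' = s.1
                · rw [hc, hc']
                · rw [hc, Function.update_self, Function.update_of_ne hc'] at hbb
                  exact absurd hbb.symm (hane b')
              · by_cases hc' : b' = s.1
                · rw [hc', Function.update_self, Function.update_of_ne hc] at hbb
                  exact absurd hbb (hane b)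
                · rw [Function.update_of_ne hc, Function.update_of_ne hc'] at hbb
                  exact hinj hbb
        have h4 := hsmall x hx e₂ hinj2 ⟨t', by rw [he₂, Function.update_self]⟩ {e t'} (by
          intro b
          rw [Finset.mem_singleton, he₂]
          by_cases hb : b = t'
          · rw [hb, Function.update_self, ht']; simp
          · rw [Function.update_of_ne hb]
            by_cases hc : b = s.1
            · rw [hc, Function.update_self, ht']; simp
            · rw [Function.update_of_ne hc]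
              exact fun h => hb (hinj h))
        have hs2 : ¬ cls (e s.1) = 2 := by have := s.2; omega
        rw [he₂, submatrix_update, submatrix_update, hrowV, hrowW, det_update_two _ hst,
          minor_det P B' e h1 h2 x, mul_one, Finset.prod_singleton, if_neg hs2, if_pos ht'2,
          if_pos ht'2, if_neg hs2] at h4
        have hwt : wt Q K T (e t') = T⁻¹ := by rw [ht']; rfl
        rw [hwt, mul_comm (eval x (pderiv a (g t') - _))] at h4
        rw [le_div_iff₀ hT0]
        have h5 := mul_le_mul_of_nonneg_right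
          ((le_mul_of_one_le_right (abs_nonneg _) hA1).trans h4.le) hT0.le
        rw [inv_mul_cancel₀ hT0.ne'] at h5
        exact h5)
  have h5 : κc * (T * (1 / 2 ^ j) ^ l) ≤ 1 := by
    have h6 : κc * (1 / 2 ^ j) ^ l ≤ 1 / T := by
      refine le_trans ?_ hfin
      have h7 : κc ≤ κc * Z := le_mul_of_one_le_right hκc.le hZ1
      exact mul_le_mul_of_nonneg_right h7 (by positivity)
    rw [le_div_iff₀ hT0] at h6
    linarith
  have h7 : κ * (T * (1 / 2 ^ j) ^ l) ≤ 1 / 2 := by
    calc κ * (T * (1 / 2 ^ j) ^ l) ≤ κc / 2 * (T * (1 / 2 ^ j) ^ l) := by gcongr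
      _ ≤ 1 / 2 := by linarith
  linarith

end Pool.Agent.Lib.MP_a37012_nt
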